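import Pool.Agent.H533.QA.MastA

/-!
The master theorem for arbitrary sets of multipliers and every modulus.
-/

set_option autoImplicit false

open Finset Filter Topology

namespace Pool.Agent.H533.QA

open Pool.Agent.H361R2.PP
open Pool.Agent.H20R2.EQI (ev_large)
open Pool.Agent.H533.QM
open Pool.Agent.H533.QS

/-- the primes in the two sets agree -/
theorem Spr_Sc {X q b y : ℕ} (hq : 1 ≤ q) (hy : 1 ≤ y) (hqy : q ∣ y) :
    Spr (Sc X q b) y = Spr (Sk X (Wq X q) b) y := by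
  ext n
  rw [mem_Spr, mem_Spr, mem_Sc, mem_Sk]
  constructor
  · rintro ⟨⟨h1, h2, -⟩, h3⟩
    exact ⟨⟨h1, h2⟩, h3⟩
  · rintro ⟨⟨h1, h2⟩, h3⟩
    refine ⟨⟨h1, h2, ?_⟩, h3⟩
    have h4 : (n + y).Coprime q := by
      rw [Nat.Prime.coprime_iff_not_dvd h3]
      intro h
      have h5 := Nat.le_of_dvd hq h
      have h6 := Nat.le_of_dvd hy hqy
      have h7 : n = 0 := by omega
      have h8 : y = q := by omega
      rw [h7, zero_add, h8] at h3
      have h9 : X = 0 := by omega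
      omega
    obtain ⟨j, rfl⟩ := hqy
    rw [Nat.Coprime, mul_comm, Nat.gcd_add_mul_right_left] at h4
    exact h4

/-- `HH X < X` -/
theorem HH_lt : ∃ X₀ : ℕ, ∀ X : ℕ, X₀ ≤ X → HH X < X := by
  obtain ⟨X7, h7⟩ := Pool.Agent.H325R2.wtx.2 1 one_pos le_rfl
  refine ⟨X7, fun X hX => ?_⟩
  obtain ⟨hw1, -, hw3⟩ := h7 X hX
  have h8 : ((2 ^ 2 ^ JJ 1 X : ℕ) : ℝ) ≤ X := by
    push_cast
    rw [Real.rpow_one] at hw1
    exact hw1
  have h9 : 2 ^ 2 ^ JJ 1 X ≤ X := by exact_mod_cast h8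
  exact lt_of_lt_of_le hw3 h9

theorem not_dvd_Wq {X q p : ℕ} (hp : p.Prime) (hH : HH X < p) : ¬ p ∣ Wq X q := by
  intro h
  unfold Wq at h
  rw [Prime.dvd_finsetProd_iff hp.prime] at h
  obtain ⟨p', h5, h6⟩ := h
  rw [mem_Sm] at h5
  rw [Nat.prime_dvd_prime_iff_eq hp h5.2.1] at h6
  omega

/-- the integers prime to `q`: level of distribution -/
theorem lvlA (K A B : ℕ) (θ : ℝ) (hθ : 0 < θ) (hθ1 : θ ≤ 1 / 32) : ∃ X₀ : ℕ,
    ∀ X : ℕ, X₀ ≤ X → ∀ q : ℕ, 1 ≤ q → q ≤ X → ∀ b : ℕ, b < Wq X q → ∀ PB : Finset ℕ,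
    (∀ a ∈ PB, 1 ≤ a ∧ (a : ℝ) ≤ X * Real.log X ^ B ∧ q ∣ a ∧ (b + a).Coprime (Wq X q)) →
    LevelA K A θ X q PB (Sc X q b) (fr q * (X : ℝ) / Wq X q)
      (fun y => Pry X y / Nat.totient (Wq X q)) := by
  obtain ⟨X1, h1⟩ := eqIntq K A θ hθ hθ1
  obtain ⟨X2, h2⟩ := eqPrimeB K A 0 B θ hθ
  obtain ⟨X3, h3⟩ := Pool.Agent.H96R2.EQP.W_le
  refine ⟨X1 + X2 + X3 + 3, fun X hX q hq hqX b hb PB hPB => ?_⟩
  have hW0 := Wq_pos X q
  have hX0 : 0 < X := by omega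
  have hWL : ((Wq X q : ℕ) : ℝ) ≤ Real.log X ^ (0 + 1) := by
    rw [zero_add, pow_one]
    exact le_trans (by exact_mod_cast Wq_le X q) (h3 X (by omega))
  refine ⟨?_, ?_, ?_, ?_, ?_⟩
  · intro n hn
    exact (mem_Sc.1 hn).1
  · have : (0 : ℝ) < ((Wq X q : ℕ) : ℝ) := by exact_mod_cast hW0
    have hX0r : (0 : ℝ) < X := by exact_mod_cast hX0
    have := fr_pos hq
    positivity
  · intro y
    unfold Pry
    positivity
  · intro P hP
    exact h1 X (by omega) q hq hqX b hb P hP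
  · intro y hy P hP
    obtain ⟨g1, g2, g3, g4⟩ := hPB y hy
    rw [Spr_Sc hq g1 g3]
    exact h2 X (by omega) _ hW0 hWL b hb y g1 g2 g4 P (fun p hp => ⟨(hP p hp).1, (hP p hp).2.2.1,
      not_dvd_Wq (hP p hp).1 (hP p hp).2.1⟩)

/-- at least `m` primes `n + j q` with `j` in at least a quarter of the sets `A i`, and no other prime
`n + j q`, `j ∈ J` -/
def GoodJ {k : ℕ} (m : ℕ) (A : Fin k → Finset ℕ) (J : Finset ℕ) (q n : ℕ) : Prop :=
  k ≤ 4 * ((univ : Finset (Fin k)).filter (fun i => m ≤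
      ((A i).filter (fun j => (n + j * q).Prime)).card)).card ∧
    ∀ j ∈ J, (n + j * q).Prime → ∃ i, j ∈ A i

/-- the multipliers which are admissible for the class `b` -/
noncomputable def adm (X q b : ℕ) (J : Finset ℕ) : Finset ℕ :=
  J.filter (fun j => (b + j * q).Coprime (Wq X q))

theorem mem_adm {X q b j : ℕ} {J : Finset ℕ} :
    j ∈ adm X q b J ↔ j ∈ J ∧ (b + j * q).Coprime (Wq X q) := by
  unfold adm
  rw [mem_filter]

/-- the scale in one class modulo `Wq X q` -/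
noncomputable def lq (X q : ℕ) : ℝ := Ls X q * ((Nat.totient (Wq X q) : ℝ) / Wq X q)

theorem lq_big (M : ℝ) : ∃ X₀ : ℕ, ∀ X : ℕ, X₀ ≤ X → ∀ q : ℕ, 1 ≤ q → q ≤ X → M ≤ lq X q := by
  obtain ⟨X₀, h⟩ := L_big |M|
  refine ⟨X₀, fun X hX q hq hqX => ?_⟩
  have h1 := h X hX q hq hqX
  have hW0 := Wq_pos X q
  have hW : (1 : ℝ) ≤ Wq X q := by exact_mod_cast hW0
  have hφ : (1 : ℝ) ≤ Nat.totient (Wq X q) := by exact_mod_cast Nat.totient_pos.2 hW0
  have hL := Ls_nonneg (X := X) hq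
  unfold lq
  calc M ≤ |M| := le_abs_self M
    _ ≤ |M| * (Wq X q : ℝ) ^ 2 / Wq X q := by
        rw [le_div_iff₀ (by linarith)]
        have : (Wq X q : ℝ) ≤ (Wq X q : ℝ) ^ 2 := by nlinarith
        exact mul_le_mul_of_nonneg_left this (abs_nonneg M)
    _ ≤ Ls X q / Wq X q := div_le_div_of_nonneg_right h1 (by linarith)
    _ = Ls X q * (1 / Wq X q) := by ring
    _ ≤ _ := by
        apply mul_le_mul_of_nonneg_left _ hL
        exact div_le_div_of_nonneg_right hφ (by linarith)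

open Classical in
/-- one class -/
theorem instA1 (k m : ℕ) (ε Λ : ℝ) (hε : 0 < ε) (hεΛ : ε ≤ Λ) :
    ∃ c : ℝ, 0 < c ∧ ∀ B : ℕ, ∃ X₀ : ℕ, ∀ X : ℕ, X₀ ≤ X → ∀ q : ℕ, 1 ≤ q → q ≤ X →
    ∀ J : Finset ℕ, (∀ j ∈ J, 1 ≤ j ∧ (j : ℝ) ≤ Real.log X ^ B) → ∀ b : ℕ, b < Wq X q →
    ((adm X q b J).card : ℝ) ≤ Λ * lq X q →
    ∀ AA : Fin k → Finset ℕ, (∀ i, AA i ⊆ J) → (∀ i, ε * lq X q ≤ ((adm X q b (AA i)).card : ℝ)) →
    c * (fr q * (X : ℝ) / Wq X q) ≤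
      (((Sc X q b).filter (fun n => GoodJ m AA J q n)).card : ℝ) := by
  obtain ⟨K, A, N, θ, s, c, d, hθ, hθ1, hs, hs1, hc, hd, H⟩ := mastA k m ε Λ hε hεΛ
  refine ⟨c, hc, fun B => ?_⟩
  obtain ⟨X1, h1⟩ := H B
  obtain ⟨X2, h2⟩ := lvlA K A B θ hθ hθ1
  obtain ⟨X3, h3⟩ := sep_mul N B d hd
  obtain ⟨X4, h4⟩ := pntB s B hs
  obtain ⟨X5, h5⟩ := HH_lt
  obtain ⟨X6, h6⟩ := lq_big (1 / (s * ε))
  refine ⟨X1 + X2 + X3 + X4 + X5 + X6 + 3, fun X hX q hq hqX J hJ b hb hcJ AA hAJ hcA => ?_⟩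
  have hX1 : 1 ≤ X := by omega
  have hHX := h5 X (by omega)
  have hbig := h6 X (by omega) q hq hqX
  have hW0 := Wq_pos X q
  have hWr : (0 : ℝ) < Wq X q := by exact_mod_cast hW0
  have hφW : (0 : ℝ) < Nat.totient (Wq X q) := by exact_mod_cast Nat.totient_pos.2 hW0
  have hfr := fr_pos hq
  have hlq0 : 0 < lq X q := lt_of_lt_of_le (by positivity) hbig
  have hsl : 1 ≤ s * (ε * lq X q) := by
    rw [div_le_iff₀ (by positivity)] at hbig
    linarith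
  have hinj : Function.Injective (fun j : ℕ => j * q) := fun _ _ h =>
    Nat.eq_of_mul_eq_mul_right hq h
  -- the positions
  obtain ⟨PB, hPB⟩ : ∃ PB, PB = (adm X q b J).image (fun j => j * q) := ⟨_, rfl⟩
  have hmemPB : ∀ a ∈ PB, ∃ j ∈ J, (b + j * q).Coprime (Wq X q) ∧ a = j * q := by
    intro a ha
    rw [hPB, mem_image] at ha
    obtain ⟨j, hj, rfl⟩ := ha
    exact ⟨j, (mem_adm.1 hj).1, (mem_adm.1 hj).2, rfl⟩
  have hsize : ∀ a ∈ PB, 1 ≤ a ∧ (a : ℝ) ≤ X * Real.log X ^ B := by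
    intro a ha
    obtain ⟨j, hj, -, rfl⟩ := hmemPB a ha
    refine ⟨Nat.mul_pos (hJ j hj).1 hq, ?_⟩
    push_cast
    have hqr : (q : ℝ) ≤ X := by exact_mod_cast hqX
    have hlog : 0 ≤ Real.log X := Real.log_natCast_nonneg X
    calc (j : ℝ) * q ≤ Real.log X ^ B * X :=
          mul_le_mul (hJ j hj).2 hqr (Nat.cast_nonneg _) (by positivity)
      _ = _ := mul_comm _ _
  have hcard : (PB.card : ℝ) ≤ (1 + s) * (Λ * lq X q) := by
    rw [hPB, card_image_of_injective _ hinj]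
    have h0 : 0 ≤ Λ * lq X q := le_trans (Nat.cast_nonneg _) hcJ
    nlinarith
  have hSep : Sep N d X q PB := h3 X (by omega) q hq PB (fun a ha => by
    obtain ⟨j, hj, -, rfl⟩ := hmemPB a ha
    exact ⟨j, (hJ j hj).1, (hJ j hj).2, rfl⟩)
  have hlev := h2 X (by omega) q hq hqX b hb PB (fun a ha => by
    obtain ⟨g1, g2⟩ := hsize a ha
    obtain ⟨j, hj, g3, rfl⟩ := hmemPB a ha
    exact ⟨g1, g2, dvd_mul_left _ _, g3⟩)
  have hkey : ∀ a, lq X q * (Pry X a / Nat.totient (Wq X q)) =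
      fr q / Wq X q * (Real.log X * Pry X a) := by
    intro a
    unfold lq Ls
    field_simp
  -- subsets of the right size
  have hsub : ∀ i, ∃ T ⊆ adm X q b (AA i), T.card = ⌈(1 - s) * (ε * lq X q)⌉₊ := by
    intro i
    apply exists_subset_card_eq
    apply Nat.ceil_le.2
    refine le_trans ?_ (hcA i)
    nlinarith [mul_pos hε hlq0]
  choose T hT1 hT2 using hsub
  have hcT : ∀ i, |((((T i).image (fun j => j * q)).card : ℕ) : ℝ) - ε * lq X q| ≤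
      s * (ε * lq X q) := by
    intro i
    rw [card_image_of_injective _ hinj, hT2 i]
    have g1 := Nat.le_ceil ((1 - s) * (ε * lq X q))
    have g2 := Nat.ceil_lt_add_one (show 0 ≤ (1 - s) * (ε * lq X q) from
      mul_nonneg (by linarith) (by positivity))
    rw [abs_le]
    constructor
    · linarith
    · linarith
  have hres := h1 X (by omega) q hq hqX (lq X q) rfl PB hsize hcard hSep (Sc X q b) _ _ hlev
    (fun a ha => by
      have h7 := (h4 X (by omega) a (hsize a ha).2).2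
      rw [hkey]
      calc fr q / Wq X q * (Real.log X * Pry X a) ≤ fr q / Wq X q * ((1 + s) * X) :=
            mul_le_mul_of_nonneg_left h7 (by positivity)
        _ = _ := by ring)
    (fun a ha => by
      have h7 := (h4 X (by omega) a (hsize a ha).2).1
      rw [hkey]
      calc (1 - s) * (fr q * (X : ℝ) / Wq X q) = fr q / Wq X q * ((1 - s) * X) := by ring
        _ ≤ _ := mul_le_mul_of_nonneg_left h7 (by positivity))
    (fun i => (T i).image (fun j => j * q))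
    (fun i a ha => by
      rw [mem_image] at ha
      obtain ⟨j, hj, rfl⟩ := ha
      rw [hPB]
      apply mem_image_of_mem
      have h8 := mem_adm.1 (hT1 i hj)
      exact mem_adm.2 ⟨hAJ i h8.1, h8.2⟩) hcT
  refine hres.trans (Nat.cast_le.2 (card_le_card ?_))
  intro n hn
  rw [mem_filter] at hn ⊢
  obtain ⟨hn1, hn2, hn3⟩ := hn
  refine ⟨hn1, ?_, ?_⟩
  · refine hn2.trans ?_
    apply Nat.mul_le_mul_left
    apply card_le_card
    intro i hi
    rw [mem_filter] at hi ⊢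
    refine ⟨hi.1, hi.2.trans ?_⟩
    have h8 := Np_imageS hq (T i) n
    unfold Np at h8
    rw [h8]
    apply card_le_card
    apply filter_subset_filter
    intro j hj
    exact (mem_adm.1 (hT1 i hj)).1
  · intro j hj hp
    have h9 := mem_Sc.1 hn1
    have h8 : (b + j * q).Coprime (Wq X q) :=
      prime_copS hHX ⟨h9.1.1, h9.1.2, h9.2.1⟩ hp
    obtain ⟨i, hi⟩ := hn3 (j * q) (by
      rw [hPB]
      exact mem_image_of_mem _ (mem_adm.2 ⟨hj, h8⟩)) hp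
    rw [mem_image] at hi
    obtain ⟨j', hj', h10⟩ := hi
    have h11 : j' = j := hinj h10
    rw [← h11]
    exact ⟨i, (mem_adm.1 (hT1 i hj')).1⟩

open Classical in
/-- **Arbitrary sets of multipliers, every modulus**: the classes `b` modulo `Wq X q` for which the
sets have the right size -/
theorem instA (k m : ℕ) (ε Λ : ℝ) (hε : 0 < ε) (hεΛ : ε ≤ Λ) :
    ∃ c : ℝ, 0 < c ∧ ∀ B : ℕ, ∃ X₀ : ℕ, ∀ X : ℕ, X₀ ≤ X → ∀ q : ℕ, 1 ≤ q → q ≤ X →
    ∀ J : Finset ℕ, (∀ j ∈ J, 1 ≤ j ∧ (j : ℝ) ≤ Real.log X ^ B) →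
    ∀ AA : Fin k → Finset ℕ, (∀ i, AA i ⊆ J) →
    c * (fr q * (X : ℝ) / Wq X q) * (((range (Wq X q)).filter (fun b =>
      ((adm X q b J).card : ℝ) ≤ Λ * lq X q ∧
      ∀ i, ε * lq X q ≤ ((adm X q b (AA i)).card : ℝ))).card : ℝ) ≤
      (((Ico X (2 * X)).filter (fun n => n.Coprime q ∧ GoodJ m AA J q n)).card : ℝ) := by
  obtain ⟨c, hc, H⟩ := instA1 k m ε Λ hε hεΛ
  refine ⟨c, hc, fun B => ?_⟩
  obtain ⟨X₀, h⟩ := H B
  refine ⟨X₀, fun X hX q hq hqX J hJ AA hAJ => ?_⟩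
  have hW0 := Wq_pos X q
  obtain ⟨G, hG⟩ : ∃ G, G = (range (Wq X q)).filter (fun b =>
      ((adm X q b J).card : ℝ) ≤ Λ * lq X q ∧
      ∀ i, ε * lq X q ≤ ((adm X q b (AA i)).card : ℝ)) := ⟨_, rfl⟩
  rw [← hG]
  obtain ⟨F, hF⟩ : ∃ F, F = (Ico X (2 * X)).filter (fun n => n.Coprime q ∧ GoodJ m AA J q n) :=
    ⟨_, rfl⟩
  rw [← hF]
  have h1 : ∑ b ∈ G, ((F.filter (fun n => n % Wq X q = b)).card : ℝ) ≤ F.card := by
    have h2 := Finset.sum_card_fiberwise_eq_card_filter F G (fun n => n % Wq X q)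
    have h3 := card_filter_le F (fun n => n % Wq X q ∈ G)
    rw [← h2] at h3
    exact_mod_cast h3
  refine le_trans ?_ h1
  rw [mul_comm, ← nsmul_eq_mul, ← sum_const]
  apply sum_le_sum
  intro b hb
  rw [hG, mem_filter, mem_range] at hb
  refine (h X hX q hq hqX J hJ b hb.1 hb.2.1 AA hAJ hb.2.2).trans
    (Nat.cast_le.2 (card_le_card ?_))
  intro n hn
  rw [mem_filter, mem_Sc] at hn
  rw [hF, mem_filter, mem_filter, mem_Ico]
  exact ⟨⟨hn.1.1, hn.1.2.2, hn.2⟩, hn.1.2.1⟩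

end Pool.Agent.H533.QA
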