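import Pool.Agent.H533.QA.Gold2

/-!
Goldbach representations: windows on the scale `log N log log N`.
-/

set_option autoImplicit false

open Finset Filter Topology

namespace Pool.Agent.H533.QA

open Pool.Agent.H361R2.PP
open Pool.Agent.H533.QM

/-- `log X log log X` -/
noncomputable def L2 (X : ℕ) : ℝ := Real.log X * Real.log (Real.log X)

theorem primes_window (a b : ℝ) (ha : 0 < a) (hab : a < b) : ∃ X₀ : ℕ, ∀ X : ℕ, X₀ ≤ X →
    (b - a) / 2 * Real.log X ≤
      (((Ioc ⌊a * L2 X⌋₊ ⌊b * L2 X⌋₊).filter Nat.Prime).card : ℝ) := by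
  have hb : 0 < b := ha.trans hab
  obtain ⟨s, hs⟩ : ∃ s : ℝ, s = (b - a) / (8 * (a + b)) := ⟨_, rfl⟩
  have hs0 : 0 < s := by
    rw [hs]
    have : 0 < b - a := by linarith
    positivity
  have hs1 : s ≤ 1 / 8 := by
    rw [hs, div_le_div_iff₀ (by positivity) (by norm_num)]
    linarith
  have hsb : 4 * s * (a + b) = (b - a) / 2 := by
    rw [hs]
    field_simp
    ring
  have t1 : Tendsto (fun X : ℕ => Real.log (X : ℝ)) atTop atTop :=
    Real.tendsto_log_atTop.comp tendsto_natCast_atTop_atTop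
  have t2 : Tendsto (fun X : ℕ => Real.log (Real.log (X : ℝ))) atTop atTop :=
    Real.tendsto_log_atTop.comp t1
  have t3 : Tendsto L2 atTop atTop := t1.atTop_mul_atTop₀ t2
  have hpi : ∀ r : ℝ, 0 < r → ∀ᶠ X : ℕ in atTop, 1 - s ≤ (Nat.primeCounting ⌊r * L2 X⌋₊ : ℝ) *
      Real.log (r * L2 X) / (r * L2 X) ∧ (Nat.primeCounting ⌊r * L2 X⌋₊ : ℝ) *
      Real.log (r * L2 X) / (r * L2 X) ≤ 1 + s := by
    intro r hr
    have h1 := Pool.Agent.Helper923.PNT.pi_tendsto.comp (t3.const_mul_atTop hr)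
    have h2 := h1.eventually (Icc_mem_nhds (show 1 - s < 1 by linarith) (show 1 < 1 + s by linarith))
    filter_upwards [h2] with X hX
    exact ⟨hX.1, hX.2⟩
  -- the logarithm of the scale
  have hlg : ∀ r : ℝ, 0 < r → ∀ᶠ X : ℕ in atTop,
      (1 - s) * Real.log (Real.log X) ≤ Real.log (r * L2 X) ∧
      Real.log (r * L2 X) ≤ (1 + s) * Real.log (Real.log X) := by
    intro r hr
    have e1 : ∀ᶠ x : ℝ in atTop, Real.log x ≤ s / 2 * x := by
      have := Real.isLittleO_log_id_atTop.bound (c := s / 2) (by positivity)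
      filter_upwards [this, eventually_ge_atTop (1 : ℝ)] with x hx hx1
      rw [Real.norm_eq_abs, id, Real.norm_eq_abs] at hx
      have h2 := (le_abs_self _).trans hx
      rwa [abs_of_nonneg (by linarith : (0 : ℝ) ≤ x)] at h2
    filter_upwards [t2.eventually e1, t2.eventually_ge_atTop (2 * |Real.log r| / s + 1),
      t1.eventually_ge_atTop 1] with X h1 h2 h3
    obtain ⟨l, hl⟩ : ∃ l, l = Real.log X := ⟨_, rfl⟩
    obtain ⟨ll, hll⟩ : ∃ ll, ll = Real.log l := ⟨_, rfl⟩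
    rw [← hl, ← hll] at h1 h2
    rw [← hl] at h3
    have h4 : 0 ≤ 2 * |Real.log r| / s := by positivity
    have h5 : 1 ≤ ll := by linarith
    have h6 : 2 * |Real.log r| / s ≤ ll := by linarith
    rw [div_le_iff₀ hs0] at h6
    have h7 : Real.log (r * L2 X) = Real.log r + (ll + Real.log ll) := by
      unfold L2
      rw [← hl, ← hll, Real.log_mul hr.ne' (by positivity), Real.log_mul (by positivity)
        (by positivity), ← hll]
    rw [h7, ← hl, ← hll]
    have h8 := abs_le.1 (le_refl |Real.log r|)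
    have h9 : 0 ≤ Real.log ll := Real.log_nonneg h5
    constructor
    · linarith [h8.1]
    · linarith [h8.2]
  obtain ⟨X₀, h⟩ := eventually_atTop.1 ((hpi a ha).and ((hpi b hb).and ((hlg a ha).and
    ((hlg b hb).and ((t2.eventually_ge_atTop 1).and (t1.eventually_ge_atTop 1))))))
  refine ⟨X₀, fun X hX => ?_⟩
  obtain ⟨⟨-, ha2⟩, ⟨hb1, -⟩, ⟨la1, -⟩, ⟨-, lb2⟩, hll, hl⟩ := h X hX
  obtain ⟨l, hld⟩ : ∃ l, l = Real.log X := ⟨_, rfl⟩
  obtain ⟨ll, hlld⟩ : ∃ ll, ll = Real.log (Real.log X) := ⟨_, rfl⟩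
  rw [← hlld] at la1 lb2 hll
  rw [← hld] at hl
  have hL : L2 X = l * ll := by unfold L2; rw [hld, hlld]
  have hL0 : 0 < L2 X := by rw [hL]; positivity
  have hloga : 0 < Real.log (a * L2 X) := lt_of_lt_of_le (by nlinarith) la1
  have hlogb : 0 < Real.log (b * L2 X) := by
    have := Real.log_lt_log (by positivity) (mul_lt_mul_of_pos_right hab hL0)
    linarith
  rw [div_le_iff₀ (by positivity)] at ha2
  rw [le_div_iff₀ (by positivity)] at hb1
  -- upper bound for `a`, lower bound for `b`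
  have hA : (Nat.primeCounting ⌊a * L2 X⌋₊ : ℝ) ≤ a * (1 + 4 * s) * l := by
    have h1 : (Nat.primeCounting ⌊a * L2 X⌋₊ : ℝ) * ((1 - s) * ll) ≤ (1 + s) * (a * L2 X) :=
      (mul_le_mul_of_nonneg_left la1 (Nat.cast_nonneg _)).trans ha2
    rw [hL] at h1
    have h2 : (1 + s) ≤ (1 + 4 * s) * (1 - s) := by nlinarith
    have h3 : ((1 - s) * ll) * (Nat.primeCounting ⌊a * L2 X⌋₊ : ℝ) ≤
        ((1 - s) * ll) * (a * (1 + 4 * s) * l) := by
      have h4 : (1 + s) * (a * (l * ll)) ≤ (1 + 4 * s) * (1 - s) * (a * (l * ll)) :=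
        mul_le_mul_of_nonneg_right h2 (by positivity)
      rw [hL]
      nlinarith
    exact le_of_mul_le_mul_left h3 (mul_pos (by linarith) (by linarith))
  have hB : b * (1 - 2 * s) * l ≤ (Nat.primeCounting ⌊b * L2 X⌋₊ : ℝ) := by
    have h1 : (1 - s) * (b * L2 X) ≤ (Nat.primeCounting ⌊b * L2 X⌋₊ : ℝ) * ((1 + s) * ll) :=
      hb1.trans (mul_le_mul_of_nonneg_left lb2 (Nat.cast_nonneg _))
    rw [hL] at h1
    have h2 : (1 - 2 * s) * (1 + s) ≤ 1 - s := by nlinarith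
    have h3 : ((1 + s) * ll) * (b * (1 - 2 * s) * l) ≤
        ((1 + s) * ll) * (Nat.primeCounting ⌊b * L2 X⌋₊ : ℝ) := by
      have h4 : (1 - 2 * s) * (1 + s) * (b * (l * ll)) ≤ (1 - s) * (b * (l * ll)) :=
        mul_le_mul_of_nonneg_right h2 (by positivity)
      rw [hL]
      nlinarith
    exact le_of_mul_le_mul_left h3 (mul_pos (by linarith) (by linarith))
  have hcard : Nat.primeCounting ⌊b * L2 X⌋₊ ≤ Nat.primeCounting ⌊a * L2 X⌋₊ +
      ((Ioc ⌊a * L2 X⌋₊ ⌊b * L2 X⌋₊).filter Nat.Prime).card := by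
    have hpc : ∀ n : ℕ, Nat.primeCounting n = ((range (n + 1)).filter Nat.Prime).card := by
      intro n
      rw [Nat.primeCounting, Nat.primeCounting', Nat.count_eq_card_filter_range]
    rw [hpc, hpc]
    refine le_trans (card_le_card ?_) (card_union_le _ _)
    intro p hp
    rw [mem_filter, mem_range] at hp
    rw [mem_union, mem_filter, mem_range, mem_filter, mem_Ioc]
    rcases Nat.lt_or_ge p (⌊a * L2 X⌋₊ + 1) with h1 | h1
    · exact Or.inl ⟨h1, hp.2⟩
    · exact Or.inr ⟨⟨by omega, by omega⟩, hp.2⟩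
  have hcr : (Nat.primeCounting ⌊b * L2 X⌋₊ : ℝ) ≤ Nat.primeCounting ⌊a * L2 X⌋₊ +
      (((Ioc ⌊a * L2 X⌋₊ ⌊b * L2 X⌋₊).filter Nat.Prime).card : ℝ) := by exact_mod_cast hcard
  rw [← hld]
  have hl0 : 0 < l := by linarith
  have h5 : (b - a) / 2 * l ≤ b * (1 - 2 * s) * l - a * (1 + 4 * s) * l := by
    have h6 : (b - a) / 2 ≤ b * (1 - 2 * s) - a * (1 + 4 * s) := by nlinarith
    nlinarith
  linarith

/-- comparison of the scales at `X` and at `N` -/
theorem scale_cmp (η : ℝ) (hη : 0 < η) : ∃ X₀ : ℕ, ∀ X : ℕ, X₀ ≤ X → 0 < L2 X ∧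
    ∀ N : ℕ, X ≤ N → N < 2 * X → L2 X ≤ L2 N ∧ L2 N ≤ (1 + η) * L2 X := by
  have t1 : Tendsto (fun X : ℕ => Real.log (X : ℝ)) atTop atTop :=
    Real.tendsto_log_atTop.comp tendsto_natCast_atTop_atTop
  have t2 : Tendsto (fun X : ℕ => Real.log (Real.log (X : ℝ))) atTop atTop :=
    Real.tendsto_log_atTop.comp t1
  obtain ⟨X₀, h⟩ := eventually_atTop.1 ((t1.eventually_ge_atTop (4 / η + 2)).and
    ((t2.eventually_ge_atTop (4 / η + 2)).and (eventually_ge_atTop 2)))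
  refine ⟨X₀, fun X hX => ?_⟩
  obtain ⟨h1, h2, h3⟩ := h X hX
  have hη' : 0 < 4 / η := by positivity
  obtain ⟨l, hl⟩ : ∃ l, l = Real.log X := ⟨_, rfl⟩
  obtain ⟨ll, hll⟩ : ∃ ll, ll = Real.log l := ⟨_, rfl⟩
  rw [← hl] at h1
  rw [← hl, ← hll] at h2
  have hL : L2 X = l * ll := by unfold L2; rw [← hl, ← hll]
  have hl0 : 0 < l := by linarith
  have hll0 : 0 < ll := by linarith
  refine ⟨by rw [hL]; positivity, fun N hN1 hN2 => ?_⟩
  have hX0 : (0 : ℝ) < X := by exact_mod_cast (by omega : 0 < X)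
  have g1 : (X : ℝ) ≤ N := by exact_mod_cast hN1
  have g2 : (N : ℝ) ≤ 2 * X := by exact_mod_cast hN2.le
  have g3 : l ≤ Real.log N := by rw [hl]; exact Real.log_le_log hX0 g1
  have g4 : Real.log N ≤ l + 1 := by
    have h5 := Real.log_le_log (by linarith) g2
    rw [Real.log_mul (by norm_num) hX0.ne', ← hl] at h5
    have := Real.log_two_lt_d9
    linarith
  have g5 : ll ≤ Real.log (Real.log N) := by rw [hll]; exact Real.log_le_log hl0 g3
  have g6 : Real.log (Real.log N) ≤ ll + 1 := by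
    have h5 : Real.log N ≤ l * Real.exp 1 := by
      have : (2 : ℝ) ≤ Real.exp 1 := by
        have := Real.add_one_le_exp (1 : ℝ)
        linarith
      nlinarith
    have h6 := Real.log_le_log (by linarith) h5
    rw [Real.log_mul hl0.ne' (Real.exp_pos 1).ne', Real.log_exp, ← hll] at h6
    exact h6
  have hLN : L2 N = Real.log N * Real.log (Real.log N) := rfl
  rw [hLN, hL]
  constructor
  · exact mul_le_mul g3 g5 hll0.le (by linarith)
  · calc Real.log N * Real.log (Real.log N) ≤ (l + 1) * (ll + 1) :=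
          mul_le_mul g4 g6 (by linarith) (by linarith)
      _ ≤ _ := by
          have h5 : 4 ≤ η * l := by
            have : 4 / η ≤ l := by linarith
            rw [div_le_iff₀ hη] at this
            linarith
          have h6 : 4 ≤ η * ll := by
            have : 4 / η ≤ ll := by linarith
            rw [div_le_iff₀ hη] at this
            linarith
          have h7 : 2 ≤ ll := by linarith
          have h8 : 2 ≤ l := by linarith
          nlinarith

open Classical in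
/-- windows for the small prime -/
theorem goldW (m : ℕ) (α β Λ : ℝ) (hα : 0 ≤ α) (hαβ : α < β) (hβΛ : β ≤ Λ) :
    ∃ c : ℝ, 0 < c ∧ ∃ X₀ : ℕ, ∀ X : ℕ, X₀ ≤ X →
    c * X ≤ (((Ico X (2 * X)).filter (fun N => Even N ∧
        m ≤ ((Ioc ⌊α * L2 N⌋₊ ⌊β * L2 N⌋₊).filter (fun p => p.Prime ∧ (N - p).Prime)).card ∧
        ∀ p : ℕ, p.Prime → (p : ℝ) ≤ Λ * L2 N → (N - p).Prime →
          α * L2 N < p ∧ (p : ℝ) ≤ β * L2 N)).card : ℝ) := by
  have hβ : 0 < β := lt_of_le_of_lt hα hαβ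
  have hΛ : 0 < Λ := lt_of_lt_of_le hβ hβΛ
  obtain ⟨a, ha⟩ : ∃ a : ℝ, a = (2 * α + β) / 3 := ⟨_, rfl⟩
  obtain ⟨b, hb⟩ : ∃ b : ℝ, b = (α + 2 * β) / 3 := ⟨_, rfl⟩
  have ha0 : 0 < a := by rw [ha]; linarith
  have hab : a < b := by rw [ha, hb]; linarith
  obtain ⟨η, hη⟩ : ∃ η : ℝ, η = min ((β - α) / (3 * (α + 1))) (1 / Λ) := ⟨_, rfl⟩
  have hη0 : 0 < η := by
    rw [hη]
    apply lt_min
    · have : 0 < β - α := by linarith
      positivity
    · positivity
  have hη1 : α * (1 + η) ≤ a := by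
    have h1 : η ≤ (β - α) / (3 * (α + 1)) := by rw [hη]; exact min_le_left _ _
    rw [le_div_iff₀ (by positivity)] at h1
    rw [ha]
    nlinarith
  have hη2 : Λ * (1 + η) ≤ Λ + 1 := by
    have h1 : η ≤ 1 / Λ := by rw [hη]; exact min_le_right _ _
    rw [le_div_iff₀ hΛ] at h1
    linarith
  obtain ⟨c, hc, X1, h1⟩ := goldS m ((b - a) / 2) (Λ + 1) (by linarith) (by linarith)
  obtain ⟨X2, h2⟩ := primes_window a b ha0 hab
  obtain ⟨X3, h3⟩ := scale_cmp η hη0
  refine ⟨c, hc, X1 + X2 + X3, fun X hX => ?_⟩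
  obtain ⟨hL0, hcmp⟩ := h3 X (by omega)
  have hLd : L2 X = Real.log X * Real.log (Real.log X) := rfl
  refine (h1 X (by omega) ((Ioc ⌊a * L2 X⌋₊ ⌊b * L2 X⌋₊).filter Nat.Prime) (fun p hp => by
    rw [mem_filter, mem_Ioc] at hp
    refine ⟨hp.2, ?_⟩
    have h4 : (p : ℝ) ≤ b * L2 X := (Nat.le_floor_iff (by
      have : 0 < b := ha0.trans hab
      positivity)).1 hp.1.2
    rw [← hLd]
    refine h4.trans (mul_le_mul_of_nonneg_right ?_ hL0.le)
    rw [hb]
    linarith) (h2 X (by omega))).trans (Nat.cast_le.2 (card_le_card ?_))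
  intro N hN
  rw [mem_filter, mem_Ico] at hN ⊢
  obtain ⟨hN1, hN2, hN3, hN4⟩ := hN
  obtain ⟨g1, g2⟩ := hcmp N hN1.1 hN1.2
  have hwin : ∀ p : ℕ, p ∈ (Ioc ⌊a * L2 X⌋₊ ⌊b * L2 X⌋₊).filter Nat.Prime →
      α * L2 N < p ∧ (p : ℝ) ≤ β * L2 N := by
    intro p hp
    rw [mem_filter, mem_Ioc] at hp
    have h4 : a * L2 X < p := Nat.lt_of_floor_lt hp.1.1
    have h5 : (p : ℝ) ≤ b * L2 X := (Nat.le_floor_iff (by
      have : 0 < b := ha0.trans hab
      positivity)).1 hp.1.2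
    constructor
    · calc α * L2 N ≤ α * ((1 + η) * L2 X) := mul_le_mul_of_nonneg_left g2 hα
        _ = α * (1 + η) * L2 X := by ring
        _ ≤ a * L2 X := mul_le_mul_of_nonneg_right hη1 hL0.le
        _ < p := h4
    · calc (p : ℝ) ≤ b * L2 X := h5
        _ ≤ β * L2 X := mul_le_mul_of_nonneg_right (by rw [hb]; linarith) hL0.le
        _ ≤ _ := mul_le_mul_of_nonneg_left g1 hβ.le
  refine ⟨hN1, hN2, ?_, ?_⟩
  · refine hN3.trans (card_le_card ?_)
    intro p hp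
    rw [mem_filter] at hp
    obtain ⟨h4, h5⟩ := hwin p hp.1
    have h6 := (mem_filter.1 hp.1).2
    rw [mem_filter, mem_Ioc]
    refine ⟨⟨?_, Nat.le_floor h5⟩, h6, hp.2⟩
    exact (Nat.floor_lt (mul_nonneg hα (hL0.le.trans g1))).2 h4
  · intro p hp hpΛ hpp
    apply hwin
    apply hN4 p hp _ hpp
    rw [← hLd]
    calc (p : ℝ) ≤ Λ * L2 N := hpΛ
      _ ≤ Λ * ((1 + η) * L2 X) := mul_le_mul_of_nonneg_left g2 hΛ.le
      _ = Λ * (1 + η) * L2 X := by ring
      _ ≤ _ := mul_le_mul_of_nonneg_right hη2 hL0.le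

end Pool.Agent.H533.QA
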