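import Pool.Agent.H533.QA.Base

/-!
The integers `n` of a residue class with `n + y` prime, `y ≤ X (log X) ^ B` (Bombieri-Vinogradov).
-/

set_option autoImplicit false

open Finset Filter Topology

namespace Pool.Agent.H533.QA

open Pool.Agent.H361R2.PP
open Pool.Agent.H96R2.EQP
open Pool.Agent.H398R2.BV
open Pool.Agent.H20R2.EQI
open Pool.Agent.H533.QM
open Pool.Agent.H533.QS

theorem eqPrimeB (K A E B₁ : ℕ) (θ : ℝ) (hθ : 0 < θ) : ∃ X₀ : ℕ, ∀ X : ℕ, X₀ ≤ X →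
    ∀ W : ℕ, 0 < W → (W : ℝ) ≤ Real.log X ^ (E + 1) → ∀ b : ℕ, b < W → ∀ y : ℕ, 1 ≤ y →
    (y : ℝ) ≤ X * Real.log X ^ B₁ → (b + y).Coprime W → ∀ P : Finset ℕ,
    (∀ p ∈ P, p.Prime ∧ p ≤ X ∧ ¬ p ∣ W) → ∃ Er : Finset ℕ → ℝ,
      Eqd (some y) P (Spr (Sk X W b) y) (Pry X y / Nat.totient W) Er ∧
      ∑ D ∈ P.powerset.filter (fun D : Finset ℕ => ∏ p ∈ D, (p : ℝ) ≤ (X : ℝ) ^ (1 / 2 - θ)),
        (K : ℝ) ^ D.card * Er D ≤ Pry X y / Nat.totient W / Real.log X ^ A := by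
  obtain ⟨B, x0, hB⟩ := weighted ((K : ℝ) + 1)
    (by have : (0:ℝ) ≤ K := Nat.cast_nonneg _; linarith) (A + E + 6 + B₁)
  obtain ⟨X1, hX1⟩ := pntB (1 / 2) B₁ (by norm_num)
  -- eventual conditions
  have e1 : ∀ᶠ X : ℝ in atTop, (2 : ℝ) ^ B * Real.log X ^ (B + 2 * (E + 1)) ≤ X ^ θ :=
    ev_log _ _ θ hθ
  have e3 : ∀ᶠ X : ℝ in atTop, (1 : ℝ) * Real.log X ^ (E + 2 + B₁) ≤ X ^ (1 / 2 : ℝ) :=
    ev_log _ _ (1 / 2) (by norm_num)
  have e4 : ∀ᶠ X : ℝ in atTop, (20 : ℝ) ≤ Real.log X :=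
    Real.tendsto_log_atTop.eventually (eventually_ge_atTop _)
  have e5 : ∀ᶠ X : ℝ in atTop, (3 : ℝ) ≤ X := eventually_ge_atTop 3
  obtain ⟨Y, hY⟩ := eventually_atTop.mp (e1.and (e3.and (e4.and e5)))
  refine ⟨max X1 (max x0 ⌈Y⌉₊), fun X hX W hW0 hW b hb y hy1 hyX hba P hP => ?_⟩
  have hXX1 : X1 ≤ X := (le_max_left _ _).trans hX
  have hXx0 : x0 ≤ X := ((le_max_left _ _).trans (le_max_right _ _)).trans hX
  have hXY : ⌈Y⌉₊ ≤ X := ((le_max_right _ _).trans (le_max_right _ _)).trans hX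
  have hXYr : Y ≤ X := (Nat.le_ceil _).trans (by exact_mod_cast hXY)
  obtain ⟨g1, g3, g4, g5⟩ := hY X hXYr
  have hPr := (hX1 X hXX1 y hyX).1
  have hX0 : (0 : ℝ) < X := by linarith
  have hXn : 1 ≤ X := by
    have : (1 : ℝ) ≤ X := by linarith
    exact_mod_cast this
  obtain ⟨ℓ, hℓ⟩ : ∃ ℓ : ℝ, ℓ = Real.log X := ⟨_, rfl⟩
  rw [← hℓ] at g1 g3 g4 hPr hW hyX ⊢
  have hℓ0 : 0 < ℓ := by linarith
  rw [one_mul] at g3
  have hX12 : (X : ℝ) ^ (1 / 2 : ℝ) * (X : ℝ) ^ (1 / 2 : ℝ) = X := by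
    rw [← Real.rpow_add hX0]; norm_num
  have hX12' : (1 : ℝ) ≤ (X : ℝ) ^ (1 / 2 : ℝ) := Real.one_le_rpow (by linarith) (by norm_num)
  have hℓ1 : 1 ≤ ℓ := by linarith
  have hg3 : ℓ ^ (B₁ + 2) ≤ (X : ℝ) ^ (1 / 2 : ℝ) := by
    refine le_trans ?_ g3
    exact pow_le_pow_right₀ hℓ1 (by omega)
  have hℓ2 : ℓ ^ (B₁ + 2) ≤ X := by nlinarith
  have hℓB1 : (1 : ℝ) ≤ ℓ ^ B₁ := one_le_pow₀ hℓ1
  have hW0r : (0 : ℝ) < W := by exact_mod_cast hW0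
  -- the two endpoints
  obtain ⟨x1, hx1⟩ : ∃ x1 : ℕ, x1 = X + y - 1 := ⟨_, rfl⟩
  obtain ⟨x2, hx2⟩ : ∃ x2 : ℕ, x2 = 2 * X + y - 1 := ⟨_, rfl⟩
  have hx1a : X ≤ x1 := by omega
  have hx2a : X ≤ x2 := by omega
  have hx1b : x1 ≤ 2 * X + y := by omega
  have hx2b : x2 ≤ 2 * X + y := by omega
  have hup : ∀ x : ℕ, x ≤ 2 * X + y → (x : ℝ) ≤ X * ℓ ^ (B₁ + 2) := by
    intro x hx
    have h1 : (x : ℝ) ≤ 2 * X + y := by exact_mod_cast hx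
    have h2 : (2 : ℝ) * X + X * ℓ ^ B₁ ≤ X * ℓ ^ (B₁ + 2) := by
      have h3 : 2 + ℓ ^ B₁ ≤ ℓ ^ (B₁ + 2) := by
        rw [pow_add]
        have h4 : (4 : ℝ) ≤ ℓ ^ 2 := by nlinarith
        have h5 : ℓ ^ B₁ * 4 ≤ ℓ ^ B₁ * ℓ ^ 2 := mul_le_mul_of_nonneg_left h4 (by linarith)
        linarith
      have h4 := mul_le_mul_of_nonneg_left h3 hX0.le
      linarith
    linarith
  obtain ⟨M1, hM10, hM1, hM1s⟩ := hB x1 (hXx0.trans hx1a)
  obtain ⟨M2, hM20, hM2, hM2s⟩ := hB x2 (hXx0.trans hx2a)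
  have hlogx : ∀ x : ℕ, X ≤ x → x ≤ 2 * X + y → ℓ ≤ Real.log x ∧ Real.log x ≤ 2 * ℓ := by
    intro x h1 h2
    have h1r : (X : ℝ) ≤ x := by exact_mod_cast h1
    have h2r := hup x h2
    constructor
    · rw [hℓ]; exact Real.log_le_log hX0 h1r
    · have : (x : ℝ) ≤ X ^ 2 := by nlinarith
      calc Real.log x ≤ Real.log ((X : ℝ) ^ 2) := Real.log_le_log (by linarith) this
        _ = 2 * ℓ := by rw [Real.log_pow, hℓ]; norm_num
  -- the modulus is small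
  have hqX : ∀ D : Finset ℕ, (∏ p ∈ D, (p : ℝ)) ≤ (X : ℝ) ^ (1 / 2 - θ) →
      (((W * ∏ p ∈ D, p : ℕ) : ℝ)) ≤ ℓ ^ (E + 1) * (X : ℝ) ^ (1 / 2 - θ) := by
    intro D hD
    push_cast
    have h0 : (0 : ℝ) ≤ ∏ p ∈ D, (p : ℝ) := prod_nonneg fun _ _ => Nat.cast_nonneg _
    exact mul_le_mul hW hD h0 (by positivity)
  have hqle : ∀ D : Finset ℕ, (∏ p ∈ D, (p : ℝ)) ≤ (X : ℝ) ^ (1 / 2 - θ) → W * ∏ p ∈ D, p ≤ X := by
    intro D hD
    have h1 := hqX D hD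
    have h2 : (X : ℝ) ^ (1 / 2 - θ) ≤ (X : ℝ) ^ (1 / 2 : ℝ) :=
      Real.rpow_le_rpow_of_exponent_le (by linarith) (by linarith)
    have h3 : ℓ ^ (E + 1) ≤ (X : ℝ) ^ (1 / 2 : ℝ) := by
      refine le_trans ?_ g3
      exact pow_le_pow_right₀ hℓ1 (by omega)
    have h4 : (((W * ∏ p ∈ D, p : ℕ) : ℝ)) ≤ X := by
      calc (((W * ∏ p ∈ D, p : ℕ) : ℝ)) ≤ ℓ ^ (E + 1) * (X : ℝ) ^ (1 / 2 - θ) := h1
        _ ≤ (X : ℝ) ^ (1 / 2 : ℝ) * (X : ℝ) ^ (1 / 2 : ℝ) :=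
          mul_le_mul h3 h2 (by positivity) (by positivity)
        _ = X := hX12
    exact_mod_cast h4
  have hqsq : ∀ D : Finset ℕ, (∏ p ∈ D, (p : ℝ)) ≤ (X : ℝ) ^ (1 / 2 - θ) → ∀ x : ℕ, X ≤ x →
      x ≤ 2 * X + y → Real.log x ^ B * (((W * ∏ p ∈ D, p : ℕ) : ℝ)) ^ 2 < x := by
    intro D hD x hxa hxb
    obtain ⟨l1, l2⟩ := hlogx x hxa hxb
    have h1 := hqX D hD
    have h2 : (((W * ∏ p ∈ D, p : ℕ) : ℝ)) ^ 2 ≤ (ℓ ^ (E + 1) * (X : ℝ) ^ (1 / 2 - θ)) ^ 2 :=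
      pow_le_pow_left₀ (Nat.cast_nonneg _) h1 2
    have h3 : Real.log x ^ B ≤ (2 * ℓ) ^ B := pow_le_pow_left₀ (by linarith) l2 B
    have h4 : ((X : ℝ) ^ (1 / 2 - θ)) ^ 2 = X * ((X : ℝ) ^ (- (2 * θ))) := by
      rw [← Real.rpow_natCast, ← Real.rpow_mul hX0.le]
      rw [show (1 / 2 - θ) * ((2 : ℕ) : ℝ) = 1 + (-(2 * θ)) by push_cast; ring, Real.rpow_add hX0,
        Real.rpow_one]
    have h5 : (2 * ℓ) ^ B * (ℓ ^ (E + 1) * (X : ℝ) ^ (1 / 2 - θ)) ^ 2 =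
        (2 ^ B * ℓ ^ (B + 2 * (E + 1))) * ((X : ℝ) ^ (- (2 * θ))) * X := by
      rw [mul_pow (ℓ ^ (E + 1)), h4, mul_pow 2 ℓ, ← pow_mul, pow_add ℓ B, mul_comm 2 (E + 1)]
      ring
    have h6 : (2 ^ B * ℓ ^ (B + 2 * (E + 1))) * ((X : ℝ) ^ (- (2 * θ))) ≤ (X : ℝ) ^ (-θ) := by
      calc (2 ^ B * ℓ ^ (B + 2 * (E + 1))) * ((X : ℝ) ^ (- (2 * θ))) ≤ (X : ℝ) ^ θ * ((X : ℝ) ^ (- (2 * θ))) :=
            mul_le_mul_of_nonneg_right g1 (by positivity)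
        _ = (X : ℝ) ^ (-θ) := by
            rw [← Real.rpow_add hX0]; congr 1; ring
    have h7 : (X : ℝ) ^ (-θ) < 1 := Real.rpow_lt_one_of_one_lt_of_neg (by linarith) (by linarith)
    calc Real.log x ^ B * (((W * ∏ p ∈ D, p : ℕ) : ℝ)) ^ 2
        ≤ (2 * ℓ) ^ B * (ℓ ^ (E + 1) * (X : ℝ) ^ (1 / 2 - θ)) ^ 2 :=
          mul_le_mul h3 h2 (by positivity) (by positivity)
      _ = (2 ^ B * ℓ ^ (B + 2 * (E + 1))) * ((X : ℝ) ^ (- (2 * θ))) * X := h5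
      _ ≤ (X : ℝ) ^ (-θ) * X := mul_le_mul_of_nonneg_right h6 hX0.le
      _ < 1 * X := mul_lt_mul_of_pos_right h7 hX0
      _ = X := one_mul _
      _ ≤ x := by exact_mod_cast hxa
  -- the error
  have hPr0 : 0 ≤ Pry X y := by unfold Pry; positivity
  have hφW : (0 : ℝ) < Nat.totient W := by exact_mod_cast Nat.totient_pos.mpr hW0
  have hΩ0 : 0 ≤ Pry X y / Nat.totient W := by positivity
  obtain ⟨Er, hEr⟩ : ∃ Er : Finset ℕ → ℝ, Er = fun D : Finset ℕ =>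
      if (∏ p ∈ D, (p : ℝ)) ≤ (X : ℝ) ^ (1 / 2 - θ) then
        M2 (W * ∏ p ∈ D, p : ℕ) + M1 (W * ∏ p ∈ D, p : ℕ)
      else (X : ℝ) + Pry X y / Nat.totient W := ⟨_, rfl⟩
  refine ⟨Er, ⟨?_, ?_, ?_⟩, ?_⟩
  · -- no prime of `P` divides
    intro n hn p hp a ha
    rw [Option.mem_def, Option.some.injEq] at ha
    subst ha
    rw [mem_Spr, mem_Sk] at hn
    obtain ⟨hpp, hpX, _⟩ := hP p hp
    intro hdvd
    have := (Nat.prime_dvd_prime_iff_eq hpp hn.2).mp hdvd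
    omega
  · intro D
    rw [hEr]
    beta_reduce
    split_ifs
    · have := hM10 (W * ∏ p ∈ D, p)
      have := hM20 (W * ∏ p ∈ D, p)
      positivity
    · positivity
  · intro D hD r hr
    have hDp : ∀ p ∈ D, p.Prime := fun p hp => (hP p (hD hp)).1
    have hph : ∏ p ∈ D, ph (some y) p = ∏ p ∈ D, ((p : ℝ) - 1) := by
      apply prod_congr rfl
      intro p _
      simp [ph]
    rw [hph, hEr]
    beta_reduce
    split_ifs with hsmall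
    · have hcop := cop_prod (M := W) (D := D)
        (fun p hp => ⟨(hP p (hD hp)).1, (hP p (hD hp)).2.2⟩)
      obtain ⟨cc, hcc, hmain⟩ := main_cmpK hXn hW0 hy1 hb hDp hcop hba
        (fun p hp => hr p hp y rfl)
      have hm0 : 0 < ∏ p ∈ D, p := prod_pos fun p hp => (hDp p hp).pos
      have hq1 : 1 ≤ W * ∏ p ∈ D, p := Nat.mul_pos hW0 hm0
      have hqX' := hqle D hsmall
      have m2 := hM2 _ cc hq1 hcc (hqsq D hsmall x2 hx2a hx2b) (hqX'.trans hx2a)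
      have m1 := hM1 _ cc hq1 hcc (hqsq D hsmall x1 hx1a hx1b) (hqX'.trans hx1a)
      rw [hx2] at m2
      rw [hx1] at m1
      refine hmain.trans ?_
      linarith
    · have hcard : (((Spr (Sk X W b) y).filter
          (fun n => ∀ p ∈ D, n % p = r % p)).card : ℝ) ≤ X := by
        have : ((Spr (Sk X W b) y).filter (fun n => ∀ p ∈ D, n % p = r % p)).card ≤
            (Ico X (2 * X)).card :=
          (card_filter_le _ _).trans ((card_filter_le _ _).trans (card_filter_le _ _))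
        rw [Nat.card_Ico] at this
        have h2 : ((Spr (Sk X W b) y).filter (fun n => ∀ p ∈ D, n % p = r % p)).card ≤ X := by
          omega
        exact_mod_cast h2
      have hprod : (1 : ℝ) ≤ ∏ p ∈ D, ((p : ℝ) - 1) := by
        have h1 : ∀ p ∈ D, (1 : ℝ) ≤ (p : ℝ) - 1 := by
          intro p hp
          have : (2 : ℝ) ≤ p := by exact_mod_cast (hDp p hp).two_le
          linarith
        calc (1 : ℝ) = ∏ _p ∈ D, (1 : ℝ) := by simp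
          _ ≤ _ := Finset.prod_le_prod (fun _ _ => zero_le_one) h1
      have h1 : Pry X y / Nat.totient W / ∏ p ∈ D, ((p : ℝ) - 1) ≤ Pry X y / Nat.totient W :=
        div_le_self hΩ0 hprod
      have h2 : 0 ≤ Pry X y / Nat.totient W / ∏ p ∈ D, ((p : ℝ) - 1) := by positivity
      have h3 : (0 : ℝ) ≤ (((Spr (Sk X W b) y).filter
          (fun n => ∀ p ∈ D, n % p = r % p)).card : ℝ) := Nat.cast_nonneg _
      rw [abs_le]
      constructor <;> linarith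
  · -- the sum
    obtain ⟨F, hF⟩ : ∃ F : Finset (Finset ℕ), F = P.powerset.filter
        (fun D : Finset ℕ => ∏ p ∈ D, (p : ℝ) ≤ (X : ℝ) ^ (1 / 2 - θ)) := ⟨_, rfl⟩
    rw [← hF]
    have hFm : ∀ D ∈ F, (∀ p ∈ D, p ∈ P) ∧ ∏ p ∈ D, (p : ℝ) ≤ (X : ℝ) ^ (1 / 2 - θ) := by
      intro D hD
      rw [hF, mem_filter, mem_powerset] at hD
      exact ⟨fun p hp => hD.1 hp, hD.2⟩
    have hFp : ∀ D ∈ F, ∀ p ∈ D, p.Prime := fun D hD p hp => (hP p ((hFm D hD).1 p hp)).1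
    have hFN : ∀ D ∈ F, W * ∏ p ∈ D, p ≤ X := fun D hD => hqle D (hFm D hD).2
    have hsplit : ∑ D ∈ F, (K : ℝ) ^ D.card * Er D =
        ∑ D ∈ F, (K : ℝ) ^ D.card * M2 (W * ∏ p ∈ D, p) +
        ∑ D ∈ F, (K : ℝ) ^ D.card * M1 (W * ∏ p ∈ D, p) := by
      rw [← sum_add_distrib]
      apply sum_congr rfl
      intro D hD
      rw [hEr]
      beta_reduce
      rw [if_pos (hFm D hD).2]
      ring
    have s2 : ∑ D ∈ F, (K : ℝ) ^ D.card * M2 (W * ∏ p ∈ D, p) ≤ x2 / Real.log x2 ^ (A + E + 6 + B₁) :=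
      (sum_inj K W x2 hW0 F hFp (fun D hD => (hFN D hD).trans hx2a) M2 hM20).trans hM2s
    have s1 : ∑ D ∈ F, (K : ℝ) ^ D.card * M1 (W * ∏ p ∈ D, p) ≤ x1 / Real.log x1 ^ (A + E + 6 + B₁) :=
      (sum_inj K W x1 hW0 F hFp (fun D hD => (hFN D hD).trans hx1a) M1 hM10).trans hM1s
    have t : ∀ x : ℕ, X ≤ x → x ≤ 2 * X + y →
        (x : ℝ) / Real.log x ^ (A + E + 6 + B₁) ≤ (1 / 20) * (X / ℓ ^ (A + E + 3)) := by
      intro x h1 h2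
      obtain ⟨l1, l2⟩ := hlogx x h1 h2
      have h2r := hup x h2
      have h3 : (x : ℝ) / Real.log x ^ (A + E + 6 + B₁) ≤
          X * ℓ ^ (B₁ + 2) / ℓ ^ (A + E + 6 + B₁) := by
        apply div_le_div₀ (by positivity) h2r (by positivity)
        exact pow_le_pow_left₀ hℓ0.le l1 _
      refine h3.trans ?_
      have h4 : (X : ℝ) * ℓ ^ (B₁ + 2) / ℓ ^ (A + E + 6 + B₁) = (X / ℓ ^ (A + E + 3)) / ℓ := by
        have h6 : ℓ ^ (A + E + 6 + B₁) = ℓ ^ (A + E + 3) * ℓ * ℓ ^ (B₁ + 2) := by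
          rw [show A + E + 6 + B₁ = (A + E + 3) + 1 + (B₁ + 2) by ring,
            pow_add ℓ (A + E + 3 + 1) (B₁ + 2), pow_succ ℓ (A + E + 3)]
        have h7 : ℓ ^ (B₁ + 2) ≠ 0 := by positivity
        rw [h6, mul_div_mul_right _ _ h7, div_div]
      rw [h4, div_le_iff₀ hℓ0]
      have h5 : 0 ≤ (X : ℝ) / ℓ ^ (A + E + 3) := by positivity
      nlinarith
    have t1 := t x1 hx1a hx1b
    have t2 := t x2 hx2a hx2b
    have hPr' : (X : ℝ) / (2 * ℓ) ≤ Pry X y := by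
      rw [div_le_iff₀ (by positivity)]
      linarith
    have t4 : (X : ℝ) / (2 * ℓ) / ℓ ^ (E + 1) / ℓ ^ A ≤ Pry X y / Nat.totient W / ℓ ^ A := by
      apply div_le_div_of_nonneg_right _ (by positivity)
      apply div_le_div₀ hPr0 hPr' hφW
      have : (Nat.totient W : ℝ) ≤ W := by exact_mod_cast Nat.totient_le W
      linarith
    have t5 : (X : ℝ) / (2 * ℓ) / ℓ ^ (E + 1) / ℓ ^ A = (1 / 2) * (X / ℓ ^ (A + E + 2)) := by
      have e : 2 * ℓ * (ℓ ^ (E + 1) * ℓ ^ A) = 2 * ℓ ^ (A + E + 2) := by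
        rw [show A + E + 2 = (E + 1) + A + 1 by ring, pow_add ℓ (E + 1 + A) 1, pow_add ℓ (E + 1) A]
        ring
      rw [div_div, div_div, e, ← div_div]
      ring
    have t6 : (X : ℝ) / ℓ ^ (A + E + 3) ≤ X / ℓ ^ (A + E + 2) := by
      apply div_le_div_of_nonneg_left hX0.le (by positivity)
      exact pow_le_pow_right₀ (by linarith) (by omega)
    have t7 : 0 ≤ (X : ℝ) / ℓ ^ (A + E + 2) := by positivity
    rw [hsplit]
    linarith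


end Pool.Agent.H533.QA
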