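import Pool.Agent.H533.QA.Mom2

/-!
Arbitrary sets of multipliers with a bounded second moment: a positive proportion of the integers.
-/

set_option autoImplicit false

open Finset Filter Topology

namespace Pool.Agent.H533.QA

open Pool.Agent.H361R2.PP
open Pool.Agent.H533.QM
open Pool.Agent.H533.QS

/-- a positive proportion of the classes has many admissible elements of `A` and not too many
admissible elements of `J` -/
theorem many_b2 {X q : ℕ} (hq : 1 ≤ q) {A J : Finset ℕ} {ρ Λ C : ℝ} (hρ : 0 < ρ) (hΛ : 0 < Λ)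
    (hC : 0 < C) (hl : 1 / (ρ * C) ≤ lq X q)
    (h1 : ρ * Ls X q ≤ A.card) (h2 : (J.card : ℝ) ≤ Λ * Ls X q)
    (h3 : pairs A ≤ C * (A.card : ℝ) ^ 2) :
    (Wq X q : ℝ) / (24 * C) ≤ (((range (Wq X q)).filter (fun b =>
      ((adm X q b J).card : ℝ) ≤ (24 * C * Λ + ρ) * lq X q ∧
      ρ / 2 * lq X q ≤ ((adm X q b A).card : ℝ))).card : ℝ) := by
  classical
  have hW0 := Wq_pos X q
  have hWr : (0 : ℝ) < Wq X q := by exact_mod_cast hW0
  have hφ : (0 : ℝ) < Nat.totient (Wq X q) := by exact_mod_cast Nat.totient_pos.2 hW0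
  have hl0 : 0 < lq X q := lt_of_lt_of_le (by positivity) hl
  have hlW : lq X q * Wq X q = Ls X q * Nat.totient (Wq X q) := by
    unfold lq
    field_simp
  have hL : 0 < Ls X q := by
    by_contra hcon
    rw [not_lt] at hcon
    have h4 : lq X q * Wq X q ≤ 0 := by
      rw [hlW]
      exact mul_nonpos_of_nonpos_of_nonneg hcon hφ.le
    have h5 := mul_pos hl0 hWr
    linarith
  have hA0 : (0 : ℝ) < A.card := lt_of_lt_of_le (by positivity) h1
  obtain ⟨W, hW⟩ : ∃ W : ℝ, W = Wq X q := ⟨_, rfl⟩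
  obtain ⟨F, hF⟩ : ∃ F : ℝ, F = Nat.totient (Wq X q) := ⟨_, rfl⟩
  obtain ⟨a, ha⟩ : ∃ a : ℝ, a = A.card := ⟨_, rfl⟩
  rw [← hW] at hWr hlW
  rw [← hF] at hφ hlW
  rw [← ha] at hA0 h1 h3
  have hs1 : ∑ b ∈ range (Wq X q), ((adm X q b A).card : ℝ) = a * F := by
    rw [ha, hF]
    exact_mod_cast sum_adm X q A
  have hs2 : ∑ b ∈ range (Wq X q), ((adm X q b A).card : ℝ) ^ 2 ≤ 3 * C * (a * F) ^ 2 / W := by
    have h4 := mom2 (X := X) hq A
    rw [← hW, ← hF, ← ha] at h4
    refine h4.trans ?_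
    have h5 : 1 ≤ C * (a * F / W) := by
      have h6 : ρ * lq X q ≤ a * F / W := by
        rw [le_div_iff₀ hWr, mul_assoc, hlW, ← mul_assoc]
        exact mul_le_mul_of_nonneg_right h1 hφ.le
      have h7 : 1 ≤ C * (ρ * lq X q) := by
        rw [div_le_iff₀ (by positivity)] at hl
        linarith
      exact h7.trans (mul_le_mul_of_nonneg_left h6 hC.le)
    have h8 : a * F ≤ C * (a * F) ^ 2 / W := by
      calc a * F = a * F * 1 := (mul_one _).symm
        _ ≤ a * F * (C * (a * F / W)) := mul_le_mul_of_nonneg_left h5 (by positivity)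
        _ = _ := by ring
    have h9 : 2 * (W * ((F / W) ^ 2 * pairs A)) ≤ 2 * (C * (a * F) ^ 2 / W) := by
      apply mul_le_mul_of_nonneg_left _ (by norm_num)
      calc W * ((F / W) ^ 2 * pairs A) ≤ W * ((F / W) ^ 2 * (C * a ^ 2)) := by
            apply mul_le_mul_of_nonneg_left _ hWr.le
            exact mul_le_mul_of_nonneg_left h3 (by positivity)
        _ = _ := by field_simp
    calc a * F + 2 * (W * ((F / W) ^ 2 * pairs A)) ≤ C * (a * F) ^ 2 / W +
          2 * (C * (a * F) ^ 2 / W) := add_le_add h8 h9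
      _ = _ := by ring
  obtain ⟨G, hG⟩ : ∃ G, G = (range (Wq X q)).filter (fun b =>
      ρ / 2 * lq X q ≤ ((adm X q b A).card : ℝ)) := ⟨_, rfl⟩
  have hGc : W / (12 * C) ≤ (G.card : ℝ) := by
    have hsplit := sum_filter_add_sum_filter_not (range (Wq X q)) (fun b =>
      ρ / 2 * lq X q ≤ ((adm X q b A).card : ℝ)) (fun b => ((adm X q b A).card : ℝ))
    rw [hs1, ← hG] at hsplit
    have hb : ∑ b ∈ (range (Wq X q)).filter (fun b => ¬ ρ / 2 * lq X q ≤
        ((adm X q b A).card : ℝ)), ((adm X q b A).card : ℝ) ≤ a * F / 2 := by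
      calc _ ≤ ∑ b ∈ (range (Wq X q)).filter (fun b => ¬ ρ / 2 * lq X q ≤
            ((adm X q b A).card : ℝ)), ρ / 2 * lq X q := by
            apply sum_le_sum
            intro b hb
            rw [mem_filter, not_le] at hb
            exact hb.2.le
        _ ≤ ∑ b ∈ range (Wq X q), ρ / 2 * lq X q := by
            apply sum_le_sum_of_subset_of_nonneg (filter_subset _ _)
            intro b _ _
            positivity
        _ = ρ / 2 * (lq X q * W) := by rw [sum_const, card_range, nsmul_eq_mul, hW]; ring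
        _ = ρ * Ls X q * F / 2 := by rw [hlW]; ring
        _ ≤ _ := by
            apply div_le_div_of_nonneg_right _ (by norm_num)
            exact mul_le_mul_of_nonneg_right h1 hφ.le
    have hhalf : a * F / 2 ≤ ∑ b ∈ G, ((adm X q b A).card : ℝ) := by linarith
    have hcs := sq_sum_le_card_mul_sum_sq (s := G) (f := fun b => ((adm X q b A).card : ℝ))
    have hG2 : ∑ b ∈ G, ((adm X q b A).card : ℝ) ^ 2 ≤ 3 * C * (a * F) ^ 2 / W := by
      refine le_trans ?_ hs2
      apply sum_le_sum_of_subset_of_nonneg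
      · rw [hG]; exact filter_subset _ _
      · intro b _ _
        positivity
    have h4 : (a * F / 2) ^ 2 ≤ G.card * (3 * C * (a * F) ^ 2 / W) := by
      calc (a * F / 2) ^ 2 ≤ (∑ b ∈ G, ((adm X q b A).card : ℝ)) ^ 2 :=
            pow_le_pow_left₀ (by positivity) hhalf 2
        _ ≤ _ := hcs
        _ ≤ _ := mul_le_mul_of_nonneg_left hG2 (Nat.cast_nonneg _)
    have h5 : (a * F) ^ 2 * 1 ≤ (a * F) ^ 2 * (G.card * (12 * C / W)) := by
      calc (a * F) ^ 2 * 1 = 4 * (a * F / 2) ^ 2 := by ring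
        _ ≤ 4 * (G.card * (3 * C * (a * F) ^ 2 / W)) := mul_le_mul_of_nonneg_left h4 (by norm_num)
        _ = _ := by ring
    have h6 := le_of_mul_le_mul_left h5 (by positivity)
    rw [div_le_iff₀ (by positivity)]
    have h7 : (1 : ℝ) * W ≤ G.card * (12 * C / W) * W := mul_le_mul_of_nonneg_right h6 hWr.le
    have e : (G.card : ℝ) * (12 * C / W) * W = G.card * (12 * C) := by field_simp
    linarith
  -- the classes with too many elements of `J`
  obtain ⟨E, hE⟩ : ∃ E, E = (range (Wq X q)).filter (fun b =>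
      24 * C * Λ * lq X q < ((adm X q b J).card : ℝ)) := ⟨_, rfl⟩
  have hEc : (E.card : ℝ) ≤ W / (24 * C) := by
    have h4 : ∑ b ∈ range (Wq X q), ((adm X q b J).card : ℝ) = (J.card : ℝ) * F := by
      rw [hF]
      exact_mod_cast sum_adm X q J
    have h5 : (E.card : ℝ) * (24 * C * Λ * lq X q) ≤ (J.card : ℝ) * F := by
      rw [← h4, ← nsmul_eq_mul, ← sum_const]
      calc ∑ b ∈ E, 24 * C * Λ * lq X q ≤ ∑ b ∈ E, ((adm X q b J).card : ℝ) := by
            apply sum_le_sum
            intro b hb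
            rw [hE, mem_filter] at hb
            exact hb.2.le
        _ ≤ _ := by
            apply sum_le_sum_of_subset_of_nonneg
            · rw [hE]; exact filter_subset _ _
            · intro b _ _
              positivity
    have h6 : (J.card : ℝ) * F ≤ Λ * (lq X q * W) := by
      calc (J.card : ℝ) * F ≤ Λ * Ls X q * F := mul_le_mul_of_nonneg_right h2 hφ.le
        _ = _ := by rw [hlW]; ring
    rw [le_div_iff₀ (by positivity)]
    have h7 : (Λ * lq X q) * (E.card * (24 * C)) ≤ (Λ * lq X q) * W := by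
      calc _ = (E.card : ℝ) * (24 * C * Λ * lq X q) := by ring
        _ ≤ _ := h5.trans h6
        _ = _ := by ring
    exact le_of_mul_le_mul_left h7 (by positivity)
  have hsub : G ⊆ E ∪ (range (Wq X q)).filter (fun b =>
      ((adm X q b J).card : ℝ) ≤ (24 * C * Λ + ρ) * lq X q ∧
      ρ / 2 * lq X q ≤ ((adm X q b A).card : ℝ)) := by
    intro b hb
    rw [hG, mem_filter] at hb
    rw [mem_union, hE, mem_filter, mem_filter]
    by_cases h4 : 24 * C * Λ * lq X q < ((adm X q b J).card : ℝ)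
    · exact Or.inl ⟨hb.1, h4⟩
    · right
      rw [not_lt] at h4
      refine ⟨hb.1, ?_, hb.2⟩
      have : 0 < ρ * lq X q := mul_pos hρ hl0
      linarith
  have h8 := (card_le_card hsub).trans (card_union_le _ _)
  have h9 : (G.card : ℝ) ≤ E.card + (((range (Wq X q)).filter (fun b =>
      ((adm X q b J).card : ℝ) ≤ (24 * C * Λ + ρ) * lq X q ∧
      ρ / 2 * lq X q ≤ ((adm X q b A).card : ℝ))).card : ℝ) := by exact_mod_cast h8
  rw [← hW]
  have h10 : W / (12 * C) = W / (24 * C) + W / (24 * C) := by field_simp; ring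
  linarith

open Classical in
/-- **Arbitrary sets of multipliers with a bounded second moment** -/
theorem arbM (m : ℕ) (ρ Λ C : ℝ) (hρ : 0 < ρ) (hΛ : 0 < Λ) (hC : 0 < C) :
    ∃ c : ℝ, 0 < c ∧ ∀ B : ℕ, ∃ X₀ : ℕ, ∀ X : ℕ, X₀ ≤ X → ∀ q : ℕ, 1 ≤ q → q ≤ X →
    ∀ A J : Finset ℕ, A ⊆ J → (∀ j ∈ J, 1 ≤ j ∧ (j : ℝ) ≤ Real.log X ^ B) →
    ρ * Ls X q ≤ A.card → (J.card : ℝ) ≤ Λ * Ls X q → pairs A ≤ C * (A.card : ℝ) ^ 2 →
    c * (fr q * X) ≤
      (((Ico X (2 * X)).filter (fun n => n.Coprime q ∧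
        m ≤ (A.filter (fun j => (n + j * q).Prime)).card ∧
        ∀ j ∈ J, (n + j * q).Prime → j ∈ A)).card : ℝ) := by
  obtain ⟨c, hc, H⟩ := instA 1 m (ρ / 2) (24 * C * Λ + ρ) (by positivity)
    (by nlinarith [mul_pos hC hΛ])
  refine ⟨c / (24 * C), by positivity, fun B => ?_⟩
  obtain ⟨X1, h1⟩ := H B
  obtain ⟨X3, h3⟩ := lq_big (1 / (ρ * C))
  refine ⟨X1 + X3 + 2, fun X hX q hq hqX A J hAJ hJ hA hJc hpA => ?_⟩
  have hbig := h3 X (by omega) q hq hqX
  have hW0 := Wq_pos X q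
  have hWr : (0 : ℝ) < Wq X q := by exact_mod_cast hW0
  have hfr := fr_pos hq
  have hmany := many_b2 hq hρ hΛ hC hbig hA hJc hpA
  have hres := h1 X (by omega) q hq hqX J hJ (fun _ => A) (fun _ => hAJ)
  have hset : ((range (Wq X q)).filter (fun b =>
      ((adm X q b J).card : ℝ) ≤ (24 * C * Λ + ρ) * lq X q ∧
      ρ / 2 * lq X q ≤ ((adm X q b A).card : ℝ))).card ≤ ((range (Wq X q)).filter (fun b =>
      ((adm X q b J).card : ℝ) ≤ (24 * C * Λ + ρ) * lq X q ∧
      ∀ _i : Fin 1, ρ / 2 * lq X q ≤ ((adm X q b A).card : ℝ))).card := by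
    apply card_le_card
    intro b hb
    rw [mem_filter] at hb ⊢
    exact ⟨hb.1, hb.2.1, fun _ => hb.2.2⟩
  have hset' : (((range (Wq X q)).filter (fun b =>
      ((adm X q b J).card : ℝ) ≤ (24 * C * Λ + ρ) * lq X q ∧
      ρ / 2 * lq X q ≤ ((adm X q b A).card : ℝ))).card : ℝ) ≤ (((range (Wq X q)).filter (fun b =>
      ((adm X q b J).card : ℝ) ≤ (24 * C * Λ + ρ) * lq X q ∧
      ∀ _i : Fin 1, ρ / 2 * lq X q ≤ ((adm X q b A).card : ℝ))).card : ℝ) := by
    exact_mod_cast hset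
  have hX0 : (0 : ℝ) ≤ X := Nat.cast_nonneg X
  calc c / (24 * C) * (fr q * X) = c * (fr q * (X : ℝ) / Wq X q) * ((Wq X q : ℝ) / (24 * C)) := by
        field_simp
    _ ≤ c * (fr q * (X : ℝ) / Wq X q) * _ :=
        mul_le_mul_of_nonneg_left (hmany.trans hset') (by positivity)
    _ ≤ _ := hres
    _ ≤ _ := by
        apply Nat.cast_le.2
        apply card_le_card
        intro n hn
        rw [mem_filter] at hn ⊢
        obtain ⟨hn1, hn2, hn3, hn4⟩ := hn
        refine ⟨hn1, hn2, ?_, ?_⟩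
        · by_contra hcon
          rw [filter_false_of_mem (fun _ _ => hcon)] at hn3
          simp at hn3
        · intro j hj hp
          obtain ⟨_, hi⟩ := hn4 j hj hp
          exact hi

end Pool.Agent.H533.QA
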