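import Pool.Agent.H533.QA.ArbM
import Pool.Agent.H533.QM.Least
import Pool.Graph.R_seed8.TH685.TI.FAvg

/-!
Goldbach representations with a small prime of an arbitrary set.
-/

set_option autoImplicit false

open Finset Filter Topology

namespace Pool.Agent.H533.QA

open Pool.Agent.H361R2.PP
open Pool.Agent.H533.QM
open Pool.Agent.H197R2.PG (gg)

/-- reflection preserves the differences -/
theorem pairs_refl {A : Finset ℕ} {M : ℕ} (h : ∀ p ∈ A, p ≤ M) :
    pairs (A.image (fun p => M - p)) = pairs A := by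
  have hinj : Set.InjOn (fun p : ℕ => M - p) (A : Set ℕ) := by
    intro p hp p' hp' h1
    have h2 := h p hp
    have h3 := h p' hp'
    have : M - p = M - p' := h1
    omega
  unfold pairs
  rw [sum_image hinj]
  have h1 : ∀ i ∈ A, ∑ j ∈ (A.image (fun p => M - p)).filter (fun j => M - i < j),
      (((j - (M - i) : ℕ) : ℝ) / Nat.totient (j - (M - i))) =
      ∑ j ∈ A.filter (fun j => j < i), (((i - j : ℕ) : ℝ) / Nat.totient (i - j)) := by
    intro i hi
    have h2 := h i hi
    have h3 : (A.image (fun p => M - p)).filter (fun j => M - i < j) =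
        (A.filter (fun j => j < i)).image (fun p => M - p) := by
      ext r
      simp only [mem_filter, mem_image]
      constructor
      · rintro ⟨⟨p, hp, rfl⟩, h4⟩
        exact ⟨p, ⟨hp, by omega⟩, rfl⟩
      · rintro ⟨p, ⟨hp, h4⟩, rfl⟩
        have := h p hp
        exact ⟨⟨p, hp, rfl⟩, by omega⟩
    rw [h3, sum_image (hinj.mono (by
      intro j hj
      rw [mem_coe, mem_filter] at hj
      exact hj.1))]
    apply sum_congr rfl
    intro j hj
    rw [mem_filter] at hj
    have h4 := h j hj.1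
    have h5 : M - j - (M - i) = i - j := by omega
    rw [h5]
  rw [sum_congr rfl h1]
  simp only [sum_filter]
  rw [sum_comm]

/-- `h / φ(h)` and the product of `1 + 1/p` -/
theorem ratio_le_gg {h : ℕ} (hh : 0 < h) : (h : ℝ) / Nat.totient h ≤ gg h ^ 2 := by
  rw [ratio_prod hh]
  unfold gg
  rw [← prod_pow]
  apply Finset.prod_le_prod
  · intro p hp
    have := one_sub_pos (Nat.prime_of_mem_primeFactors hp)
    positivity
  · intro p hp
    have hp' := Nat.prime_of_mem_primeFactors hp
    have h2 : (2 : ℝ) ≤ p := by exact_mod_cast hp'.two_le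
    have h3 := one_sub_pos hp'
    rw [inv_le_comm₀ h3 (by positivity), ← one_div, div_le_iff₀ (by positivity)]
    have h4 : (1 - 1 / (p : ℝ)) * (1 + 1 / (p : ℝ)) ^ 2 = 1 + (p ^ 2 - p - 1) / (p : ℝ) ^ 3 := by
      field_simp
      ring
    rw [h4]
    have h5 : 0 ≤ ((p : ℝ) ^ 2 - p - 1) / (p : ℝ) ^ 3 := by
      apply div_nonneg _ (by positivity)
      nlinarith
    linarith

/-- the pairs of primes -/
theorem pairs_primes : ∃ C : ℝ, 1 ≤ C ∧ ∀ (M : ℕ) (S : Finset ℕ), 2 ≤ M →
    (∀ p ∈ S, p.Prime ∧ p ≤ M) → pairs S ≤ C * (M / Real.log M) ^ 2 := by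
  obtain ⟨C, hC, h⟩ := Pool.Agent.TH685.FAvg.avg_diff
  refine ⟨C, hC, fun M S hM hS => ?_⟩
  refine le_trans ?_ (h M S hM hS)
  unfold pairs
  have h1 : ∑ i ∈ S, ∑ j ∈ S.filter (fun j => i < j), (((j - i : ℕ) : ℝ) / Nat.totient (j - i)) ≤
      ∑ i ∈ S, ∑ j ∈ S.filter (fun j => i < j), gg (Nat.dist i j) ^ 2 := by
    apply sum_le_sum
    intro i _
    apply sum_le_sum
    intro j hj
    rw [mem_filter] at hj
    rw [Nat.dist_eq_sub_of_le hj.2.le]
    exact ratio_le_gg (by omega)
  refine h1.trans ?_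
  have h2 : ∑ i ∈ S, ∑ j ∈ S.filter (fun j => i < j), gg (Nat.dist i j) ^ 2 =
      ∑ z ∈ (S ×ˢ S).filter (fun z => z.1 < z.2), gg (Nat.dist z.1 z.2) ^ 2 := by
    rw [sum_filter, sum_product]
    apply sum_congr rfl
    intro i _
    rw [sum_filter]
  rw [h2]
  apply sum_le_sum_of_subset_of_nonneg
  · intro z hz
    rw [mem_filter, mem_product] at hz
    rw [mem_offDiag]
    exact ⟨hz.1.1, hz.1.2, hz.2.ne⟩
  · intro z _ _
    positivity

end Pool.Agent.H533.QA
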