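import Pool.Agent.H533.QA.Pol4

/-!
Increasing polynomials: prime values of `f(n) + a` and `f(n) - a`, windows on the scale `log a`.
-/

set_option autoImplicit false

open Finset Polynomial Filter Topology

namespace Pool.Agent.H533.QA

open Pool.Agent.H361R2.PP
open Pool.Agent.H533.QM

/-- the windows on the scale `log a` -/
theorem win_log {L La α ε Λ : ℝ} (h1 : L ≤ La) (h2 : La ≤ L + 1) (hε : 0 < ε) (hα0 : 0 ≤ α)
    (hαΛ : α + ε ≤ Λ) (hL : 4 * Λ / ε ≤ L) {j : ℕ} (hj : CL (α + ε / 4) (ε / 2) L j) :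
    (α * La < j ∧ (j : ℝ) ≤ (α + ε) * La) ∧ (j : ℝ) ≤ Λ * L := by
  obtain ⟨h3, h4⟩ := hj
  rw [div_le_iff₀ hε] at hL
  have hΛ0 : 0 < Λ := by linarith
  have hL0 : 0 < L := by
    by_contra hcon
    rw [not_lt] at hcon
    nlinarith
  refine ⟨⟨?_, ?_⟩, ?_⟩
  · refine lt_of_le_of_lt ?_ h3
    nlinarith
  · refine h4.trans ?_
    nlinarith
  · refine h4.trans ?_
    nlinarith

theorem log_dyadic {X a : ℕ} (hX : 1 ≤ X) (h1 : X ≤ a) (h2 : a < 2 * X) :
    Real.log X ≤ Real.log a ∧ Real.log a ≤ Real.log X + 1 := by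
  have hX0 : (0 : ℝ) < X := by exact_mod_cast hX
  have h3 : (X : ℝ) ≤ a := by exact_mod_cast h1
  have h4 : (a : ℝ) ≤ 2 * X := by exact_mod_cast h2.le
  refine ⟨Real.log_le_log hX0 h3, ?_⟩
  have h5 := Real.log_le_log (by linarith) h4
  rw [Real.log_mul (by norm_num) hX0.ne'] at h5
  have := Real.log_two_lt_d9
  linarith

open Classical in
/-- at least `m` prime values of `|f(n) + b|` in at least a quarter of the windows
`(α i · log |b|, (α i + ε) · log |b|]`, and no other prime value with `1 ≤ n ≤ Λ log |b|` -/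
def GoodP (f : ℤ[X]) {k : ℕ} (m : ℕ) (α : Fin k → ℝ) (ε Λ : ℝ) (b : ℤ) : Prop :=
  k ≤ 4 * ((univ : Finset (Fin k)).filter (fun i => m ≤
    ((Icc 1 ⌊Λ * Real.log |(b : ℝ)|⌋₊).filter (fun n : ℕ =>
      (α i * Real.log |(b : ℝ)| < n ∧ (n : ℝ) ≤ (α i + ε) * Real.log |(b : ℝ)|) ∧
        (f.eval (n : ℤ) + b).natAbs.Prime)).card)).card ∧
  ∀ n ∈ Icc 1 ⌊Λ * Real.log |(b : ℝ)|⌋₊, (f.eval (n : ℤ) + b).natAbs.Prime →
    ∃ i, α i * Real.log |(b : ℝ)| < n ∧ (n : ℝ) ≤ (α i + ε) * Real.log |(b : ℝ)|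

open Classical in
/-- transfer from the scale `log X` to the scale `log a` -/
theorem transfer (f : ℤ[X]) {k m : ℕ} {α : Fin k → ℝ} {ε Λ L : ℝ} {b : ℤ} (hε : 0 < ε)
    (hα : ∀ i, 0 ≤ α i ∧ α i + ε ≤ Λ) (h1 : L ≤ Real.log |(b : ℝ)|)
    (h2 : Real.log |(b : ℝ)| ≤ L + 1) (hL : 4 * Λ / ε ≤ L) (hL2 : Λ / ε ≤ L) (hΛ : 0 < Λ)
    (h3 : k ≤ 4 * ((univ : Finset (Fin k)).filter (fun i => m ≤
      ((Ioc 0 ⌊(Λ + ε) * L⌋₊).filter (fun n : ℕ => CL (α i + ε / 4) (ε / 2) L n ∧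
        (f.eval (n : ℤ) + b).natAbs.Prime)).card)).card)
    (h4 : ∀ n ∈ Ioc 0 ⌊(Λ + ε) * L⌋₊, (f.eval (n : ℤ) + b).natAbs.Prime →
      ∃ i, CL (α i + ε / 4) (ε / 2) L n) : GoodP f m α ε Λ b := by
  have hL0 : 0 < L := lt_of_lt_of_le (by positivity) hL
  refine ⟨h3.trans ?_, ?_⟩
  · apply Nat.mul_le_mul_left
    apply card_le_card
    intro i hi
    rw [mem_filter] at hi ⊢
    refine ⟨hi.1, hi.2.trans (card_le_card ?_)⟩
    intro n hn
    rw [mem_filter, mem_Ioc] at hn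
    obtain ⟨g1, g2⟩ := win_log h1 h2 hε (hα i).1 (hα i).2 hL hn.2.1
    rw [mem_filter, mem_Icc]
    refine ⟨⟨hn.1.1, ?_⟩, g1, hn.2.2⟩
    apply Nat.le_floor
    exact g2.trans (mul_le_mul_of_nonneg_left h1 hΛ.le)
  · intro n hn hp
    rw [mem_Icc] at hn
    have g3 : (n : ℝ) ≤ Λ * Real.log |(b : ℝ)| :=
      (Nat.le_floor_iff (mul_nonneg hΛ.le (by linarith))).1 hn.2
    have g4 : (n : ℝ) ≤ (Λ + ε) * L := by
      refine g3.trans ?_
      rw [div_le_iff₀ hε] at hL2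
      nlinarith
    obtain ⟨i, hi⟩ := h4 n (mem_Ioc.2 ⟨hn.1, Nat.le_floor g4⟩) hp
    exact ⟨i, (win_log h1 h2 hε (hα i).1 (hα i).2 hL hi).1⟩

open Classical in
/-- **Increasing polynomials** -/
theorem incFinal (F : ℤ[X]) (hF : 1 ≤ F.natDegree) (h00 : 0 ≤ F.eval 0)
    (hmono : ∀ i j : ℕ, i < j → F.eval (i : ℤ) < F.eval (j : ℤ))
    (k m : ℕ) (α : Fin k → ℝ) (ε Λ : ℝ) (hε : 0 < ε) (hΛ : 0 < Λ)
    (hα : ∀ i, 0 ≤ α i ∧ α i + ε ≤ Λ) :
    ∃ c : ℝ, 0 < c ∧ ∃ X₀ : ℕ, ∀ X : ℕ, X₀ ≤ X → ∀ σ : ℤ, (σ = 1 ∨ σ = -1) →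
    c * X ≤ (((Ico X (2 * X)).filter (fun a : ℕ => GoodP F m α ε Λ (σ * a))).card : ℝ) := by
  have h0 : ∀ j : ℕ, 0 ≤ F.eval (j : ℤ) := by
    intro j
    rcases Nat.eq_zero_or_pos j with h | h
    · rw [h]; exact h00
    · have := hmono 0 j h
      rw [Nat.cast_zero] at this
      linarith
  have h1 : ∀ j : ℕ, 0 < j → 1 ≤ F.eval (j : ℤ) := by
    intro j hj
    have := hmono 0 j hj
    rw [Nat.cast_zero] at this
    linarith
  have hα' : ∀ i, 0 ≤ α i + ε / 4 ∧ α i + ε / 4 + ε / 2 ≤ Λ + ε := fun i =>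
    ⟨by have := (hα i).1; linarith, by have := (hα i).2; linarith⟩
  obtain ⟨c1, hc1, X1, H1⟩ := polyM F hF h0 0 (fun i j _ h => hmono i j h) h1 k m
    (fun i => α i + ε / 4) (ε / 2) (Λ + ε) (by positivity) (by positivity) hα'
  obtain ⟨c2, hc2, X2, H2⟩ := polyN F hF h0 0 (fun i j _ h => hmono i j h) h1 k m
    (fun i => α i + ε / 4) (ε / 2) (Λ + ε) (by positivity) (by positivity) hα'
  obtain ⟨X3, H3⟩ := gF_le F (Λ + ε + 1) (by positivity)
  have t1 : Tendsto (fun X : ℕ => Real.log (X : ℝ)) atTop atTop :=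
    Real.tendsto_log_atTop.comp tendsto_natCast_atTop_atTop
  obtain ⟨X4, H4⟩ := eventually_atTop.1 (t1.eventually_ge_atTop (4 * Λ / ε + Λ / ε + 1))
  obtain ⟨X5, H5⟩ := Pool.Agent.H20R2.EQI.ev_large (2 / c2 + 1) (F.natDegree + 1) 1 one_pos
  refine ⟨min c1 (c2 / 2), lt_min hc1 (by positivity), X1 + X2 + X3 + X4 + X5 + 2,
    fun X hX σ hσ => ?_⟩
  have hX0 : (0 : ℝ) < X := by exact_mod_cast (by omega : 0 < X)
  have hlog := H4 X (by omega)
  have hp1 : 0 ≤ 4 * Λ / ε := by positivity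
  have hp2 : 0 ≤ Λ / ε := by positivity
  have hL1 : 4 * Λ / ε ≤ Real.log X := by linarith
  have hL2 : Λ / ε ≤ Real.log X := by linarith
  have hL3 : 1 ≤ Real.log X := by linarith
  have h5 := H5 X (by omega)
  rw [Real.rpow_one] at h5
  have hpow : (1 : ℝ) ≤ Real.log X ^ (F.natDegree + 1) := one_le_pow₀ hL3
  have hMX : Real.log X ^ (F.natDegree + 1) ≤ X := by
    have : 0 < 2 / c2 := by positivity
    nlinarith
  have hMc : Real.log X ^ (F.natDegree + 1) ≤ c2 / 2 * X := by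
    have h6 : 2 / c2 * Real.log X ^ (F.natDegree + 1) ≤ X := by nlinarith
    rw [div_mul_eq_mul_div, div_le_iff₀ hc2] at h6
    linarith
  rcases hσ with hσ | hσ
  · -- plus
    subst hσ
    have h6 := H1 X (by omega)
    refine (mul_le_mul_of_nonneg_right (min_le_left _ _) hX0.le).trans (h6.trans
      (Nat.cast_le.2 (card_le_card ?_)))
    intro a ha
    rw [mem_filter, mem_Ico] at ha
    rw [mem_filter, mem_Ico]
    refine ⟨ha.1, ?_⟩
    obtain ⟨l1, l2⟩ := log_dyadic (by omega) ha.1.1 ha.1.2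
    have hb : |(((1 : ℤ) * (a : ℤ) : ℤ) : ℝ)| = (a : ℝ) := by
      push_cast
      rw [one_mul, abs_of_nonneg (Nat.cast_nonneg _)]
    have hval : ∀ n : ℕ, (F.eval (n : ℤ) + (1 : ℤ) * (a : ℤ)).natAbs = a + gF F n := by
      intro n
      have h7 : F.eval (n : ℤ) + (1 : ℤ) * (a : ℤ) = ((a + gF F n : ℕ) : ℤ) := by
        push_cast
        rw [gF_cast h0]
        ring
      rw [h7, Int.natAbs_natCast]
    apply transfer F hε hα (L := Real.log X) (by rw [hb]; exact l1) (by rw [hb]; exact l2)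
      hL1 hL2 hΛ
    · simp only [hval]
      exact ha.2.1
    · intro n hn hp
      rw [hval] at hp
      exact ha.2.2 n hn hp
  · -- minus
    subst hσ
    obtain ⟨N, hN⟩ : ∃ N, N = ⌊(Λ + ε) * Real.log X⌋₊ := ⟨_, rfl⟩
    obtain ⟨M, hM⟩ : ∃ M, M = gF F (N + 1) := ⟨_, rfl⟩
    have hNle : (N : ℝ) ≤ (Λ + ε) * Real.log X := by
      rw [hN]; exact Nat.floor_le (by positivity)
    have hM1 : (M : ℝ) ≤ Real.log X ^ (F.natDegree + 1) := by
      rw [hM]
      apply H3 X (by omega)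
      push_cast
      linarith
    have hM2 : ∀ j ∈ Ioc 0 ⌊(Λ + ε) * Real.log X⌋₊, gF F j < M := by
      intro j hj
      rw [← hN, mem_Ioc] at hj
      have h7 := hmono j (N + 1) (by omega)
      rw [← gF_cast h0, ← gF_cast h0] at h7
      rw [hM]
      exact_mod_cast h7
    have h6 := H2 X (by omega) M hM1 hM2
    -- shift by `M`
    obtain ⟨G, hG⟩ : ∃ G : Finset ℕ, G = (Ico X (2 * X)).filter (fun n =>
      k ≤ 4 * ((univ : Finset (Fin k)).filter (fun i => m ≤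
        ((Ioc 0 ⌊(Λ + ε) * Real.log X⌋₊).filter (fun j =>
          CL ((fun i => α i + ε / 4) i) (ε / 2) (Real.log X) j ∧
          (n + (M - gF F j)).Prime)).card)).card ∧
      ∀ j ∈ Ioc 0 ⌊(Λ + ε) * Real.log X⌋₊, (n + (M - gF F j)).Prime →
        ∃ i, CL ((fun i => α i + ε / 4) i) (ε / 2) (Real.log X) j) := ⟨_, rfl⟩
    rw [← hG] at h6
    have hGc : G.card ≤ ((Ico X (2 * X)).filter
        (fun a : ℕ => GoodP F m α ε Λ (-1 * a))).card + M := by
      have h7 : G.image (fun n => n + M) ⊆ ((Ico X (2 * X)).filter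
        (fun a : ℕ => GoodP F m α ε Λ (-1 * a))) ∪ Ico (2 * X) (2 * X + M) := by
        intro a ha
        rw [mem_image] at ha
        obtain ⟨n, hn, rfl⟩ := ha
        rw [hG, mem_filter, mem_Ico] at hn
        rw [mem_union, mem_filter, mem_Ico, mem_Ico]
        rcases Nat.lt_or_ge (n + M) (2 * X) with h8 | h8
        · left
          refine ⟨⟨by omega, h8⟩, ?_⟩
          obtain ⟨l1, l2⟩ := log_dyadic (a := n + M) (by omega) (by omega : X ≤ n + M) h8
          have hb : |(((-1 : ℤ) * ((n + M : ℕ) : ℤ) : ℤ) : ℝ)| = ((n + M : ℕ) : ℝ) := by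
            push_cast
            rw [abs_of_nonpos (by
              have : (0 : ℝ) ≤ (n : ℝ) + M := by positivity
              linarith)]
            ring
          have hval : ∀ j ∈ Ioc 0 ⌊(Λ + ε) * Real.log X⌋₊,
              (F.eval (j : ℤ) + (-1 : ℤ) * ((n + M : ℕ) : ℤ)).natAbs = n + (M - gF F j) := by
            intro j hj
            have h9 := hM2 j hj
            have h7 : F.eval (j : ℤ) + (-1 : ℤ) * ((n + M : ℕ) : ℤ) =
                -((n + (M - gF F j) : ℕ) : ℤ) := by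
              push_cast [Nat.cast_sub h9.le]
              rw [gF_cast h0]
              ring
            rw [h7, Int.natAbs_neg, Int.natAbs_natCast]
          apply transfer F hε hα (L := Real.log X) (by rw [hb]; exact l1)
            (by rw [hb]; exact l2) hL1 hL2 hΛ
          · refine hn.2.1.trans (le_of_eq ?_)
            congr 2
            apply filter_congr
            intro i _
            have h11 : (Ioc 0 ⌊(Λ + ε) * Real.log X⌋₊).filter (fun j : ℕ =>
                CL (α i + ε / 4) (ε / 2) (Real.log X) j ∧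
                (F.eval (j : ℤ) + (-1 : ℤ) * ((n + M : ℕ) : ℤ)).natAbs.Prime) =
                (Ioc 0 ⌊(Λ + ε) * Real.log X⌋₊).filter (fun j : ℕ =>
                CL (α i + ε / 4) (ε / 2) (Real.log X) j ∧ (n + (M - gF F j)).Prime) :=
              filter_congr (fun j hj => by rw [hval j hj])
            rw [h11]
          · intro j hj hp
            rw [hval j hj] at hp
            exact hn.2.2 j hj hp
        · right
          omega
      have h8 := card_le_card h7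
      rw [card_image_of_injective _ (fun _ _ h => Nat.add_right_cancel h)] at h8
      refine h8.trans ((card_union_le _ _).trans ?_)
      rw [Nat.card_Ico]
      omega
    have h9 : (G.card : ℝ) ≤ (((Ico X (2 * X)).filter
        (fun a : ℕ => GoodP F m α ε Λ (-1 * a))).card : ℝ) + M := by exact_mod_cast hGc
    have h10 : min c1 (c2 / 2) * X ≤ c2 / 2 * X :=
      mul_le_mul_of_nonneg_right (min_le_right _ _) hX0.le
    linarith

end Pool.Agent.H533.QA
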