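import Pool.Agent.H533.QA.Arb
import Pool.Agent.H533.QM.Least

/-!
Arbitrary sets of multipliers: the classes modulo `d`, and the exact order of magnitude.
-/

set_option autoImplicit false

open Finset Filter Topology

namespace Pool.Agent.H533.QA

open Pool.Agent.H361R2.PP
open Pool.Agent.H533.QM
open Pool.Agent.H533.QS

/-- the product of `1 - 1 / p` over the primes `p ≤ log log d` which do not divide `d` -/
noncomputable def kap (d : ℕ) : ℝ :=
  ∏ p ∈ (range (⌊Real.log (Real.log d)⌋₊ + 1)).filter (fun p => p.Prime ∧ ¬ p ∣ d),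
    (1 - 1 / (p : ℝ))

theorem HH_le {d : ℕ} (h : 0 ≤ Real.log (Real.log d)) : HH d ≤ ⌊Real.log (Real.log d)⌋₊ := by
  unfold HH
  apply Nat.floor_le_floor
  linarith

theorem le_HH {d : ℕ} (h : 0 ≤ Real.log (Real.log d)) :
    ⌊Real.log (Real.log d)⌋₊ ≤ 4 * HH d + 3 := by
  unfold HH
  have h1 := Nat.lt_floor_add_one (Real.log (Real.log d) / 4)
  have h2 := Nat.floor_le h
  have h3 : ((⌊Real.log (Real.log d)⌋₊ : ℕ) : ℝ) <
      ((4 * (⌊Real.log (Real.log d) / 4⌋₊ + 1) : ℕ) : ℝ) := by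
    push_cast
    linarith
  have h4 : ⌊Real.log (Real.log d)⌋₊ < 4 * (⌊Real.log (Real.log d) / 4⌋₊ + 1) := by
    exact_mod_cast h3
  omega

/-- telescoping -/
theorem tele (H N : ℕ) (hH : 1 ≤ H) (hHN : H ≤ N) :
    ∏ n ∈ Ioc H N, (1 - 1 / (n : ℝ)) = H / N := by
  induction N, hHN using Nat.le_induction with
  | base =>
    rw [Ioc_self, prod_empty]
    have : (H : ℝ) ≠ 0 := by exact_mod_cast (by omega : H ≠ 0)
    field_simp
  | succ N hN ih =>
    rw [Finset.prod_Ioc_succ_top (by omega), ih]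
    have h1 : (N : ℝ) ≠ 0 := by exact_mod_cast (by omega : N ≠ 0)
    have h2 : ((N : ℝ) + 1) ≠ 0 := by positivity
    push_cast
    field_simp
    ring

theorem kap_split {d : ℕ} (h : 0 ≤ Real.log (Real.log d)) :
    kap d = ((Nat.totient (Wq d d) : ℝ) / Wq d d) *
      ∏ p ∈ (Ioc (HH d) ⌊Real.log (Real.log d)⌋₊).filter (fun p => p.Prime ∧ ¬ p ∣ d),
        (1 - 1 / (p : ℝ)) := by
  rw [frW]
  unfold kap Sm
  rw [← prod_union]
  · congr 1
    ext p
    simp only [mem_filter, mem_range, mem_union, mem_Ioc]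
    have h1 := HH_le h
    constructor
    · rintro ⟨h2, h3⟩
      rcases Nat.lt_or_ge p (HH d + 1) with h4 | h4
      · exact Or.inl ⟨h4, h3⟩
      · exact Or.inr ⟨⟨by omega, by omega⟩, h3⟩
    · rintro (⟨h2, h3⟩ | ⟨h2, h3⟩)
      · exact ⟨by omega, h3⟩
      · exact ⟨by omega, h3⟩
  · rw [disjoint_left]
    intro p h2 h3
    rw [mem_filter, mem_range] at h2
    rw [mem_filter, mem_Ioc] at h3
    omega

theorem prod_Ioc_ge {d : ℕ} (H N : ℕ) (hH : 1 ≤ H) (hHN : H ≤ N) :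
    (H : ℝ) / N ≤ ∏ p ∈ (Ioc H N).filter (fun p => p.Prime ∧ ¬ p ∣ d), (1 - 1 / (p : ℝ)) := by
  rw [← tele H N hH hHN]
  rw [← prod_filter_mul_prod_filter_not (Ioc H N) (fun p => p.Prime ∧ ¬ p ∣ d)]
  have h1 : ∀ n ∈ Ioc H N, 0 ≤ 1 - 1 / (n : ℝ) ∧ 1 - 1 / (n : ℝ) ≤ 1 := by
    intro n hn
    rw [mem_Ioc] at hn
    have h2 : (1 : ℝ) ≤ n := by exact_mod_cast (by omega : 1 ≤ n)
    have h3 : 1 / (n : ℝ) ≤ 1 := by
      rw [div_le_one (by linarith)]
      exact h2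
    have h4 : 0 ≤ 1 / (n : ℝ) := by positivity
    exact ⟨by linarith, by linarith⟩
  have h5 : 0 ≤ ∏ p ∈ (Ioc H N).filter (fun p => p.Prime ∧ ¬ p ∣ d), (1 - 1 / (p : ℝ)) :=
    prod_nonneg fun n hn => (h1 n (mem_filter.1 hn).1).1
  have h6 : ∏ p ∈ (Ioc H N).filter (fun p => ¬ (p.Prime ∧ ¬ p ∣ d)), (1 - 1 / (p : ℝ)) ≤ 1 :=
    prod_le_one (fun n hn => (h1 n (mem_filter.1 hn).1).1)
      (fun n hn => (h1 n (mem_filter.1 hn).1).2)
  calc _ ≤ (∏ p ∈ (Ioc H N).filter (fun p => p.Prime ∧ ¬ p ∣ d), (1 - 1 / (p : ℝ))) * 1 :=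
        mul_le_mul_of_nonneg_left h6 h5
    _ = _ := mul_one _

theorem kap_le {d : ℕ} (h : 0 ≤ Real.log (Real.log d)) :
    kap d ≤ (Nat.totient (Wq d d) : ℝ) / Wq d d := by
  rw [kap_split h]
  have h1 := phW_pos d d
  have h2 : ∏ p ∈ (Ioc (HH d) ⌊Real.log (Real.log d)⌋₊).filter (fun p => p.Prime ∧ ¬ p ∣ d),
        (1 - 1 / (p : ℝ)) ≤ 1 := by
    apply prod_le_one
    · intro p hp
      rw [mem_filter] at hp
      exact (one_sub_pos hp.2.1).le
    · intro p hp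
      have : 0 ≤ 1 / (p : ℝ) := by positivity
      linarith
  calc _ ≤ ((Nat.totient (Wq d d) : ℝ) / Wq d d) * 1 := mul_le_mul_of_nonneg_left h2 h1.le
    _ = _ := mul_one _

theorem le_kap {d : ℕ} (h : 0 ≤ Real.log (Real.log d)) (hH : 1 ≤ HH d) :
    (Nat.totient (Wq d d) : ℝ) / Wq d d ≤ 8 * kap d := by
  rw [kap_split h]
  have h1 := phW_pos d d
  have h2 := prod_Ioc_ge (d := d) (HH d) ⌊Real.log (Real.log d)⌋₊ hH (HH_le h)
  have h3 := le_HH h
  have h4 : (1 : ℝ) / 8 ≤ (HH d : ℝ) / (⌊Real.log (Real.log d)⌋₊ : ℝ) := by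
    have h5 : ((⌊Real.log (Real.log d)⌋₊ : ℕ) : ℝ) ≤ 4 * HH d + 3 := by exact_mod_cast h3
    have h6 : (1 : ℝ) ≤ HH d := by exact_mod_cast hH
    have h7 : (HH d : ℝ) ≤ (⌊Real.log (Real.log d)⌋₊ : ℝ) := by exact_mod_cast HH_le h
    rw [div_le_div_iff₀ (by norm_num) (by linarith)]
    linarith
  have h5 := mul_le_mul_of_nonneg_left (h4.trans h2) h1.le
  linarith

theorem kap_lower {d : ℕ} (h : 1 ≤ Real.log (Real.log d)) : 1 / Real.log (Real.log d) ≤ kap d := by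
  have h0 : 1 ≤ ⌊Real.log (Real.log d)⌋₊ := Nat.le_floor (by exact_mod_cast h)
  have h1 := prod_Ioc_ge (d := d) 1 ⌊Real.log (Real.log d)⌋₊ le_rfl h0
  have h2 : kap d = ∏ p ∈ (Ioc 1 ⌊Real.log (Real.log d)⌋₊).filter
      (fun p => p.Prime ∧ ¬ p ∣ d), (1 - 1 / (p : ℝ)) := by
    unfold kap
    congr 1
    ext p
    simp only [mem_filter, mem_range, mem_Ioc]
    constructor
    · rintro ⟨h2, h3⟩
      have := h3.1.two_le
      exact ⟨⟨by omega, by omega⟩, h3⟩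
    · rintro ⟨h2, h3⟩
      exact ⟨by omega, h3⟩
  rw [h2]
  refine le_trans ?_ h1
  rw [Nat.cast_one]
  apply one_div_le_one_div_of_le
  · exact_mod_cast h0
  · exact Nat.floor_le (by linarith)

/-- the number of primes up to `2 d` is small compared with `kap d * φ d` -/
theorem pi_kap (c : ℝ) (hc : 0 < c) : ∃ X₀ : ℕ, ∀ d : ℕ, X₀ ≤ d →
    1 ≤ Real.log (Real.log d) ∧
    (((range (2 * d)).filter Nat.Prime).card : ℝ) ≤ c * (kap d * (Nat.totient d : ℝ)) := by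
  obtain ⟨X1, h1⟩ := pi_upper
  obtain ⟨c1, hc1, X2, h2⟩ := fr_lower
  have t1 : Tendsto (fun X : ℕ => Real.log (X : ℝ)) atTop atTop :=
    Real.tendsto_log_atTop.comp tendsto_natCast_atTop_atTop
  have t2 : Tendsto (fun X : ℕ => Real.log (Real.log (X : ℝ))) atTop atTop :=
    Real.tendsto_log_atTop.comp t1
  have t3 : ∀ᶠ x : ℝ in atTop, 4 / (c * c1) * Real.log x ^ 2 ≤ x := by
    have := (Real.isLittleO_pow_log_id_atTop (n := 2)).bound (c := 1 / (4 / (c * c1))) (by positivity)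
    filter_upwards [this, eventually_ge_atTop (0 : ℝ)] with x hx hx0
    rw [Real.norm_eq_abs, abs_of_nonneg (by positivity), id, Real.norm_eq_abs,
      abs_of_nonneg hx0, div_mul_eq_mul_div, one_mul, le_div_iff₀ (by positivity)] at hx
    linarith
  obtain ⟨X3, h3⟩ := eventually_atTop.1 ((t1.eventually t3).and ((t2.eventually_ge_atTop 1).and
    (t1.eventually_ge_atTop 1)))
  refine ⟨X1 + X2 + X3 + 2, fun d hd => ?_⟩
  obtain ⟨g1, g2, g3⟩ := h3 d (by omega)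
  refine ⟨g2, ?_⟩
  have h4 := h1 d (by omega)
  have h5 := h2 d (by omega) d (by omega) le_rfl
  have h6 := kap_lower g2
  have hd0 : (0 : ℝ) < d := by exact_mod_cast (by omega : 0 < d)
  obtain ⟨l, hl⟩ : ∃ l, l = Real.log d := ⟨_, rfl⟩
  obtain ⟨ll, hll⟩ : ∃ ll, ll = Real.log (Real.log d) := ⟨_, rfl⟩
  rw [← hll] at g1 g2 h5 h6
  rw [← hl] at g1 g3 h4
  have hk0 : 0 < 1 / ll := by positivity
  have h7 : (Nat.totient d : ℝ) = fr d * d := by
    unfold fr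
    field_simp
  rw [h7]
  refine h4.trans ?_
  have h8 : (1 / ll) * (c1 / ll) ≤ kap d * fr d :=
    mul_le_mul h6 h5 (by positivity) (hk0.le.trans h6)
  have h9 : 4 * (d : ℝ) / l ≤ c * (((1 / ll) * (c1 / ll)) * d) := by
    have e : c * (((1 / ll) * (c1 / ll)) * d) = (c * c1 * d) / ll ^ 2 := by
      field_simp
    rw [e, div_le_div_iff₀ (by linarith) (by positivity)]
    have h10 : 4 * ll ^ 2 ≤ c * c1 * l := by
      rw [div_mul_eq_mul_div, div_le_iff₀ (by positivity)] at g1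
      linarith
    nlinarith
  calc 4 * (d : ℝ) / l ≤ c * (((1 / ll) * (c1 / ll)) * d) := h9
    _ ≤ c * ((kap d * fr d) * d) := by
        apply mul_le_mul_of_nonneg_left _ hc.le
        exact mul_le_mul_of_nonneg_right h8 hd0.le
    _ = _ := by ring

/-- the number of elements of `Sc X q b` -/
theorem card_Sc : ∃ X₀ : ℕ, ∀ X : ℕ, X₀ ≤ X → ∀ q : ℕ, 1 ≤ q → q ≤ X → ∀ b : ℕ, b < Wq X q →
    ((Sc X q b).card : ℝ) ≤ 2 * (fr q * (X : ℝ) / Wq X q) := by
  obtain ⟨X1, h1⟩ := eqIntq 1 1 (1 / 32) (by norm_num) le_rfl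
  have t1 : Tendsto (fun X : ℕ => Real.log (X : ℝ)) atTop atTop :=
    Real.tendsto_log_atTop.comp tendsto_natCast_atTop_atTop
  obtain ⟨X2, h2⟩ := eventually_atTop.1 (t1.eventually_ge_atTop 1)
  refine ⟨X1 + X2 + 2, fun X hX q hq hqX b hb => ?_⟩
  obtain ⟨Er, hE1, hE2⟩ := h1 X (by omega) q hq hqX b hb ∅ (fun p hp => by simp at hp)
  have hlog := h2 X (by omega)
  have hX0 : (0 : ℝ) < X := by exact_mod_cast (by omega : 0 < X)
  have hX1 : (1 : ℝ) ≤ X := by exact_mod_cast (by omega : 1 ≤ X)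
  have h3 := hE1.2.2 ∅ (empty_subset _) 0 (fun p hp => by simp at hp)
  have h4 : (Sc X q b).filter (fun n => ∀ p ∈ (∅ : Finset ℕ), n % p = 0 % p) = Sc X q b := by
    apply filter_true_of_mem
    intro n _ p hp
    simp at hp
  rw [h4, prod_empty, div_one] at h3
  have h5 : (∅ : Finset ℕ) ∈ (∅ : Finset ℕ).powerset.filter
      (fun D : Finset ℕ => ∏ p ∈ D, (p : ℝ) ≤ (X : ℝ) ^ (1 / 2 - 1 / 32 : ℝ)) := by
    rw [mem_filter]
    refine ⟨by simp, ?_⟩
    rw [prod_empty]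
    exact Real.one_le_rpow hX1 (by norm_num)
  have h6 := single_le_sum (f := fun D : Finset ℕ => ((1 : ℕ) : ℝ) ^ D.card * Er D)
    (fun D _ => mul_nonneg (by positivity) (hE1.2.1 D)) h5
  beta_reduce at h6
  rw [card_empty, pow_zero, one_mul] at h6
  have h7 := h6.trans hE2
  have hW : (0 : ℝ) < Wq X q := by exact_mod_cast Wq_pos X q
  have hfr := fr_pos hq
  have hΩ : 0 ≤ fr q * (X : ℝ) / Wq X q := by positivity
  have h8 : fr q * (X : ℝ) / Wq X q / Real.log X ^ 1 ≤ fr q * (X : ℝ) / Wq X q := by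
    rw [pow_one]
    exact div_le_self hΩ hlog
  have h9 := (abs_le.1 h3).2
  linarith

end Pool.Agent.H533.QA
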