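import Pool.Agent.H533.QA.InstA

/-!
Arbitrary sets of multipliers: averages over the classes modulo `Wq X q`.
-/

set_option autoImplicit false

open Finset Filter Topology

namespace Pool.Agent.H533.QA

open Pool.Agent.H361R2.PP
open Pool.Agent.H533.QM
open Pool.Agent.H533.QS

/-- the number of classes `b` for which a position is admissible -/
theorem card_cop (W y : ℕ) :
    ((range W).filter (fun b => (b + y).Coprime W)).card = Nat.totient W := by
  have h := Nat.filter_coprime_Ico_eq_totient W y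
  rw [← h]
  apply Finset.card_bij (fun b _ => b + y)
  · intro b hb
    rw [mem_filter, mem_range] at hb
    rw [mem_filter, mem_Ico]
    exact ⟨⟨by omega, by omega⟩, hb.2.symm⟩
  · intro b _ b' _ h
    omega
  · intro c hc
    rw [mem_filter, mem_Ico] at hc
    refine ⟨c - y, ?_, by omega⟩
    rw [mem_filter, mem_range]
    refine ⟨by omega, ?_⟩
    rw [Nat.sub_add_cancel hc.1.1]
    exact hc.2.symm

theorem sum_adm (X q : ℕ) (J : Finset ℕ) :
    ∑ b ∈ range (Wq X q), (adm X q b J).card = J.card * Nat.totient (Wq X q) := by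
  unfold adm
  simp only [card_filter]
  rw [sum_comm]
  have h : ∀ j ∈ J, ∑ b ∈ range (Wq X q), (if (b + j * q).Coprime (Wq X q) then 1 else 0) =
      Nat.totient (Wq X q) := by
    intro j _
    rw [← card_filter, card_cop]
  rw [sum_congr rfl h, sum_const, smul_eq_mul]

/-- there are many classes with many admissible positions -/
theorem many_b {X q : ℕ} {J : Finset ℕ} {ρ : ℝ} (hρ : 0 < ρ) (hL : 0 < Ls X q)
    (h1 : ρ * Ls X q ≤ J.card) (h2 : (J.card : ℝ) ≤ 2 * (ρ * Ls X q)) :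
    (Nat.totient (Wq X q) : ℝ) / 4 ≤ (((range (Wq X q)).filter (fun b =>
      ρ / 2 * lq X q ≤ ((adm X q b J).card : ℝ))).card : ℝ) := by
  have hW0 := Wq_pos X q
  have hWr : (0 : ℝ) < Wq X q := by exact_mod_cast hW0
  have hs : ∑ b ∈ range (Wq X q), ((adm X q b J).card : ℝ) =
      (J.card : ℝ) * Nat.totient (Wq X q) := by exact_mod_cast sum_adm X q J
  obtain ⟨G, hG⟩ : ∃ G, G = (range (Wq X q)).filter (fun b =>
      ρ / 2 * lq X q ≤ ((adm X q b J).card : ℝ)) := ⟨_, rfl⟩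
  rw [← hG]
  have hsplit := sum_filter_add_sum_filter_not (range (Wq X q)) (fun b =>
      ρ / 2 * lq X q ≤ ((adm X q b J).card : ℝ)) (fun b => ((adm X q b J).card : ℝ))
  rw [hs, ← hG] at hsplit
  have ha : ∑ b ∈ G, ((adm X q b J).card : ℝ) ≤ G.card * (2 * (ρ * Ls X q)) := by
    rw [← nsmul_eq_mul, ← sum_const]
    apply sum_le_sum
    intro b _
    refine le_trans ?_ h2
    exact_mod_cast card_le_card (filter_subset _ _)
  have hl0 : 0 ≤ lq X q := by
    unfold lq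
    have := phW_pos X q
    positivity
  have hb : ∑ b ∈ (range (Wq X q)).filter (fun b => ¬ ρ / 2 * lq X q ≤
      ((adm X q b J).card : ℝ)), ((adm X q b J).card : ℝ) ≤ Wq X q * (ρ / 2 * lq X q) := by
    calc _ ≤ ∑ b ∈ (range (Wq X q)).filter (fun b => ¬ ρ / 2 * lq X q ≤
          ((adm X q b J).card : ℝ)), ρ / 2 * lq X q := by
          apply sum_le_sum
          intro b hb
          rw [mem_filter, not_le] at hb
          exact hb.2.le
      _ ≤ ∑ b ∈ range (Wq X q), ρ / 2 * lq X q := by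
          apply sum_le_sum_of_subset_of_nonneg (filter_subset _ _)
          intro b _ _
          positivity
      _ = _ := by rw [sum_const, card_range, nsmul_eq_mul]
  have hlW : lq X q * Wq X q = Ls X q * Nat.totient (Wq X q) := by
    unfold lq
    field_simp
  have hkey : ρ * (Ls X q * Nat.totient (Wq X q)) ≤ G.card * (2 * (ρ * Ls X q)) +
      ρ / 2 * (Ls X q * Nat.totient (Wq X q)) := by
    calc ρ * (Ls X q * Nat.totient (Wq X q)) ≤ (J.card : ℝ) * Nat.totient (Wq X q) := by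
          rw [← mul_assoc]
          exact mul_le_mul_of_nonneg_right h1 (Nat.cast_nonneg _)
      _ ≤ G.card * (2 * (ρ * Ls X q)) + Wq X q * (ρ / 2 * lq X q) := by linarith
      _ = _ := by rw [← hlW]; ring
  have h3 : (ρ * Ls X q) * Nat.totient (Wq X q) ≤ (ρ * Ls X q) * (4 * G.card) := by nlinarith
  have h4 := le_of_mul_le_mul_left h3 (by positivity)
  linarith

open Classical in
/-- the sets may depend on the class -/
theorem instA2 (k m : ℕ) (ε Λ : ℝ) (hε : 0 < ε) (hεΛ : ε ≤ Λ) :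
    ∃ c : ℝ, 0 < c ∧ ∀ B : ℕ, ∃ X₀ : ℕ, ∀ X : ℕ, X₀ ≤ X → ∀ q : ℕ, 1 ≤ q → q ≤ X →
    ∀ J : ℕ → Finset ℕ, (∀ b, ∀ j ∈ J b, 1 ≤ j ∧ (j : ℝ) ≤ Real.log X ^ B) →
    ∀ AA : ℕ → Fin k → Finset ℕ, (∀ b i, AA b i ⊆ J b) → ∀ G ⊆ range (Wq X q),
    (∀ b ∈ G, ((adm X q b (J b)).card : ℝ) ≤ Λ * lq X q ∧
      ∀ i, ε * lq X q ≤ ((adm X q b (AA b i)).card : ℝ)) →
    c * (fr q * (X : ℝ) / Wq X q) * (G.card : ℝ) ≤
      (((Ico X (2 * X)).filter (fun n => n.Coprime q ∧ n % Wq X q ∈ G ∧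
        GoodJ m (AA (n % Wq X q)) (J (n % Wq X q)) q n)).card : ℝ) := by
  obtain ⟨c, hc, H⟩ := instA1 k m ε Λ hε hεΛ
  refine ⟨c, hc, fun B => ?_⟩
  obtain ⟨X₀, h⟩ := H B
  refine ⟨X₀, fun X hX q hq hqX J hJ AA hAJ G hGW hG => ?_⟩
  have hW0 := Wq_pos X q
  obtain ⟨F, hF⟩ : ∃ F, F = (Ico X (2 * X)).filter (fun n => n.Coprime q ∧ n % Wq X q ∈ G ∧
        GoodJ m (AA (n % Wq X q)) (J (n % Wq X q)) q n) := ⟨_, rfl⟩
  rw [← hF]
  have h1 : ∑ b ∈ G, ((F.filter (fun n => n % Wq X q = b)).card : ℝ) ≤ F.card := by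
    have h2 := Finset.sum_card_fiberwise_eq_card_filter F G (fun n => n % Wq X q)
    have h3 := card_filter_le F (fun n => n % Wq X q ∈ G)
    rw [← h2] at h3
    exact_mod_cast h3
  refine le_trans ?_ h1
  rw [mul_comm, ← nsmul_eq_mul, ← sum_const]
  apply sum_le_sum
  intro b hb
  have hbW := mem_range.1 (hGW hb)
  refine (h X hX q hq hqX (J b) (hJ b) b hbW (hG b hb).1 (AA b) (hAJ b) (hG b hb).2).trans
    (Nat.cast_le.2 (card_le_card ?_))
  intro n hn
  rw [mem_filter, mem_Sc] at hn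
  rw [hF, mem_filter, mem_filter, mem_Ico]
  refine ⟨⟨hn.1.1, hn.1.2.2, ?_, ?_⟩, hn.1.2.1⟩
  · rw [hn.1.2.1]; exact hb
  · rw [hn.1.2.1]; exact hn.2

open Classical in
/-- **Arbitrary sets of multipliers** -/
theorem arb (m : ℕ) (ρ Λ : ℝ) (hρ : 0 < ρ) (hΛ : 0 < Λ) :
    ∃ c : ℝ, 0 < c ∧ ∀ B : ℕ, ∃ X₀ : ℕ, ∀ X : ℕ, X₀ ≤ X → ∀ q : ℕ, 1 ≤ q → q ≤ X →
    ∀ J : Finset ℕ, (∀ j ∈ J, 1 ≤ j ∧ (j : ℝ) ≤ Real.log X ^ B) → ρ * Ls X q ≤ J.card →
    c * ((Nat.totient (Wq X q) : ℝ) / Wq X q) * (fr q * X) ≤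
      (((Ico X (2 * X)).filter (fun n => n.Coprime q ∧
        m ≤ (J.filter (fun j => (n + j * q).Prime)).card ∧
        ∀ j ∈ Icc 1 ⌊Λ * Ls X q⌋₊, (n + j * q).Prime → j ∈ J)).card : ℝ) := by
  obtain ⟨c, hc, H⟩ := instA2 1 m (ρ / 4) (ρ / 2 + 2 * Λ) (by positivity) (by linarith)
  refine ⟨c / 4, by positivity, fun B => ?_⟩
  obtain ⟨X1, h1⟩ := H (B + 2)
  obtain ⟨X2, h2⟩ := card_Jq_le 1 Λ one_pos hΛ
  obtain ⟨X3, h3⟩ := lq_big (4 / ρ + 1)
  have t1 : Tendsto (fun X : ℕ => Real.log (X : ℝ)) atTop atTop :=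
    Real.tendsto_log_atTop.comp tendsto_natCast_atTop_atTop
  obtain ⟨X4, h4⟩ := eventually_atTop.1 (t1.eventually_ge_atTop (Λ + 1))
  refine ⟨X1 + X2 + X3 + X4 + 2, fun X hX q hq hqX J hJ hJc => ?_⟩
  have hlog := h4 X (by omega)
  have hlog1 : 1 ≤ Real.log X := by linarith
  have hbig := h3 X (by omega) q hq hqX
  have hl0 : 0 < lq X q := lt_of_lt_of_le (by positivity) hbig
  have hW0 := Wq_pos X q
  have hWr : (0 : ℝ) < Wq X q := by exact_mod_cast hW0
  have hφ1 := phW_le_one X q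
  have hL : 0 < Ls X q := by
    by_contra hcon
    rw [not_lt] at hcon
    have hL0 := Ls_nonneg (X := X) hq
    have : Ls X q = 0 := le_antisymm hcon hL0
    unfold lq at hl0
    rw [this, zero_mul] at hl0
    exact lt_irrefl _ hl0
  have hlL : lq X q ≤ Ls X q := by
    unfold lq
    calc _ ≤ Ls X q * 1 := mul_le_mul_of_nonneg_left hφ1 hL.le
      _ = _ := mul_one _
  have hρl : 4 ≤ ρ * lq X q := by
    have : 4 / ρ ≤ lq X q := by linarith
    rw [div_le_iff₀ hρ] at this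
    linarith
  -- a subset of the right size
  obtain ⟨J', hJ'1, hJ'2⟩ := exists_subset_card_eq (Nat.ceil_le.2 hJc)
  have hc1 : ρ * Ls X q ≤ J'.card := by rw [hJ'2]; exact Nat.le_ceil _
  have hc2 : (J'.card : ℝ) ≤ 2 * (ρ * Ls X q) := by
    rw [hJ'2]
    have := Nat.ceil_lt_add_one (show 0 ≤ ρ * Ls X q by positivity)
    nlinarith
  have hmany := many_b hρ hL hc1 hc2
  obtain ⟨G, hG⟩ : ∃ G, G = (range (Wq X q)).filter (fun b =>
      ρ / 2 * lq X q ≤ ((adm X q b J').card : ℝ)) := ⟨_, rfl⟩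
  rw [← hG] at hmany
  -- the subset in each class
  have hsub : ∀ b, ∃ T ⊆ adm X q b J', ((T.card : ℕ) : ℝ) ≤ ρ / 2 * lq X q ∧
      (b ∈ G → ρ / 4 * lq X q ≤ T.card) := by
    intro b
    by_cases hb : b ∈ G
    · rw [hG, mem_filter] at hb
      obtain ⟨T, hT1, hT2⟩ := exists_subset_card_eq
        (show ⌈ρ / 4 * lq X q⌉₊ ≤ (adm X q b J').card by
          apply Nat.ceil_le.2
          refine le_trans ?_ hb.2
          nlinarith)
      refine ⟨T, hT1, ?_, fun _ => by rw [hT2]; exact Nat.le_ceil _⟩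
      rw [hT2]
      have := Nat.ceil_lt_add_one (show 0 ≤ ρ / 4 * lq X q by positivity)
      nlinarith
    · refine ⟨∅, empty_subset _, ?_, fun h => absurd h hb⟩
      rw [card_empty]
      push_cast
      positivity
  choose T hT1 hT2 hT3 using hsub
  have hTadm : ∀ b, adm X q b (T b) = T b := by
    intro b
    unfold adm
    apply filter_true_of_mem
    intro j hj
    exact (mem_adm.1 (hT1 b hj)).2
  have hTJ : ∀ b, T b ⊆ J := fun b j hj => hJ'1 (mem_adm.1 (hT1 b hj)).1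
  obtain ⟨V, hV⟩ : ∃ V, V = (Icc 1 ⌊Λ * Ls X q⌋₊).filter (fun j => j ∉ J) := ⟨_, rfl⟩
  have hres := h1 X (by omega) q hq hqX (fun b => T b ∪ V) (fun b j hj => by
      rw [mem_union] at hj
      rcases hj with hj | hj
      · obtain ⟨g1, g2⟩ := hJ j (hTJ b hj)
        exact ⟨g1, g2.trans (pow_le_pow_right₀ hlog1 (by omega))⟩
      · rw [hV, mem_filter, mem_Icc] at hj
        refine ⟨hj.1.1, ?_⟩
        have g1 : (j : ℝ) ≤ Λ * Ls X q := (Nat.le_floor_iff (by positivity)).1 hj.1.2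
        have g2 : Λ * Ls X q ≤ Λ * Real.log X := mul_le_mul_of_nonneg_left Ls_le hΛ.le
        calc (j : ℝ) ≤ Λ * Real.log X := g1.trans g2
          _ ≤ Real.log X * Real.log X := mul_le_mul_of_nonneg_right (by linarith) (by linarith)
          _ = Real.log X ^ 2 := by ring
          _ ≤ Real.log X ^ (B + 2) := pow_le_pow_right₀ hlog1 (by omega))
    (fun b _ => T b) (fun b _ => subset_union_left) G (by rw [hG]; exact filter_subset _ _)
    (fun b hb => by
      refine ⟨?_, fun _ => by rw [hTadm]; exact hT3 b hb⟩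
      have g1 : adm X q b (T b ∪ V) ⊆ T b ∪ Jq X q b ⌊Λ * Ls X q⌋₊ := by
        intro j hj
        rw [mem_adm, mem_union] at hj
        rw [mem_union]
        rcases hj.1 with h | h
        · exact Or.inl h
        · right
          unfold Jq
          rw [hV, mem_filter] at h
          exact mem_filter.2 ⟨h.1, hj.2⟩
      have g2 := card_le_card g1
      have g3 := g2.trans (card_union_le _ _)
      have g4 : ((adm X q b (T b ∪ V)).card : ℝ) ≤ (T b).card +
          (Jq X q b ⌊Λ * Ls X q⌋₊).card := by exact_mod_cast g3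
      have g5 := h2 X (by omega) q hq hqX b
      have g6 := hT2 b
      refine g4.trans ?_
      unfold lq at g6 ⊢
      linarith)
  have hfin : c / 4 * ((Nat.totient (Wq X q) : ℝ) / Wq X q) * (fr q * X) ≤
      c * (fr q * (X : ℝ) / Wq X q) * (G.card : ℝ) := by
    have hfr := fr_pos hq
    calc c / 4 * ((Nat.totient (Wq X q) : ℝ) / Wq X q) * (fr q * X) =
          c * (fr q * (X : ℝ) / Wq X q) * ((Nat.totient (Wq X q) : ℝ) / 4) := by ring
      _ ≤ _ := mul_le_mul_of_nonneg_left hmany (by positivity)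
  refine hfin.trans (hres.trans (Nat.cast_le.2 (card_le_card ?_)))
  intro n hn
  rw [mem_filter] at hn ⊢
  obtain ⟨hn1, hn2, -, hn3, hn4⟩ := hn
  refine ⟨hn1, hn2, ?_, ?_⟩
  · beta_reduce at hn3
    by_contra hcon
    rw [filter_false_of_mem (fun i _ h => hcon
      (h.trans (card_le_card (filter_subset_filter _ (hTJ _)))))] at hn3
    simp at hn3
  · intro j hj hp
    by_contra hcon
    obtain ⟨i, hi⟩ := hn4 j (mem_union_right _ (by rw [hV]; exact mem_filter.2 ⟨hj, hcon⟩)) hp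
    exact hcon (hTJ _ hi)

end Pool.Agent.H533.QA
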