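import Pool.Agent.H533.QA.ArbM
import Pool.Agent.H533.QA.Ar1
import Pool.Graph.R_pool_sql_team_seeded_63374d34.N837.LP.Tot

/-!
Arbitrary sets of multipliers with a bounded second moment: the classes modulo `d`.
-/

set_option autoImplicit false

open Finset Filter Topology

namespace Pool.Agent.H533.QA

open Pool.Agent.H361R2.PP
open Pool.Agent.H533.QM

/-- the set without `0` and `1`, moved by one -/
def mv (J : Finset ℕ) : Finset ℕ := (J.filter (fun j => 2 ≤ j)).image (fun j => j - 1)

theorem mem_mv {J : Finset ℕ} {i : ℕ} : i ∈ mv J ↔ 1 ≤ i ∧ i + 1 ∈ J := by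
  unfold mv
  rw [mem_image]
  constructor
  · rintro ⟨j, hj, rfl⟩
    rw [mem_filter] at hj
    refine ⟨by omega, ?_⟩
    have : j - 1 + 1 = j := by omega
    rw [this]
    exact hj.1
  · rintro ⟨h1, h2⟩
    exact ⟨i + 1, mem_filter.2 ⟨h2, by omega⟩, by omega⟩

theorem mv_inj (J : Finset ℕ) :
    Set.InjOn (fun j : ℕ => j - 1) ((J.filter (fun j => 2 ≤ j) : Finset ℕ) : Set ℕ) := by
  intro i hi j hj h
  rw [mem_coe, mem_filter] at hi hj
  have : i - 1 = j - 1 := h
  omega

theorem card_mv_le (J : Finset ℕ) : (mv J).card ≤ J.card := by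
  unfold mv
  exact card_image_le.trans (card_filter_le _ _)

theorem le_card_mv (J : Finset ℕ) : J.card ≤ (mv J).card + 2 := by
  have g1 : (mv J).card = (J.filter (fun j => 2 ≤ j)).card := by
    unfold mv
    exact card_image_of_injOn (mv_inj J)
  have g2 := card_filter_add_card_filter_not (s := J) (fun j => 2 ≤ j)
  have g3 : (J.filter (fun j => ¬ 2 ≤ j)).card ≤ 2 := by
    have : J.filter (fun j => ¬ 2 ≤ j) ⊆ range 2 := by
      intro j hj
      rw [mem_filter] at hj
      rw [mem_range]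
      omega
    simpa using card_le_card this
  omega

theorem pairs_mono {A A' : Finset ℕ} (h : A ⊆ A') : pairs A ≤ pairs A' := by
  unfold pairs
  calc ∑ i ∈ A, ∑ j ∈ A.filter (fun j => i < j), (((j - i : ℕ) : ℝ) / Nat.totient (j - i)) ≤
        ∑ i ∈ A, ∑ j ∈ A'.filter (fun j => i < j), (((j - i : ℕ) : ℝ) / Nat.totient (j - i)) := by
        apply sum_le_sum
        intro i _
        apply sum_le_sum_of_subset_of_nonneg (filter_subset_filter _ h)
        intro j _ _
        positivity
    _ ≤ _ := by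
        apply sum_le_sum_of_subset_of_nonneg h
        intro i _ _
        exact sum_nonneg fun j _ => by positivity

theorem pairs_mv (A : Finset ℕ) : pairs (mv A) ≤ pairs A := by
  refine le_trans (le_of_eq ?_) (pairs_mono (filter_subset (fun j => 2 ≤ j) A))
  obtain ⟨S, hS⟩ : ∃ S, S = A.filter (fun j => 2 ≤ j) := ⟨_, rfl⟩
  have hS2 : ∀ j ∈ S, 2 ≤ j := fun j hj => by rw [hS, mem_filter] at hj; exact hj.2
  have hinj : Set.InjOn (fun j : ℕ => j - 1) (S : Set ℕ) := by rw [hS]; exact mv_inj A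
  have hmv : mv A = S.image (fun j => j - 1) := by rw [hS]; rfl
  rw [← hS, hmv]
  unfold pairs
  rw [sum_image hinj]
  apply sum_congr rfl
  intro i hi
  have h1 := hS2 i hi
  have h2 : (S.image (fun j => j - 1)).filter (fun j => i - 1 < j) =
      (S.filter (fun j => i < j)).image (fun j => j - 1) := by
    ext r
    simp only [mem_filter, mem_image]
    constructor
    · rintro ⟨⟨j, hj, rfl⟩, h3⟩
      exact ⟨j, ⟨hj, by omega⟩, rfl⟩
    · rintro ⟨j, ⟨hj, h3⟩, rfl⟩
      have := hS2 j hj
      exact ⟨⟨j, hj, rfl⟩, by omega⟩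
  rw [h2, sum_image (hinj.mono (by
    intro j hj
    rw [mem_coe, mem_filter] at hj
    exact hj.1))]
  apply sum_congr rfl
  intro j hj
  rw [mem_filter] at hj
  have h3 := hS2 j hj.1
  have h4 : j - 1 - (i - 1) = j - i := by omega
  rw [h4]

/-- pairs inside an interval -/
theorem pairs_interval (A : Finset ℕ) (y H : ℕ) (h : ∀ j ∈ A, y ≤ j ∧ j ≤ y + H) :
    pairs A ≤ (A.card : ℝ) * (4 * H) := by
  unfold pairs
  rw [← nsmul_eq_mul, ← sum_const]
  apply sum_le_sum
  intro i hi
  calc ∑ j ∈ A.filter (fun j => i < j), (((j - i : ℕ) : ℝ) / Nat.totient (j - i)) =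
        ∑ k ∈ (A.filter (fun j => i < j)).image (fun j => j - i), ((k : ℝ) / Nat.totient k) := by
        rw [sum_image]
        intro j hj j' hj' h5
        rw [mem_coe, mem_filter] at hj hj'
        have : j - i = j' - i := h5
        omega
    _ ≤ ∑ k ∈ Icc 1 H, ((k : ℝ) / Nat.totient k) := by
        apply sum_le_sum_of_subset_of_nonneg
        · intro k hk
          rw [mem_image] at hk
          obtain ⟨j, hj, rfl⟩ := hk
          rw [mem_filter] at hj
          have h1 := h i hi
          have h2 := h j hj.1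
          rw [mem_Icc]
          omega
        · intro k _ _
          positivity
    _ ≤ _ := Pool.Agent.N837.LP.sum_div_totient H

/-- `a` is prime to `d`, at least `m` of the `a + j d`, `j ∈ A`, are prime, and no `a + j d` with `j ∈ J`,
`j ∉ A`, is prime -/
def GoodC (m : ℕ) (A J : Finset ℕ) (d a : ℕ) : Prop :=
  a.Coprime d ∧ m ≤ (A.filter (fun j => (a + j * d).Prime)).card ∧
    ∀ j ∈ J, (a + j * d).Prime → j ∈ A

open Classical in
/-- from the integers in `[d, 2 d)` to the classes -/
theorem to_classes (m d : ℕ) (A J : Finset ℕ) :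
    ((Ico d (2 * d)).filter (fun n => n.Coprime d ∧
        m ≤ ((mv A).filter (fun j => (n + j * d).Prime)).card ∧
        ∀ j ∈ mv J, (n + j * d).Prime → j ∈ mv A)).card ≤
      ((range d).filter (fun a => GoodC m A J d a)).card +
        ((range (2 * d)).filter Nat.Prime).card := by
  obtain ⟨G, hG⟩ : ∃ G, G = (range d).filter (fun a => GoodC m A J d a) := ⟨_, rfl⟩
  rw [← hG]
  have hinj : ((Ico d (2 * d)).filter (fun n => n.Coprime d ∧
        m ≤ ((mv A).filter (fun j => (n + j * d).Prime)).card ∧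
        ∀ j ∈ mv J, (n + j * d).Prime → j ∈ mv A)).card =
      (((Ico d (2 * d)).filter (fun n => n.Coprime d ∧
        m ≤ ((mv A).filter (fun j => (n + j * d).Prime)).card ∧
        ∀ j ∈ mv J, (n + j * d).Prime → j ∈ mv A)).image (fun n => n - d)).card := by
    rw [card_image_of_injOn]
    intro n hn n' hn' h
    rw [mem_coe, mem_filter, mem_Ico] at hn hn'
    have : n - d = n' - d := h
    omega
  rw [hinj]
  have hE : (((range d).filter (fun a => a.Prime ∨ (a + d).Prime)).card) ≤
      ((range (2 * d)).filter Nat.Prime).card := by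
    apply card_le_card_of_injOn (fun a : ℕ => (if a.Prime then a else a + d : ℕ))
    · intro a ha
      rw [mem_coe, mem_filter, mem_range] at ha
      rw [mem_coe, mem_filter, mem_range]
      beta_reduce
      split_ifs with h
      · exact ⟨by omega, h⟩
      · exact ⟨by omega, ha.2.resolve_left h⟩
    · intro a ha a' ha' h
      rw [mem_coe, mem_filter, mem_range] at ha ha'
      beta_reduce at h
      split_ifs at h <;> omega
  refine le_trans (card_le_card (t := G ∪ (range d).filter (fun a => a.Prime ∨ (a + d).Prime))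
    ?_) ((card_union_le _ _).trans (by omega))
  intro a ha
  rw [mem_image] at ha
  obtain ⟨n, hn, rfl⟩ := ha
  rw [mem_filter, mem_Ico] at hn
  obtain ⟨⟨hn1, hn2⟩, hn3, hn4, hn5⟩ := hn
  obtain ⟨a, rfl⟩ : ∃ a, n = a + d := ⟨n - d, by omega⟩
  have hsub : a + d - d = a := by omega
  rw [hsub, mem_union]
  by_cases hex : a.Prime ∨ (a + d).Prime
  · right
    rw [mem_filter, mem_range]
    exact ⟨by omega, hex⟩
  left
  push Not at hex
  rw [hG, mem_filter, mem_range]
  refine ⟨by omega, by rwa [Nat.coprime_add_self_left] at hn3, ?_, ?_⟩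
  · refine hn4.trans ?_
    apply card_le_card_of_injOn (fun j : ℕ => j + 1)
    · intro j hj
      rw [mem_coe, mem_filter, mem_mv] at hj
      rw [mem_coe, mem_filter]
      refine ⟨hj.1.2, ?_⟩
      have e2 : a + (j + 1) * d = a + d + j * d := by ring
      rw [e2]
      exact hj.2
    · intro i _ j _ h
      have : i + 1 = j + 1 := h
      omega
  · intro j hj hpj
    have hj2 : 2 ≤ j := by
      by_contra hcon
      have h10 : j = 0 ∨ j = 1 := by omega
      rcases h10 with h | h
      · rw [h, zero_mul, add_zero] at hpj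
        exact hex.1 hpj
      · rw [h, one_mul] at hpj
        exact hex.2 hpj
    obtain ⟨i, rfl⟩ : ∃ i, j = i + 1 := ⟨j - 1, by omega⟩
    have g1 := hn5 i (mem_mv.2 ⟨by omega, hj⟩) (by
      have e2 : a + d + i * d = a + (i + 1) * d := by ring
      rw [e2]
      exact hpj)
    exact (mem_mv.1 g1).2

open Classical in
/-- **Arbitrary sets of multipliers with a bounded second moment: classes modulo `d`** -/
theorem arbMc (m : ℕ) (ρ Λ C : ℝ) (hρ : 0 < ρ) (hΛ : 0 < Λ) (hC : 0 < C) :
    ∃ c : ℝ, 0 < c ∧ ∀ B : ℕ, ∃ d₀ : ℕ, ∀ d : ℕ, d₀ ≤ d →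
    ∀ A J : Finset ℕ, A ⊆ J → (∀ j ∈ J, (j : ℝ) ≤ Real.log d ^ B) →
    ρ * Ls d d ≤ A.card → (J.card : ℝ) ≤ Λ * Ls d d → pairs A ≤ C * (A.card : ℝ) ^ 2 →
    c * (Nat.totient d : ℝ) ≤ (((range d).filter (fun a => GoodC m A J d a)).card : ℝ) := by
  obtain ⟨c, hc, H⟩ := arbM m (ρ / 2) Λ (4 * C) (by positivity) hΛ (by positivity)
  refine ⟨c / 2, by positivity, fun B => ?_⟩
  obtain ⟨X1, h1⟩ := H B
  obtain ⟨X2, h2⟩ := pi_kap (c / 2) (by positivity)
  obtain ⟨X3, h3⟩ := L_big (4 / ρ)
  refine ⟨X1 + X2 + X3 + 2, fun d hd A J hAJ hJ hA hJc hpA => ?_⟩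
  have hd0 : (0 : ℝ) < d := by exact_mod_cast (by omega : 0 < d)
  obtain ⟨hll, hp⟩ := h2 d (by omega)
  have hbig : 4 / ρ ≤ Ls d d := by
    refine le_trans ?_ (h3 d (by omega) d (by omega) le_rfl)
    have hW : (1 : ℝ) ≤ Wq d d := by exact_mod_cast Wq_pos d d
    have : 0 < 4 / ρ := by positivity
    exact le_mul_of_one_le_right this.le (one_le_pow₀ hW)
  have hL2 : 2 ≤ ρ / 2 * Ls d d := by
    rw [div_le_iff₀ hρ] at hbig
    linarith
  have hcA : (A.card : ℝ) ≤ (mv A).card + 2 := by exact_mod_cast le_card_mv A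
  have hA4 : 4 ≤ (A.card : ℝ) := by linarith
  have hres := h1 d (by omega) d (by omega) le_rfl (mv A) (mv J)
    (fun i hi => by rw [mem_mv] at hi ⊢; exact ⟨hi.1, hAJ hi.2⟩)
    (fun j hj => by
      rw [mem_mv] at hj
      refine ⟨hj.1, le_trans ?_ (hJ _ hj.2)⟩
      push_cast
      linarith)
    (by linarith)
    (by
      refine le_trans ?_ hJc
      exact_mod_cast card_mv_le J)
    (by
      refine (pairs_mv A).trans (hpA.trans ?_)
      have h5 : (A.card : ℝ) ^ 2 ≤ 4 * ((mv A).card : ℝ) ^ 2 := by nlinarith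
      calc C * (A.card : ℝ) ^ 2 ≤ C * (4 * ((mv A).card : ℝ) ^ 2) :=
            mul_le_mul_of_nonneg_left h5 hC.le
        _ = _ := by ring)
  have h6 : fr d * d = (Nat.totient d : ℝ) := by
    unfold fr
    field_simp
  rw [h6] at hres
  have h7 : (((Ico d (2 * d)).filter (fun n => n.Coprime d ∧
        m ≤ ((mv A).filter (fun j => (n + j * d).Prime)).card ∧
        ∀ j ∈ mv J, (n + j * d).Prime → j ∈ mv A)).card : ℝ) ≤
      (((range d).filter (fun a => GoodC m A J d a)).card : ℝ) +
        (((range (2 * d)).filter Nat.Prime).card : ℝ) := by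
    exact_mod_cast to_classes m d A J
  have hk : kap d ≤ 1 := (kap_le (by linarith)).trans (phW_le_one d d)
  have hφ : (0 : ℝ) ≤ Nat.totient d := Nat.cast_nonneg _
  have h8 : kap d * (Nat.totient d : ℝ) ≤ Nat.totient d := by
    calc _ ≤ 1 * (Nat.totient d : ℝ) := mul_le_mul_of_nonneg_right hk hφ
      _ = _ := one_mul _
  have h9 : c / 2 * (kap d * (Nat.totient d : ℝ)) ≤ c / 2 * (Nat.totient d : ℝ) :=
    mul_le_mul_of_nonneg_left h8 (by positivity)
  linarith

end Pool.Agent.H533.QA
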