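import Pool.Agent.H533.QS.Cls

/-!
Arbitrary sets of positions up to a power of the logarithm: the total local deviation, and the number
of primes in the intervals `[X + y, 2X + y)` with `y ≤ X (log X) ^ B`.
-/

set_option autoImplicit false

open Finset Filter Topology

namespace Pool.Agent.H533.QA

open Pool.Agent.H361R2.PP
open Pool.Agent.H410R2
open Pool.Agent.H533.QM
open Pool.Agent.H442R2.EHI

/-- positions up to `(log X) ^ B` -/
theorem sm2B (k B : ℕ) (s : ℝ) (hs : 0 < s) : ∃ X₀ : ℕ, ∀ X : ℕ, X₀ ≤ X →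
    ∀ P : Finset ℕ, (∀ p ∈ P, p.Prime ∧ HH X < p) →
    ∀ U : Finset ℕ, U.card ≤ k →
    (∀ a ∈ U, 1 ≤ a ∧ (a : ℝ) ≤ Real.log X ^ B) → ∀ o : Option ℕ,
    (∀ a ∈ o, 1 ≤ a ∧ (a : ℝ) ≤ Real.log X ^ B ∧ a ∉ U) →
    EN.dl (ee o) rho P U ≤ s := by
  set L : ℝ := (B : ℝ) with hL
  set C1 : ℝ := (k : ℝ) * (k + 1) with hC1
  have hC10 : 0 ≤ C1 := by positivity
  have hL0 : 0 ≤ L := Nat.cast_nonneg B
  -- choice of H0
  obtain ⟨H0, hH0⟩ := exists_nat_ge (max 2 (max (4 / s) (Real.exp (2 * C1 * (8 * L + 8) / s))))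
  obtain ⟨X₀, hX₀⟩ := exists_nat_ge (Real.exp (Real.exp (4 * (H0 : ℝ))))
  refine ⟨X₀, fun X hX P hP U hU hUa o ho => ?_⟩
  have hXr : Real.exp (Real.exp (4 * (H0 : ℝ))) ≤ X := hX₀.trans (by exact_mod_cast hX)
  have hlogX : Real.exp (4 * (H0 : ℝ)) ≤ Real.log X := by
    have := Real.log_le_log (Real.exp_pos _) hXr
    rwa [Real.log_exp] at this
  have hllX : 4 * (H0 : ℝ) ≤ Real.log (Real.log X) := by
    have := Real.log_le_log (Real.exp_pos _) hlogX
    rwa [Real.log_exp] at this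
  have hHH : H0 ≤ HH X := by
    unfold HH
    apply Nat.le_floor
    linarith
  set H := HH X with hH
  have hH0r : (H0 : ℝ) ≤ H := by exact_mod_cast hHH
  have m1 : (2 : ℝ) ≤ H0 := (le_max_left _ _).trans hH0
  have m2 : 4 / s ≤ H0 := (le_max_left _ _).trans ((le_max_right _ _).trans hH0)
  have m3 : Real.exp (2 * C1 * (8 * L + 8) / s) ≤ H0 :=
    (le_max_right _ _).trans ((le_max_right _ _).trans hH0)
  have hH2 : 2 ≤ H := by
    have : (2 : ℝ) ≤ H := m1.trans hH0r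
    exact_mod_cast this
  have hHr : (2 : ℝ) ≤ H := by exact_mod_cast hH2
  have hllup : Real.log (Real.log X) ≤ 4 * ((H : ℝ) + 1) := by
    have := Nat.lt_floor_add_one (Real.log (Real.log X) / 4)
    have h2 : ((⌊Real.log (Real.log X) / 4⌋₊ : ℕ) : ℝ) = H := rfl
    rw [h2] at this
    linarith
  have hlogXpos : 0 < Real.log X := lt_of_lt_of_le (Real.exp_pos _) hlogX
  have hLY : Real.log (Real.log X ^ B) ≤ L * (4 * ((H : ℝ) + 1)) := by
    rw [Real.log_pow]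
    exact mul_le_mul_of_nonneg_left hllup hL0
  have h1 := Pool.Agent.H804R2.PPSm2.main H k hH2 P U (Real.log X ^ B) o hP hU hUa ho
    (L * (4 * ((H : ℝ) + 1))) hLY (by positivity)
  refine h1.trans ?_
  have hlog : 0 < Real.log ((H : ℝ) + 1) := Real.log_pos (by linarith)
  have h2 : 2 / (H : ℝ) ≤ s / 2 := by
    rw [div_le_iff₀ (by linarith)]
    have h3 : 4 / s ≤ H := m2.trans hH0r
    rw [div_le_iff₀ hs] at h3
    linarith
  have h3 : (L * (4 * ((H : ℝ) + 1))) / Real.log ((H : ℝ) + 1) / H ≤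
      (8 * L + 8) / Real.log ((H : ℝ) + 1) := by
    rw [div_right_comm]
    refine div_le_div_of_nonneg_right ?_ hlog.le
    rw [div_le_iff₀ (by linarith)]
    nlinarith [mul_nonneg hL0 (by linarith : (0 : ℝ) ≤ H - 1)]
  have h4 : 2 * C1 * (8 * L + 8) / s ≤ Real.log ((H : ℝ) + 1) := by
    rw [Real.le_log_iff_exp_le (by linarith)]
    linarith
  have h5 : C1 * ((8 * L + 8) / Real.log ((H : ℝ) + 1)) ≤ s / 2 := by
    rw [← mul_div_assoc, div_le_iff₀ hlog]
    rw [div_le_iff₀ hs] at h4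
    linarith
  have h6 := mul_le_mul_of_nonneg_left h3 hC10
  linarith

/-- a set of positions in which the pairs of positions have few common local classes -/
def Sep (N : ℕ) (d : ℝ) (X q : ℕ) (PB : Finset ℕ) : Prop :=
  ∀ P : Finset ℕ, (∀ p ∈ P, p.Prime ∧ HH X < p ∧ ¬ p ∣ q) → ∀ U ⊆ PB, U.card ≤ N →
    ∀ o : Option ℕ, (∀ a ∈ o, a ∈ PB ∧ a ∉ U) → EN.dl (ee o) rho P U ≤ d

/-- shifts up to `(log X) ^ B` -/
theorem sep_small (N B : ℕ) (d : ℝ) (hd : 0 < d) : ∃ X₀ : ℕ, ∀ X : ℕ, X₀ ≤ X → ∀ q : ℕ,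
    ∀ PB : Finset ℕ, (∀ a ∈ PB, 1 ≤ a ∧ (a : ℝ) ≤ Real.log X ^ B) → Sep N d X q PB := by
  obtain ⟨X₀, h⟩ := sm2B N B d hd
  refine ⟨X₀, fun X hX q PB hPB P hP U hU hUc o ho => ?_⟩
  exact h X hX P (fun p hp => ⟨(hP p hp).1, (hP p hp).2.1⟩) U hUc (fun a ha => hPB a (hU ha)) o
    (fun a ha => ⟨(hPB a (ho a ha).1).1, (hPB a (ho a ha).1).2, (ho a ha).2⟩)

/-- multiples `j q` with `j ≤ (log X) ^ B` -/
theorem sep_mul (N B : ℕ) (d : ℝ) (hd : 0 < d) : ∃ X₀ : ℕ, ∀ X : ℕ, X₀ ≤ X → ∀ q : ℕ, 1 ≤ q →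
    ∀ PB : Finset ℕ, (∀ a ∈ PB, ∃ j : ℕ, 1 ≤ j ∧ (j : ℝ) ≤ Real.log X ^ B ∧ a = j * q) →
    Sep N d X q PB := by
  classical
  obtain ⟨X₀, h⟩ := sm2B N B d hd
  refine ⟨X₀, fun X hX q hq PB hPB P hP U hUP hU o ho => ?_⟩
  have hq0 : 0 < q := hq
  have hUj : ∀ a ∈ U, ∃ j : ℕ, 1 ≤ j ∧ (j : ℝ) ≤ Real.log X ^ B ∧ a = j * q :=
    fun a ha => hPB a (hUP ha)
  have hoj : ∀ a ∈ o, (∃ j : ℕ, 1 ≤ j ∧ (j : ℝ) ≤ Real.log X ^ B ∧ a = j * q) ∧ a ∉ U :=
    fun a ha => ⟨hPB a (ho a ha).1, (ho a ha).2⟩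
  have hU1 : ∀ a ∈ U, a / q * q = a := by
    intro a ha
    obtain ⟨j, -, -, rfl⟩ := hUj a ha
    rw [Nat.mul_div_cancel _ hq0]
  have ho1 : ∀ a ∈ o, a / q * q = a := by
    intro a ha
    obtain ⟨⟨j, -, -, rfl⟩, -⟩ := hoj a ha
    rw [Nat.mul_div_cancel _ hq0]
  have hmain := h X hX P (fun p hp => ⟨(hP p hp).1, (hP p hp).2.1⟩) (U.image (fun a => a / q))
    (card_image_le.trans hU) (by
      intro a ha
      rw [mem_image] at ha
      obtain ⟨a', ha', rfl⟩ := ha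
      obtain ⟨j, h1, h2, rfl⟩ := hUj a' ha'
      rw [Nat.mul_div_cancel _ hq0]
      exact ⟨h1, h2⟩) (o.map (fun a => a / q)) (by
      intro a ha
      rw [Option.mem_map] at ha
      obtain ⟨a', ha', rfl⟩ := ha
      obtain ⟨⟨j, h1, h2, hj⟩, h3⟩ := hoj a' ha'
      refine ⟨?_, ?_, ?_⟩
      · rw [hj, Nat.mul_div_cancel _ hq0]; exact h1
      · rw [hj, Nat.mul_div_cancel _ hq0]; exact h2
      · intro h4
        rw [mem_image] at h4
        obtain ⟨a'', h5, h6⟩ := h4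
        apply h3
        rw [← ho1 a' ha', ← h6, hU1 a'' h5]
        exact h5)
  refine le_trans ?_ hmain
  unfold EN.dl
  apply add_le_add le_rfl
  apply sum_le_sum_of_subset_of_nonneg
  · intro p hp
    rw [mem_filter] at hp ⊢
    have hpP := hP p hp.1
    refine ⟨hp.1, ?_⟩
    have hr : ∀ a ∈ U, ∀ b ∈ U, rho p a = rho p b → rho p (a / q) = rho p (b / q) := by
      intro a ha b hb h1
      rw [← hU1 a ha, ← hU1 b hb, rho_mul hpP.1 hpP.2.2] at h1
      exact h1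
    rcases hp.2 with ⟨a, ha, b, hb, h1, h2⟩ | ⟨a, ha, h1⟩
    · left
      refine ⟨a / q, mem_image_of_mem _ ha, b / q, mem_image_of_mem _ hb, ?_, hr a ha b hb h2⟩
      intro h3
      apply h1
      rw [← hU1 a ha, ← hU1 b hb, h3]
    · right
      refine ⟨a / q, mem_image_of_mem _ ha, ?_⟩
      rcases o with _ | y
      · exfalso
        have h3 : rho p a = p := h1
        have := rho_lt hpP.1.one_le a
        omega
      · simp only [Option.map_some, ee] at h1 ⊢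
        rw [← hU1 a ha, ← ho1 y rfl, rho_mul hpP.1 hpP.2.2] at h1
        exact h1
  · intro p hp _
    have h1 : (1 : ℝ) < p := by exact_mod_cast (hP p (mem_filter.1 hp).1).1.one_lt
    have : (0 : ℝ) < (p : ℝ) - 1 := by linarith
    positivity

/-- primes in `[X + y, 2X + y)`, uniformly for `y ≤ X (log X) ^ B` -/
theorem pntB (s : ℝ) (B : ℕ) (hs : 0 < s) : ∃ X₀ : ℕ, ∀ X : ℕ, X₀ ≤ X → ∀ y : ℕ,
    (y : ℝ) ≤ X * Real.log X ^ B →
    (1 - s) * X ≤ Real.log X * Pry X y ∧ Real.log X * Pry X y ≤ (1 + s) * X := by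
  wlog hs1 : s ≤ 1 / 2 with H
  · obtain ⟨X₀, h⟩ := H (1 / 2) B (by norm_num) le_rfl
    refine ⟨X₀, fun X hX y hy => ?_⟩
    obtain ⟨h1, h2⟩ := h X hX y hy
    have hX0 : (0 : ℝ) ≤ X := Nat.cast_nonneg X
    have h3 : 1 / 2 ≤ s := by linarith
    constructor
    · have : (1 - s) * (X : ℝ) ≤ (1 - 1 / 2) * X := mul_le_mul_of_nonneg_right (by linarith) hX0
      linarith
    · have : (1 + 1 / 2) * (X : ℝ) ≤ (1 + s) * X := mul_le_mul_of_nonneg_right (by linarith) hX0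
      linarith
  obtain ⟨C, hC, hth⟩ := PntErrAux.thetaU (B + 1)
  -- eventual conditions
  have t1 : Tendsto (fun x : ℝ => Real.log x) atTop atTop := Real.tendsto_log_atTop
  have e1 : ∀ᶠ x : ℝ in atTop, (3 * 2 ^ (B + 1) * C) / (s / 4) ≤ Real.log x :=
    t1.eventually_ge_atTop _
  have e2 : ∀ᶠ x : ℝ in atTop, (2 : ℝ) ≤ Real.log x := t1.eventually_ge_atTop _
  have e3 : ∀ᶠ x : ℝ in atTop, Real.log (3 * Real.log x ^ B) ≤ (s / 4) * Real.log x := by
    have hb := (Real.isLittleO_log_id_atTop.comp_tendsto t1).bound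
      (c := s / 8 / (B + 1)) (by positivity)
    have hb2 : ∀ᶠ x : ℝ in atTop, Real.log 3 / (s / 8) ≤ Real.log x := t1.eventually_ge_atTop _
    filter_upwards [hb, e2, hb2] with x hx hx2 hx3
    simp only [Function.comp, id] at hx
    have h1 := (le_abs_self _).trans hx
    rw [Real.norm_eq_abs, abs_of_nonneg (by positivity)] at h1
    rw [div_le_iff₀ (by positivity)] at hx3
    have hpos : 0 < Real.log x := by linarith
    rw [Real.log_mul (by norm_num) (by positivity), Real.log_pow]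
    have h2 : (B : ℝ) * Real.log (Real.log x) ≤ (s / 8) * Real.log x := by
      have hB0 : (0 : ℝ) ≤ B := Nat.cast_nonneg B
      calc (B : ℝ) * Real.log (Real.log x) ≤ B * (s / 8 / (B + 1) * Real.log x) :=
            mul_le_mul_of_nonneg_left h1 hB0
        _ = (B / (B + 1)) * (s / 8 * Real.log x) := by ring
        _ ≤ 1 * (s / 8 * Real.log x) := by
            apply mul_le_mul_of_nonneg_right _ (by positivity)
            rw [div_le_one (by positivity)]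
            linarith
        _ = _ := one_mul _
    linarith
  have e4 : ∀ᶠ x : ℝ in atTop, (8 : ℝ) ≤ x := eventually_ge_atTop 8
  obtain ⟨Y, hY⟩ := eventually_atTop.1 (e1.and (e2.and (e3.and e4)))
  refine ⟨⌈Y⌉₊, fun X hX y hy => ?_⟩
  obtain ⟨g1, g2, g3, g4⟩ := hY X ((Nat.le_ceil _).trans (by exact_mod_cast hX))
  have hX4 : 8 ≤ X := by exact_mod_cast g4
  have hX0 : (0 : ℝ) < X := by linarith
  set ℓ := Real.log X with hℓ
  have hℓ0 : 0 < ℓ := by linarith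
  have hℓB : (1 : ℝ) ≤ ℓ ^ B := one_le_pow₀ (by linarith)
  have hsum := theta_diff (X + y) (2 * X + y) (by omega) (by omega)
  set u := X + y with hu
  set v := 2 * X + y with hv
  have hsz : ∀ N : ℕ, N ≤ v → (N : ℝ) ≤ 3 * (X * ℓ ^ B) := by
    intro N h2
    have h4 : (N : ℝ) ≤ v := by exact_mod_cast h2
    have h5 : (v : ℝ) = 2 * X + y := by rw [hv]; push_cast; ring
    have h6 : (X : ℝ) ≤ X * ℓ ^ B := by nlinarith
    linarith
  -- bounds of theta
  have hbd : ∀ N : ℕ, X / 2 ≤ N → N ≤ v → |Chebyshev.theta (N : ℝ) - N| ≤ (s / 4) * X := by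
    intro N h1 h2
    have hN2 : 2 ≤ N := by omega
    refine (hth N hN2).trans ?_
    have hN0 : (0 : ℝ) < N := by exact_mod_cast (by omega : 0 < N)
    have h3 : (N : ℝ) ≤ 3 * (X * ℓ ^ B) := hsz N h2
    have h4 : ℓ / 2 ≤ Real.log N := by
      have h5 : (X : ℝ) ≤ (N : ℝ) ^ 2 := by
        have h6 : X ≤ N ^ 2 := by
          have h7 : X < 2 * N + 2 := by omega
          nlinarith
        exact_mod_cast h6
      have h6 := Real.log_le_log hX0 h5
      rw [Real.log_pow] at h6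
      push_cast at h6
      linarith
    have h5 : (N : ℝ) / Real.log N ^ (B + 1) ≤ (3 * (X * ℓ ^ B)) / (ℓ / 2) ^ (B + 1) := by
      apply div_le_div₀ (by positivity) h3 (by positivity)
      exact pow_le_pow_left₀ (by positivity) h4 (B + 1)
    have h6 : C * ((3 * (X * ℓ ^ B)) / (ℓ / 2) ^ (B + 1)) ≤ (s / 4) * X := by
      have h7 : C * ((3 * (X * ℓ ^ B)) / (ℓ / 2) ^ (B + 1)) = (3 * 2 ^ (B + 1) * C / ℓ) * X := by
        rw [div_pow, pow_succ ℓ B]
        field_simp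
      rw [h7]
      apply mul_le_mul_of_nonneg_right _ hX0.le
      rw [div_le_iff₀ hℓ0]
      rw [div_le_iff₀ (by positivity)] at g1
      linarith
    calc C * ((N : ℝ) / Real.log N ^ (B + 1)) ≤ C * ((3 * (X * ℓ ^ B)) / (ℓ / 2) ^ (B + 1)) :=
          mul_le_mul_of_nonneg_left h5 hC.le
      _ ≤ _ := h6
  have hb1 := abs_le.1 (hbd (v - 1) (by omega) (by omega))
  have hb2 := abs_le.1 (hbd (u - 1) (by omega) (by omega))
  have hcv : ((v - 1 : ℕ) : ℝ) - ((u - 1 : ℕ) : ℝ) = X := by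
    rw [Nat.cast_sub (by omega), Nat.cast_sub (by omega), hu, hv]
    push_cast
    ring
  have hlo : (1 - s / 2) * X ≤ ∑ p ∈ (Ico u v).filter Nat.Prime, Real.log p := by
    rw [hsum]; nlinarith [hb1.1, hb2.2]
  have hhi : ∑ p ∈ (Ico u v).filter Nat.Prime, Real.log p ≤ (1 + s / 2) * X := by
    rw [hsum]; nlinarith [hb1.2, hb2.1]
  have hP : Pry X y = (((Ico u v).filter Nat.Prime).card : ℝ) := rfl
  have hP0 : 0 ≤ Pry X y := by rw [hP]; positivity
  have hl1 : ℓ * Pry X y ≤ ∑ p ∈ (Ico u v).filter Nat.Prime, Real.log p := by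
    rw [hP, mul_comm, ← nsmul_eq_mul, ← sum_const]
    apply sum_le_sum
    intro p hp
    rw [mem_filter, mem_Ico] at hp
    rw [hℓ]
    apply Real.log_le_log hX0
    exact_mod_cast (by omega : X ≤ p)
  have hl2 : ∑ p ∈ (Ico u v).filter Nat.Prime, Real.log p ≤ ((1 + s / 4) * ℓ) * Pry X y := by
    rw [hP, mul_comm, ← nsmul_eq_mul, ← sum_const]
    apply sum_le_sum
    intro p hp
    rw [mem_filter, mem_Ico] at hp
    have hp0 : (0 : ℝ) < p := by exact_mod_cast (by omega : 0 < p)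
    have h1 : (p : ℝ) ≤ X * (3 * ℓ ^ B) := by
      have h2 := hsz p hp.1.2.le
      linarith
    have h2 := Real.log_le_log hp0 h1
    rw [Real.log_mul hX0.ne' (by positivity)] at h2
    linarith
  constructor
  · have h1 : (1 - s / 2) * X ≤ (1 + s / 4) * (ℓ * Pry X y) := by linarith
    have h2 : (1 - s) * (1 + s / 4) ≤ 1 - s / 2 := by nlinarith
    have h3 : (1 + s / 4) * ((1 - s) * X) ≤ (1 + s / 4) * (ℓ * Pry X y) := by
      refine le_trans ?_ h1
      calc (1 + s / 4) * ((1 - s) * X) = ((1 - s) * (1 + s / 4)) * X := by ring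
        _ ≤ _ := mul_le_mul_of_nonneg_right h2 hX0.le
    exact le_of_mul_le_mul_left h3 (by positivity)
  · have h1 : (1 + s / 2) * X ≤ (1 + s) * X := mul_le_mul_of_nonneg_right (by linarith) hX0.le
    linarith

end Pool.Agent.H533.QA
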