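import Pool.Agent.H533.QA.Gold

/-!
Goldbach representations with a small prime of an arbitrary set: the theorems.
-/

set_option autoImplicit false

open Finset Filter Topology

namespace Pool.Agent.H533.QA

open Pool.Agent.H361R2.PP
open Pool.Agent.H533.QM

theorem fr_one : fr 1 = 1 := by unfold fr; simp

theorem Ls_one (X : ℕ) : Ls X 1 = Real.log X := by unfold Ls; rw [fr_one, one_mul]

open Classical in
/-- differences `N - p` -/
theorem gold (m : ℕ) (ρ Λ C : ℝ) (hρ : 0 < ρ) (hΛ : 0 < Λ) (hC : 0 < C) :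
    ∃ c : ℝ, 0 < c ∧ ∀ B : ℕ, ∃ X₀ : ℕ, ∀ X : ℕ, X₀ ≤ X →
    ∀ A J : Finset ℕ, A ⊆ J → (∀ p ∈ J, (p : ℝ) ≤ Real.log X ^ B) →
    ρ * Real.log X ≤ A.card → (J.card : ℝ) ≤ Λ * Real.log X → pairs A ≤ C * (A.card : ℝ) ^ 2 →
    c * X ≤ (((Ico X (2 * X)).filter (fun N => m ≤ (A.filter (fun p => (N - p).Prime)).card ∧
        ∀ p ∈ J, (N - p).Prime → p ∈ A)).card : ℝ) := by
  obtain ⟨c, hc, H⟩ := arbM m ρ Λ C hρ hΛ hC
  refine ⟨c / 2, by positivity, fun B => ?_⟩
  obtain ⟨X1, h1⟩ := H (B + 1)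
  obtain ⟨X2, h2⟩ := Pool.Agent.H20R2.EQI.ev_large (2 / c + 1) (B + 1) 1 one_pos
  have t1 : Tendsto (fun X : ℕ => Real.log (X : ℝ)) atTop atTop :=
    Real.tendsto_log_atTop.comp tendsto_natCast_atTop_atTop
  obtain ⟨X3, h3⟩ := eventually_atTop.1 (t1.eventually_ge_atTop 2)
  refine ⟨X1 + X2 + X3 + 2, fun X hX A J hAJ hJ hA hJc hpA => ?_⟩
  have hX0 : (0 : ℝ) < X := by exact_mod_cast (by omega : 0 < X)
  have hlog := h3 X (by omega)
  have h5 := h2 X (by omega)
  rw [Real.rpow_one] at h5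
  have hpow : (1 : ℝ) ≤ Real.log X ^ B := one_le_pow₀ (by linarith)
  have hpow1 : (1 : ℝ) ≤ Real.log X ^ (B + 1) := one_le_pow₀ (by linarith)
  obtain ⟨M, hM⟩ : ∃ M : ℕ, M = ⌊Real.log X ^ B⌋₊ + 1 := ⟨_, rfl⟩
  have hMle : (M : ℝ) ≤ Real.log X ^ (B + 1) := by
    rw [hM]
    push_cast
    have := Nat.floor_le (show 0 ≤ Real.log X ^ B by positivity)
    rw [pow_succ]
    nlinarith
  have hMc : (M : ℝ) ≤ c / 2 * X := by
    have h6 : 2 / c * Real.log X ^ (B + 1) ≤ X := by nlinarith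
    rw [div_mul_eq_mul_div, div_le_iff₀ hc] at h6
    linarith
  have hMX : (M : ℝ) ≤ X := by
    have : 0 < 2 / c := by positivity
    nlinarith
  have hlt : ∀ p ∈ J, p < M := by
    intro p hp
    have := Nat.le_floor (hJ p hp)
    omega
  have hltA : ∀ p ∈ A, p < M := fun p hp => hlt p (hAJ hp)
  have hinj : ∀ S : Finset ℕ, (∀ p ∈ S, p < M) → Set.InjOn (fun p : ℕ => M - p) (S : Set ℕ) := by
    intro S hS p hp p' hp' h6
    have h7 := hS p hp
    have h8 := hS p' hp'
    have : M - p = M - p' := h6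
    omega
  have hcA : (A.image (fun p => M - p)).card = A.card := card_image_of_injOn (hinj A hltA)
  have hcJ : (J.image (fun p => M - p)).card = J.card := card_image_of_injOn (hinj J hlt)
  have hres := h1 X (by omega) 1 le_rfl (by omega) (A.image (fun p => M - p))
    (J.image (fun p => M - p)) (image_subset_image hAJ)
    (fun j hj => by
      rw [mem_image] at hj
      obtain ⟨p, hp, rfl⟩ := hj
      have := hlt p hp
      refine ⟨by omega, le_trans ?_ hMle⟩
      exact_mod_cast Nat.sub_le _ _)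
    (by rw [hcA, Ls_one]; exact hA) (by rw [hcJ, Ls_one]; exact hJc)
    (by rw [pairs_refl (fun p hp => (hltA p hp).le), hcA]; exact hpA)
  rw [fr_one, one_mul] at hres
  obtain ⟨G, hG⟩ : ∃ G, G = (Ico X (2 * X)).filter (fun N =>
      m ≤ (A.filter (fun p => (N - p).Prime)).card ∧ ∀ p ∈ J, (N - p).Prime → p ∈ A) := ⟨_, rfl⟩
  rw [← hG]
  obtain ⟨F, hF⟩ : ∃ F, F = (Ico X (2 * X)).filter (fun n => n.Coprime 1 ∧
        m ≤ ((A.image (fun p => M - p)).filter (fun j => (n + j * 1).Prime)).card ∧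
        ∀ j ∈ J.image (fun p => M - p), (n + j * 1).Prime → j ∈ A.image (fun p => M - p)) :=
    ⟨_, rfl⟩
  rw [← hF] at hres
  have hsub : F.image (fun n => n + M) ⊆ G ∪ Ico (2 * X) (2 * X + M) := by
    intro N hN
    rw [mem_image] at hN
    obtain ⟨n, hn, rfl⟩ := hN
    rw [hF, mem_filter, mem_Ico] at hn
    obtain ⟨hn1, -, hn2, hn3⟩ := hn
    rw [mem_union, hG, mem_filter, mem_Ico, mem_Ico]
    rcases Nat.lt_or_ge (n + M) (2 * X) with h8 | h8
    · left
      refine ⟨⟨by omega, h8⟩, ?_, ?_⟩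
      · refine hn2.trans ?_
        have h9 : (A.image (fun p => M - p)).filter (fun j => (n + j * 1).Prime) ⊆
            (A.filter (fun p => (n + M - p).Prime)).image (fun p => M - p) := by
          intro j hj
          rw [mem_filter, mem_image] at hj
          obtain ⟨⟨p, hp, rfl⟩, h10⟩ := hj
          rw [mem_image]
          refine ⟨p, mem_filter.2 ⟨hp, ?_⟩, rfl⟩
          have h11 := hltA p hp
          have h12 : n + (M - p) * 1 = n + M - p := by omega
          rwa [h12] at h10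
        exact (card_le_card h9).trans card_image_le
      · intro p hp hpp
        have h11 := hlt p hp
        have h12 : n + (M - p) * 1 = n + M - p := by omega
        have h13 := hn3 (M - p) (mem_image_of_mem _ hp) (by rw [h12]; exact hpp)
        rw [mem_image] at h13
        obtain ⟨p', hp', h14⟩ := h13
        have h15 := hltA p' hp'
        have : p' = p := by omega
        rw [← this]
        exact hp'
    · right
      omega
  have h8 := (card_le_card hsub).trans (card_union_le _ _)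
  rw [card_image_of_injective _ (fun _ _ h => Nat.add_right_cancel h), Nat.card_Ico] at h8
  have h9 : (F.card : ℝ) ≤ G.card + M := by
    have : F.card ≤ G.card + M := by omega
    exact_mod_cast this
  linarith

open Classical in
/-- Goldbach representations with the small prime in an arbitrary set of primes -/
theorem goldE (m : ℕ) (ρ Λ C : ℝ) (hρ : 0 < ρ) (hΛ : 0 < Λ) (hC : 0 < C) :
    ∃ c : ℝ, 0 < c ∧ ∀ B : ℕ, ∃ X₀ : ℕ, ∀ X : ℕ, X₀ ≤ X →
    ∀ A J : Finset ℕ, A ⊆ J → (∀ p ∈ A, p.Prime) → (∀ p ∈ J, (p : ℝ) ≤ Real.log X ^ B) →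
    ρ * Real.log X ≤ A.card → (J.card : ℝ) ≤ Λ * Real.log X → pairs A ≤ C * (A.card : ℝ) ^ 2 →
    c * X ≤ (((Ico X (2 * X)).filter (fun N => Even N ∧
        m ≤ (A.filter (fun p => (N - p).Prime)).card ∧
        ∀ p ∈ J, (N - p).Prime → p ∈ A)).card : ℝ) := by
  obtain ⟨c, hc, H⟩ := gold (m + 1) (ρ / 2) Λ (4 * C) (by positivity) hΛ (by positivity)
  refine ⟨c, hc, fun B => ?_⟩
  obtain ⟨X1, h1⟩ := H B
  obtain ⟨X2, h2⟩ := Pool.Agent.H20R2.EQI.ev_large 4 B 1 one_pos
  have t1 : Tendsto (fun X : ℕ => Real.log (X : ℝ)) atTop atTop :=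
    Real.tendsto_log_atTop.comp tendsto_natCast_atTop_atTop
  obtain ⟨X3, h3⟩ := eventually_atTop.1 (t1.eventually_ge_atTop (max 2 (2 / ρ)))
  refine ⟨X1 + X2 + X3 + 8, fun X hX A J hAJ hAp hJ hA hJc hpA => ?_⟩
  have hlog := h3 X (by omega)
  have hlog2 : 2 ≤ Real.log X := (le_max_left _ _).trans hlog
  have hlogρ : 2 ≤ ρ * Real.log X := by
    have := (le_max_right _ _).trans hlog
    rw [div_le_iff₀ hρ] at this
    linarith
  have h5 := h2 X (by omega)
  rw [Real.rpow_one] at h5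
  have hce : (A.card : ℝ) ≤ (A.erase 2).card + 1 := by
    have : A.card ≤ (A.erase 2).card + 1 := by
      rw [← Nat.sub_le_iff_le_add]
      exact pred_card_le_card_erase
    exact_mod_cast this
  have hA2 : 2 ≤ (A.card : ℝ) := hlogρ.trans hA
  have hsubA : A.erase 2 ⊆ A := erase_subset _ _
  refine (h1 X (by omega) (A.erase 2) J (hsubA.trans hAJ) hJ (by linarith) hJc (by
    have h6 : pairs (A.erase 2) ≤ pairs A := by
      unfold pairs
      calc ∑ i ∈ A.erase 2, ∑ j ∈ (A.erase 2).filter (fun j => i < j),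
            (((j - i : ℕ) : ℝ) / Nat.totient (j - i)) ≤
            ∑ i ∈ A.erase 2, ∑ j ∈ A.filter (fun j => i < j),
            (((j - i : ℕ) : ℝ) / Nat.totient (j - i)) := by
            apply sum_le_sum
            intro i _
            apply sum_le_sum_of_subset_of_nonneg (filter_subset_filter _ hsubA)
            intro j _ _
            positivity
        _ ≤ _ := by
            apply sum_le_sum_of_subset_of_nonneg hsubA
            intro i _ _
            exact sum_nonneg fun j _ => by positivity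
    refine h6.trans (hpA.trans ?_)
    have h5 : (A.card : ℝ) ^ 2 ≤ 4 * ((A.erase 2).card : ℝ) ^ 2 := by nlinarith
    calc C * (A.card : ℝ) ^ 2 ≤ C * (4 * ((A.erase 2).card : ℝ) ^ 2) :=
          mul_le_mul_of_nonneg_left h5 hC.le
      _ = _ := by ring)).trans (Nat.cast_le.2 (card_le_card ?_))
  intro N hN
  rw [mem_filter, mem_Ico] at hN
  obtain ⟨hN1, hN2, hN3⟩ := hN
  rw [mem_filter, mem_Ico]
  refine ⟨hN1, ?_, ?_, fun p hp hpp => hsubA (hN3 p hp hpp)⟩
  · obtain ⟨p, hp⟩ : ((A.erase 2).filter (fun p => (N - p).Prime)).Nonempty := by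
      rw [← card_pos]
      omega
    rw [mem_filter, mem_erase] at hp
    have hpo : p % 2 = 1 := by
      rcases (hAp p hp.1.2).eq_two_or_odd with h | h
      · exact absurd h hp.1.1
      · exact h
    have hpX : (p : ℝ) ≤ X / 4 := by
      have := hJ p (hAJ hp.1.2)
      linarith
    have hp4 : 4 * p ≤ X := by
      have : (4 : ℝ) * p ≤ X := by linarith
      exact_mod_cast this
    have hNo : (N - p) % 2 = 1 := by
      rcases hp.2.eq_two_or_odd with h | h
      · omega
      · exact h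
    rw [Nat.even_iff]
    omega
  · have h6 : ((A.erase 2).filter (fun p => (N - p).Prime)).card ≤
        (A.filter (fun p => (N - p).Prime)).card := card_le_card (filter_subset_filter _ hsubA)
    omega

/-- the number of primes up to `T log X log log X` -/
theorem pi_scale (T : ℝ) (hT : 0 < T) : ∃ X₀ : ℕ, ∀ X : ℕ, X₀ ≤ X → ∀ M : ℕ,
    M = ⌊T * (Real.log X * Real.log (Real.log X))⌋₊ →
    2 ≤ M ∧ (M : ℝ) / Real.log M ≤ 2 * T * Real.log X ∧ (M : ℝ) ≤ Real.log X ^ 2 ∧
    (((range (M + 1)).filter Nat.Prime).card : ℝ) ≤ 16 * T * Real.log X := by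
  obtain ⟨X1, h1⟩ := pi_upper
  have t1 : Tendsto (fun X : ℕ => Real.log (X : ℝ)) atTop atTop :=
    Real.tendsto_log_atTop.comp tendsto_natCast_atTop_atTop
  have t2 : Tendsto (fun X : ℕ => Real.log (Real.log (X : ℝ))) atTop atTop :=
    Real.tendsto_log_atTop.comp t1
  have e1 : ∀ᶠ x : ℝ in atTop, T * Real.log x ≤ x := by
    have := Real.isLittleO_log_id_atTop.bound (c := 1 / T) (by positivity)
    filter_upwards [this, eventually_ge_atTop (1 : ℝ)] with x hx hx1
    rw [Real.norm_eq_abs, id, Real.norm_eq_abs] at hx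
    have h2 := (le_abs_self _).trans hx
    rw [abs_of_nonneg (by linarith : (0 : ℝ) ≤ x), one_div_mul_eq_div, le_div_iff₀ hT] at h2
    linarith
  have e2 : ∀ᶠ x : ℝ in atTop, x ^ (1 / 2 : ℝ) + 1 ≤ T * (x * Real.log x) := by
    have g1 : ∀ᶠ x : ℝ in atTop, 2 / T ≤ Real.log x := Real.tendsto_log_atTop.eventually_ge_atTop _
    filter_upwards [g1, eventually_ge_atTop (1 : ℝ)] with x hx hx1
    have h3 : x ^ (1 / 2 : ℝ) ≤ x := by
      calc x ^ (1 / 2 : ℝ) ≤ x ^ (1 : ℝ) := Real.rpow_le_rpow_of_exponent_le hx1 (by norm_num)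
        _ = x := Real.rpow_one x
    rw [div_le_iff₀ hT] at hx
    nlinarith
  obtain ⟨X2, h2⟩ := eventually_atTop.1 ((t1.eventually e1).and ((t1.eventually e2).and
    ((t1.eventually_ge_atTop ((X1 : ℝ) ^ 2 + 16)).and (t2.eventually_ge_atTop 1))))
  refine ⟨X2 + 2, fun X hX M hM => ?_⟩
  obtain ⟨g1, g2, g3, g4⟩ := h2 X (by omega)
  obtain ⟨l, hl⟩ : ∃ l, l = Real.log X := ⟨_, rfl⟩
  rw [← hl] at g1 g2 g3 g4 hM ⊢
  have hX1 : (0 : ℝ) ≤ (X1 : ℝ) ^ 2 := by positivity
  have hl0 : 0 < l := by linarith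
  have hMle : (M : ℝ) ≤ T * (l * Real.log l) := by
    rw [hM]
    exact Nat.floor_le (by positivity)
  have hMge : l ^ (1 / 2 : ℝ) ≤ M := by
    have := Nat.lt_floor_add_one (T * (l * Real.log l))
    rw [← hM] at this
    linarith
  have h4 : (4 : ℝ) ≤ l ^ (1 / 2 : ℝ) := by
    have h5 : (16 : ℝ) ^ (1 / 2 : ℝ) ≤ l ^ (1 / 2 : ℝ) :=
      Real.rpow_le_rpow (by norm_num) (by linarith) (by norm_num)
    have h6 : (16 : ℝ) ^ (1 / 2 : ℝ) = 4 := by
      rw [← Real.sqrt_eq_rpow, show (16 : ℝ) = 4 ^ 2 by norm_num, Real.sqrt_sq (by norm_num)]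
    linarith
  have hX1l : (X1 : ℝ) ≤ l ^ (1 / 2 : ℝ) := by
    rw [← Real.sqrt_eq_rpow]
    exact Real.le_sqrt_of_sq_le (by linarith)
  have hM4 : (4 : ℝ) ≤ M := h4.trans hMge
  have hM4n : 4 ≤ M := by exact_mod_cast hM4
  have hlM : Real.log l / 2 ≤ Real.log M := by
    have h5 := Real.log_le_log (by positivity) hMge
    rw [Real.log_rpow hl0] at h5
    linarith
  have hlM0 : 0 < Real.log M := by linarith
  refine ⟨by omega, ?_, ?_, ?_⟩
  · rw [div_le_iff₀ hlM0]
    calc (M : ℝ) ≤ T * (l * Real.log l) := hMle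
      _ = 2 * T * l * (Real.log l / 2) := by ring
      _ ≤ _ := mul_le_mul_of_nonneg_left hlM (by positivity)
  · calc (M : ℝ) ≤ T * (l * Real.log l) := hMle
      _ = l * (T * Real.log l) := by ring
      _ ≤ l * l := mul_le_mul_of_nonneg_left g1 hl0.le
      _ = _ := by ring
  · have h5 := h1 M (by exact_mod_cast hX1l.trans hMge)
    have h6 : ((range (M + 1)).filter Nat.Prime).card ≤ ((range (2 * M)).filter Nat.Prime).card := by
      apply card_le_card
      apply filter_subset_filter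
      apply range_subset_range.2
      omega
    calc (((range (M + 1)).filter Nat.Prime).card : ℝ) ≤
          (((range (2 * M)).filter Nat.Prime).card : ℝ) := by exact_mod_cast h6
      _ ≤ 4 * M / Real.log M := h5
      _ ≤ _ := by
          rw [div_le_iff₀ hlM0]
          calc 4 * (M : ℝ) ≤ 4 * (T * (l * Real.log l)) := by linarith
            _ = 8 * T * l * (Real.log l / 2) := by ring
            _ ≤ 8 * T * l * Real.log M := mul_le_mul_of_nonneg_left hlM (by positivity)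
            _ ≤ _ := by
                apply mul_le_mul_of_nonneg_right _ hlM0.le
                nlinarith [mul_pos hT hl0]

open Classical in
/-- the small primes on the scale `log X log log X` -/
theorem goldS (m : ℕ) (ρ T : ℝ) (hρ : 0 < ρ) (hT : 0 < T) :
    ∃ c : ℝ, 0 < c ∧ ∃ X₀ : ℕ, ∀ X : ℕ, X₀ ≤ X →
    ∀ A : Finset ℕ, (∀ p ∈ A, p.Prime ∧ (p : ℝ) ≤ T * (Real.log X * Real.log (Real.log X))) →
    ρ * Real.log X ≤ A.card →
    c * X ≤ (((Ico X (2 * X)).filter (fun N => Even N ∧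
        m ≤ (A.filter (fun p => (N - p).Prime)).card ∧
        ∀ p : ℕ, p.Prime → (p : ℝ) ≤ T * (Real.log X * Real.log (Real.log X)) →
          (N - p).Prime → p ∈ A)).card : ℝ) := by
  obtain ⟨C1, hC1, hpp⟩ := pairs_primes
  obtain ⟨c, hc, H⟩ := goldE m ρ (16 * T) (C1 * (4 * T ^ 2 / ρ ^ 2)) hρ (by positivity)
    (by positivity)
  obtain ⟨X1, h1⟩ := H 2
  obtain ⟨X2, h2⟩ := pi_scale T hT
  have t1 : Tendsto (fun X : ℕ => Real.log (X : ℝ)) atTop atTop :=
    Real.tendsto_log_atTop.comp tendsto_natCast_atTop_atTop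
  obtain ⟨X3, h3⟩ := eventually_atTop.1 (t1.eventually_ge_atTop 3)
  refine ⟨c, hc, X1 + X2 + X3, fun X hX A hA hAc => ?_⟩
  obtain ⟨g1, g2, g3, g4⟩ := h2 X (by omega) _ rfl
  have hlog := h3 X (by omega)
  obtain ⟨M, hM⟩ : ∃ M : ℕ, M = ⌊T * (Real.log X * Real.log (Real.log X))⌋₊ := ⟨_, rfl⟩
  rw [← hM] at g1 g2 g3 g4
  have hll : 0 ≤ Real.log (Real.log X) := Real.log_nonneg (by linarith)
  have hAM : ∀ p ∈ A, p.Prime ∧ p ≤ M := by
    intro p hp
    obtain ⟨h4, h5⟩ := hA p hp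
    exact ⟨h4, by rw [hM]; exact Nat.le_floor h5⟩
  have hM2 : (2 : ℝ) ≤ M := by exact_mod_cast g1
  have hlM0 : 0 < Real.log M := Real.log_pos (by linarith)
  refine (h1 X (by omega) A ((range (M + 1)).filter Nat.Prime) (fun p hp => by
      obtain ⟨h4, h5⟩ := hAM p hp
      exact mem_filter.2 ⟨mem_range.2 (by omega), h4⟩) (fun p hp => (hA p hp).1) (fun p hp => by
      rw [mem_filter, mem_range] at hp
      have : (p : ℝ) ≤ M := by exact_mod_cast (by omega : p ≤ M)
      exact this.trans g3) hAc g4 ?_).trans (Nat.cast_le.2 (card_le_card ?_))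
  · refine (hpp M A g1 hAM).trans ?_
    rw [mul_assoc]
    apply mul_le_mul_of_nonneg_left _ (by linarith)
    have h4 : ((M : ℝ) / Real.log M) ^ 2 ≤ (2 * T * Real.log X) ^ 2 :=
      pow_le_pow_left₀ (by positivity) g2 2
    have h5 : (ρ * Real.log X) ^ 2 ≤ (A.card : ℝ) ^ 2 :=
      pow_le_pow_left₀ (by have := hlog; positivity) hAc 2
    refine h4.trans ?_
    calc (2 * T * Real.log X) ^ 2 = 4 * T ^ 2 / ρ ^ 2 * (ρ * Real.log X) ^ 2 := by
          field_simp
          ring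
      _ ≤ _ := mul_le_mul_of_nonneg_left h5 (by positivity)
  · intro N hN
    rw [mem_filter] at hN ⊢
    refine ⟨hN.1, hN.2.1, hN.2.2.1, fun p hp hp2 hpp => ?_⟩
    apply hN.2.2.2 p _ hpp
    rw [mem_filter, mem_range]
    have : p ≤ M := by rw [hM]; exact Nat.le_floor hp2
    exact ⟨by omega, hp⟩

end Pool.Agent.H533.QA
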