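import Pool.Agent.H533.QA.Arb

/-!
The second moment of the number of admissible multipliers.
-/

set_option autoImplicit false

open Finset Filter Topology

namespace Pool.Agent.H533.QA

open Pool.Agent.H361R2.PP
open Pool.Agent.H533.QM
open Pool.Agent.H533.QS

/-- two shifts of `b` are units -/
def Pu (x y : ℕ) (R : Type) [CommRing R] (b : R) : Prop :=
  IsUnit (b + (x : R)) ∧ IsUnit (b + (y : R))

theorem card_Pu_prod (x y : ℕ) (R R' : Type) [CommRing R] [CommRing R'] :
    Nat.card {b : R × R' // Pu x y (R × R') b} =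
      Nat.card {b : R // Pu x y R b} * Nat.card {b : R' // Pu x y R' b} := by
  rw [← Nat.card_prod]
  apply Nat.card_congr
  have key : ∀ b : R × R', Pu x y (R × R') b ↔ Pu x y R b.1 ∧ Pu x y R' b.2 := by
    intro b
    unfold Pu
    rw [Prod.isUnit_iff, Prod.isUnit_iff]
    simp only [Prod.fst_add, Prod.snd_add, Prod.fst_natCast, Prod.snd_natCast]
    tauto
  refine ⟨fun t => (⟨t.1.1, ((key _).1 t.2).1⟩, ⟨t.1.2, ((key _).1 t.2).2⟩),
    fun s => ⟨(s.1.1, s.2.1), (key _).2 ⟨s.1.2, s.2.2⟩⟩, fun t => rfl, fun s => rfl⟩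

theorem card_Pu_iso (x y : ℕ) {R R' : Type} [CommRing R] [CommRing R'] (e : R ≃+* R') :
    Nat.card {b : R // Pu x y R b} = Nat.card {b : R' // Pu x y R' b} := by
  apply Nat.card_congr
  apply Equiv.subtypeEquiv e.toEquiv
  intro b
  have h : ∀ z : ℕ, IsUnit (b + (z : R)) ↔ IsUnit (e b + (z : R')) := by
    intro z
    have h1 : e b + (z : R') = e (b + (z : R)) := by rw [map_add, map_natCast]
    rw [h1]
    exact (MulEquiv.isUnit_map e).symm
  unfold Pu
  rw [h, h]
  rfl

theorem card_Pu_set (x y : ℕ) (S : Finset ℕ) (hS : ∀ p ∈ S, p.Prime) :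
    Nat.card {b : ZMod (∏ p ∈ S, p) // Pu x y (ZMod (∏ p ∈ S, p)) b} =
      ∏ p ∈ S, Nat.card {b : ZMod p // Pu x y (ZMod p) b} := by
  induction S using Finset.induction_on with
  | empty =>
    rw [prod_empty, prod_empty, Nat.card_eq_one_iff_unique]
    exact ⟨⟨fun a b => Subtype.ext (Subsingleton.elim _ _)⟩, ⟨⟨0,
      isUnit_of_subsingleton _, isUnit_of_subsingleton _⟩⟩⟩
  | insert p S hp ih =>
    rw [prod_insert hp, prod_insert hp]
    have hc : p.Coprime (∏ q ∈ S, q) := by
      apply Nat.Coprime.prod_right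
      intro q hq
      rw [Nat.coprime_primes (hS p (mem_insert_self _ _)) (hS q (mem_insert_of_mem hq))]
      rintro rfl
      exact hp hq
    rw [card_Pu_iso x y (ZMod.chineseRemainder hc), card_Pu_prod,
      ih (fun q hq => hS q (mem_insert_of_mem hq))]

/-- the local factor -/
theorem card_Pu_prime (x y : ℕ) (hxy : x < y) (p : ℕ) (hp : p.Prime) :
    (Nat.card {b : ZMod p // Pu x y (ZMod p) b} : ℝ) ≤
      (p : ℝ) * ((1 - 1 / (p : ℝ)) ^ 2 * (if p ∣ y - x then (1 - 1 / (p : ℝ))⁻¹ else 1)) := by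
  classical
  haveI : Fact p.Prime := ⟨hp⟩
  have hp2 : (2 : ℝ) ≤ p := by exact_mod_cast hp.two_le
  have hp0 : (0 : ℝ) < p := by linarith
  have hp1 : (0 : ℝ) < p - 1 := by linarith
  have hsub : (univ : Finset (ZMod p)).filter (fun b => Pu x y (ZMod p) b) ⊆
      univ \ {-(x : ZMod p), -(y : ZMod p)} := by
    intro b hb
    rw [mem_filter] at hb
    rw [Finset.mem_sdiff, mem_insert, mem_singleton]
    refine ⟨mem_univ _, ?_⟩
    rintro (h | h)
    · have h1 := hb.2.1
      rw [h, neg_add_cancel, isUnit_iff_ne_zero] at h1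
      exact h1 rfl
    · have h1 := hb.2.2
      rw [h, neg_add_cancel, isUnit_iff_ne_zero] at h1
      exact h1 rfl
  have hcard : Nat.card {b : ZMod p // Pu x y (ZMod p) b} ≤
      p - ({-(x : ZMod p), -(y : ZMod p)} : Finset (ZMod p)).card := by
    rw [Nat.card_eq_fintype_card, Fintype.card_subtype]
    refine (card_le_card hsub).trans ?_
    rw [card_sdiff_of_subset (subset_univ _), card_univ, ZMod.card]
  split_ifs with h
  · have h1 : 1 ≤ ({-(x : ZMod p), -(y : ZMod p)} : Finset (ZMod p)).card :=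
      card_pos.2 ⟨_, mem_insert_self _ _⟩
    have h2 : Nat.card {b : ZMod p // Pu x y (ZMod p) b} ≤ p - 1 := by omega
    have h3 : (Nat.card {b : ZMod p // Pu x y (ZMod p) b} : ℝ) ≤ (p : ℝ) - 1 := by
      have : ((p - 1 : ℕ) : ℝ) = (p : ℝ) - 1 := by
        rw [Nat.cast_sub hp.one_le, Nat.cast_one]
      rw [← this]
      exact_mod_cast h2
    have e : (p : ℝ) * ((1 - 1 / (p : ℝ)) ^ 2 * (1 - 1 / (p : ℝ))⁻¹) = p - 1 := by
      have hne : (1 - 1 / (p : ℝ)) ≠ 0 := by
        have : 1 - 1 / (p : ℝ) = (p - 1) / p := by field_simp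
        rw [this]
        positivity
      rw [sq, mul_assoc, mul_inv_cancel₀ hne, mul_one]
      field_simp
    rw [e]
    exact h3
  · have hne : -(x : ZMod p) ≠ -(y : ZMod p) := by
      intro hcon
      apply h
      have h1 : (x : ZMod p) = y := neg_injective hcon
      rw [ZMod.natCast_eq_natCast_iff] at h1
      exact (Nat.modEq_iff_dvd' hxy.le).1 h1
    have h1 : ({-(x : ZMod p), -(y : ZMod p)} : Finset (ZMod p)).card = 2 := card_pair hne
    rw [h1] at hcard
    have h3 : (Nat.card {b : ZMod p // Pu x y (ZMod p) b} : ℝ) ≤ (p : ℝ) - 2 := by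
      have : ((p - 2 : ℕ) : ℝ) = (p : ℝ) - 2 := by
        rw [Nat.cast_sub hp.two_le, Nat.cast_ofNat]
      rw [← this]
      exact_mod_cast hcard
    have e : (p : ℝ) * ((1 - 1 / (p : ℝ)) ^ 2 * 1) = p - 2 + 1 / p := by
      field_simp
      ring
    rw [e]
    have : (0 : ℝ) ≤ 1 / p := by positivity
    linarith

/-- the ratio `h / φ(h)` as a product -/
theorem ratio_prod {h : ℕ} (hh : 0 < h) :
    (h : ℝ) / Nat.totient h = ∏ p ∈ h.primeFactors, (1 - 1 / (p : ℝ))⁻¹ := by
  rw [prod_inv_distrib, ← fr_prod hh]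
  unfold fr
  rw [inv_div]

theorem card_pair_le {X q i j : ℕ} (hq : 1 ≤ q) (hij : i < j) :
    (((range (Wq X q)).filter (fun b => (b + i * q).Coprime (Wq X q) ∧
      (b + j * q).Coprime (Wq X q))).card : ℝ) ≤
      (Wq X q : ℝ) * (((Nat.totient (Wq X q) : ℝ) / Wq X q) ^ 2 *
        (((j - i : ℕ) : ℝ) / Nat.totient (j - i))) := by
  classical
  have hW0 := Wq_pos X q
  haveI : NeZero (Wq X q) := ⟨hW0.ne'⟩
  have h1 : ((range (Wq X q)).filter (fun b => (b + i * q).Coprime (Wq X q) ∧
      (b + j * q).Coprime (Wq X q))).card ≤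
      Nat.card {b : ZMod (Wq X q) // Pu (i * q) (j * q) (ZMod (Wq X q)) b} := by
    rw [Nat.card_eq_fintype_card, Fintype.card_subtype]
    apply card_le_card_of_injOn (fun b : ℕ => (b : ZMod (Wq X q)))
    · intro b hb
      rw [mem_coe, mem_filter] at hb
      rw [mem_coe, mem_filter]
      refine ⟨mem_univ _, ?_, ?_⟩
      · have := (ZMod.isUnit_iff_coprime (b + i * q) (Wq X q)).2 hb.2.1
        rwa [Nat.cast_add] at this
      · have := (ZMod.isUnit_iff_coprime (b + j * q) (Wq X q)).2 hb.2.2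
        rwa [Nat.cast_add] at this
    · intro b hb b' hb' h
      rw [mem_coe, mem_filter, mem_range] at hb hb'
      have h2 : (b : ZMod (Wq X q)) = b' := h
      rw [ZMod.natCast_eq_natCast_iff'] at h2
      rwa [Nat.mod_eq_of_lt hb.1, Nat.mod_eq_of_lt hb'.1] at h2
  have hS : ∀ p ∈ Sm X q, p.Prime := fun p hp => (mem_Sm.1 hp).2.1
  have h2 := card_Pu_set (i * q) (j * q) (Sm X q) hS
  have hlt : i * q < j * q := Nat.mul_lt_mul_of_pos_right hij hq
  have hh : 0 < j - i := by omega
  calc _ ≤ (Nat.card {b : ZMod (Wq X q) // Pu (i * q) (j * q) (ZMod (Wq X q)) b} : ℝ) := by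
        exact_mod_cast h1
    _ = ∏ p ∈ Sm X q, (Nat.card {b : ZMod p // Pu (i * q) (j * q) (ZMod p) b} : ℝ) := by
        unfold Wq
        rw [h2]
        push_cast
        rfl
    _ ≤ ∏ p ∈ Sm X q, ((p : ℝ) * ((1 - 1 / (p : ℝ)) ^ 2 *
          (if p ∣ j * q - i * q then (1 - 1 / (p : ℝ))⁻¹ else 1))) :=
        prod_le_prod (fun p _ => Nat.cast_nonneg _)
          (fun p hp => card_Pu_prime (i * q) (j * q) hlt p (hS p hp))
    _ = (Wq X q : ℝ) * (((Nat.totient (Wq X q) : ℝ) / Wq X q) ^ 2 *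
          ∏ p ∈ Sm X q, (if p ∣ j * q - i * q then (1 - 1 / (p : ℝ))⁻¹ else 1)) := by
        rw [prod_mul_distrib, prod_mul_distrib, prod_pow, frW]
        unfold Wq
        push_cast
        rfl
    _ ≤ _ := by
        apply mul_le_mul_of_nonneg_left _ (Nat.cast_nonneg _)
        apply mul_le_mul_of_nonneg_left _ (by positivity)
        rw [ratio_prod hh, ← prod_filter]
        apply prod_le_prod_of_subset_of_one_le
        · intro p hp
          rw [mem_filter, mem_Sm] at hp
          rw [Nat.mem_primeFactors]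
          refine ⟨hp.1.2.1, ?_, hh.ne'⟩
          rw [← Nat.sub_mul] at hp
          exact (hp.1.2.1.dvd_mul.1 hp.2).resolve_right hp.1.2.2
        · intro p hp
          rw [mem_filter] at hp
          have := one_sub_pos (hS p hp.1)
          positivity
        · intro p hp _
          have hp' := Nat.prime_of_mem_primeFactors hp
          have h3 := one_sub_pos hp'
          rw [one_le_inv₀ h3]
          have : (0 : ℝ) ≤ 1 / p := by positivity
          linarith

/-- the sum over the pairs of the ratios `h / φ(h)` of the differences -/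
noncomputable def pairs (A : Finset ℕ) : ℝ :=
  ∑ i ∈ A, ∑ j ∈ A.filter (fun j => i < j), (((j - i : ℕ) : ℝ) / Nat.totient (j - i))

theorem pairs_nonneg (A : Finset ℕ) : 0 ≤ pairs A :=
  sum_nonneg fun _ _ => sum_nonneg fun _ _ => by positivity

/-- the second moment -/
theorem mom2 {X q : ℕ} (hq : 1 ≤ q) (A : Finset ℕ) :
    ∑ b ∈ range (Wq X q), ((adm X q b A).card : ℝ) ^ 2 ≤
      (A.card : ℝ) * Nat.totient (Wq X q) +
      2 * ((Wq X q : ℝ) * (((Nat.totient (Wq X q) : ℝ) / Wq X q) ^ 2 * pairs A)) := by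
  classical
  have h1 : ∀ b, ((adm X q b A).card : ℝ) ^ 2 = ∑ i ∈ A, ∑ j ∈ A,
      (if (b + i * q).Coprime (Wq X q) ∧ (b + j * q).Coprime (Wq X q) then (1 : ℝ) else 0) := by
    intro b
    have h2 : ((adm X q b A).card : ℝ) = ∑ i ∈ A,
        (if (b + i * q).Coprime (Wq X q) then (1 : ℝ) else 0) := by
      unfold adm
      rw [card_filter]
      push_cast
      rfl
    rw [h2, sq, sum_mul_sum]
    apply sum_congr rfl
    intro i _
    apply sum_congr rfl
    intro j _
    by_cases h3 : (b + i * q).Coprime (Wq X q)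
    · by_cases h4 : (b + j * q).Coprime (Wq X q)
      · rw [if_pos h3, if_pos h4, if_pos ⟨h3, h4⟩, mul_one]
      · rw [if_pos h3, if_neg h4, if_neg (fun h => h4 h.2), mul_zero]
    · have h5 : ¬ ((b + i * q).Coprime (Wq X q) ∧ (b + j * q).Coprime (Wq X q)) :=
        fun h => h3 h.1
      rw [if_neg h3, if_neg h5, zero_mul]
  rw [sum_congr rfl (fun b _ => h1 b), sum_comm]
  obtain ⟨f, hf⟩ : ∃ f : ℕ → ℕ → ℝ, f = fun i j => ∑ b ∈ range (Wq X q),
      (if (b + i * q).Coprime (Wq X q) ∧ (b + j * q).Coprime (Wq X q) then (1 : ℝ) else 0) :=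
    ⟨_, rfl⟩
  have h2 : ∀ i ∈ A, ∑ b ∈ range (Wq X q), ∑ j ∈ A,
      (if (b + i * q).Coprime (Wq X q) ∧ (b + j * q).Coprime (Wq X q) then (1 : ℝ) else 0) =
      ∑ j ∈ A, f i j := by
    intro i _
    rw [hf, sum_comm]
  rw [sum_congr rfl h2]
  have hsym : ∀ i j, f i j = f j i := by
    intro i j
    rw [hf]
    apply sum_congr rfl
    intro b _
    exact if_congr and_comm rfl rfl
  have hcardf : ∀ i j, f i j = (((range (Wq X q)).filter (fun b =>
      (b + i * q).Coprime (Wq X q) ∧ (b + j * q).Coprime (Wq X q))).card : ℝ) := by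
    intro i j
    rw [hf, card_filter]
    push_cast
    rfl
  have hdiag : ∀ i, f i i = Nat.totient (Wq X q) := by
    intro i
    rw [hcardf]
    simp only [and_self]
    rw [card_cop]
  have hsplit : ∑ i ∈ A, ∑ j ∈ A, f i j = ∑ i ∈ A, f i i +
      2 * ∑ i ∈ A, ∑ j ∈ A.filter (fun j => i < j), f i j := by
    have h3 : ∀ i ∈ A, ∑ j ∈ A, f i j = f i i + (∑ j ∈ A.filter (fun j => i < j), f i j +
        ∑ j ∈ A.filter (fun j => j < i), f i j) := by
      intro i hi
      rw [← add_sum_erase A (f i) hi]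
      congr 1
      rw [← sum_filter_add_sum_filter_not (A.erase i) (fun j => i < j)]
      congr 1
      · apply sum_congr _ (fun _ _ => rfl)
        ext j
        simp only [mem_filter, mem_erase]
        constructor
        · rintro ⟨⟨_, h5⟩, h6⟩; exact ⟨h5, h6⟩
        · rintro ⟨h5, h6⟩; exact ⟨⟨by omega, h5⟩, h6⟩
      · apply sum_congr _ (fun _ _ => rfl)
        ext j
        simp only [mem_filter, mem_erase]
        constructor
        · rintro ⟨⟨h4, h5⟩, h6⟩; exact ⟨h5, by omega⟩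
        · rintro ⟨h5, h6⟩; exact ⟨⟨by omega, h5⟩, by omega⟩
    rw [sum_congr rfl h3, sum_add_distrib, sum_add_distrib]
    have h4 : ∑ i ∈ A, ∑ j ∈ A.filter (fun j => j < i), f i j =
        ∑ i ∈ A, ∑ j ∈ A.filter (fun j => i < j), f i j := by
      simp only [sum_filter]
      rw [sum_comm]
      apply sum_congr rfl
      intro i _
      apply sum_congr rfl
      intro j _
      split_ifs
      · exact hsym _ _
      · rfl
    rw [h4]
    ring
  rw [hsplit]
  have h5 : ∑ i ∈ A, f i i = (A.card : ℝ) * Nat.totient (Wq X q) := by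
    rw [sum_congr rfl (fun i _ => hdiag i), sum_const, nsmul_eq_mul]
  rw [h5]
  apply add_le_add le_rfl
  apply mul_le_mul_of_nonneg_left _ (by norm_num)
  unfold pairs
  rw [mul_sum, mul_sum]
  apply sum_le_sum
  intro i _
  rw [mul_sum, mul_sum]
  apply sum_le_sum
  intro j hj
  rw [mem_filter] at hj
  rw [hcardf]
  exact card_pair_le hq hj.2

end Pool.Agent.H533.QA
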