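import Pool.Agent.H533.QA.Ring
import Pool.Agent.H533.QA.Arb

/-!
Polynomial sets of positions: the local densities.
-/

set_option autoImplicit false

open Finset Polynomial

namespace Pool.Agent.H533.QA

/-- fibres modulo `p` -/
theorem fibre_p (F : ℤ[X]) (hF : 1 ≤ F.natDegree) (p : ℕ) [Fact p.Prime]
    (hp : ¬ (p : ℤ) ∣ F.leadingCoeff) (x : ZMod p) :
    ((univ : Finset (ZMod p)).filter (fun u => ev F u = x)).card ≤ F.natDegree := by
  classical
  have hlc : (Int.castRingHom (ZMod p)) F.leadingCoeff ≠ 0 := by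
    intro h
    apply hp
    rw [eq_intCast] at h
    exact (ZMod.intCast_zmod_eq_zero_iff_dvd _ p).1 h
  have hdeg : (F.map (Int.castRingHom (ZMod p))).natDegree = F.natDegree :=
    natDegree_map_of_leadingCoeff_ne_zero _ hlc
  obtain ⟨G, hG⟩ : ∃ G, G = F.map (Int.castRingHom (ZMod p)) - C x := ⟨_, rfl⟩
  have hGd : G.natDegree = F.natDegree := by
    rw [hG, natDegree_sub_C, hdeg]
  have hG0 : G ≠ 0 := by
    intro h
    rw [h, natDegree_zero] at hGd
    omega
  have h1 : (univ : Finset (ZMod p)).filter (fun u => ev F u = x) ⊆ G.roots.toFinset := by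
    intro u hu
    rw [mem_filter] at hu
    rw [Multiset.mem_toFinset, mem_roots hG0, IsRoot.def, hG, eval_sub, eval_C, eval_map, sub_eq_zero]
    exact hu.2
  calc _ ≤ G.roots.toFinset.card := card_le_card h1
    _ ≤ Multiset.card G.roots := Multiset.toFinset_card_le _
    _ ≤ G.natDegree := card_roots' G
    _ = _ := hGd

/-- fibres over the integers -/
theorem fibre_Z (F : ℤ[X]) (hF : 1 ≤ F.natDegree) (s : Finset ℕ) (v : ℤ) :
    (s.filter (fun j : ℕ => F.eval (j : ℤ) = v)).card ≤ F.natDegree := by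
  classical
  obtain ⟨G, hG⟩ : ∃ G, G = F - C v := ⟨_, rfl⟩
  have hGd : G.natDegree = F.natDegree := by
    rw [hG, natDegree_sub_C]
  have hG0 : G ≠ 0 := by
    intro h
    rw [h, natDegree_zero] at hGd
    omega
  have h1 : (s.filter (fun j : ℕ => F.eval (j : ℤ) = v)).card ≤ G.roots.toFinset.card := by
    apply card_le_card_of_injOn (fun j : ℕ => (j : ℤ))
    · intro u hu
      rw [mem_coe, mem_filter] at hu
      rw [mem_coe, Multiset.mem_toFinset, mem_roots hG0, IsRoot.def, hG, eval_sub, eval_C,
        sub_eq_zero]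
      exact hu.2
    · intro a _ b _ h
      exact Int.ofNat.inj h
  calc _ ≤ G.roots.toFinset.card := h1
    _ ≤ Multiset.card G.roots := Multiset.toFinset_card_le _
    _ ≤ G.natDegree := card_roots' G
    _ = _ := hGd

theorem sum_inv_sq (N : ℕ) : ∑ n ∈ Ico 2 (N + 2), 1 / (n : ℝ) ^ 2 ≤ 1 - 1 / ((N : ℝ) + 1) := by
  induction N with
  | zero => simp
  | succ N ih =>
    rw [sum_Ico_succ_top (by omega)]
    have h1 : (0 : ℝ) < (N : ℝ) + 1 := by positivity
    have h2 : 1 / (((N + 2 : ℕ) : ℝ)) ^ 2 ≤ 1 / ((N : ℝ) + 1) - 1 / ((N : ℝ) + 2) := by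
      push_cast
      rw [div_sub_div _ _ (by positivity) (by positivity), div_le_div_iff₀ (by positivity)
        (by positivity)]
      nlinarith
    push_cast at h2 ⊢
    have e : (N : ℝ) + 1 + 1 = N + 2 := by ring
    rw [e]
    linarith

/-- the constant of the second moment -/
noncomputable def CF (F : ℤ[X]) : ℝ :=
  2 ^ F.leadingCoeff.natAbs.primeFactors.card * Real.exp (4 * F.natDegree)

theorem CF_ge (F : ℤ[X]) : 1 ≤ CF F := by
  unfold CF
  have h1 : (1 : ℝ) ≤ 2 ^ F.leadingCoeff.natAbs.primeFactors.card := one_le_pow₀ (by norm_num)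
  have h2 : 1 ≤ Real.exp (4 * F.natDegree) := Real.one_le_exp (by positivity)
  nlinarith

/-- the second moment -/
theorem card_Tr_le (F : ℤ[X]) (hF : 1 ≤ F.natDegree) (S : Finset ℕ) (hS : ∀ p ∈ S, p.Prime) :
    (Nat.card {t : ZMod (∏ p ∈ S, p) × ZMod (∏ p ∈ S, p) × ZMod (∏ p ∈ S, p) //
      Tr F (ZMod (∏ p ∈ S, p)) t} : ℝ) ≤
      (∏ p ∈ S, (p : ℝ)) ^ 3 * ((∏ p ∈ S, (1 - 1 / (p : ℝ))) ^ 2 * CF F) := by
  classical
  have hlc0 : F.leadingCoeff ≠ 0 := by
    intro h
    rw [leadingCoeff_eq_zero] at h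
    rw [h, natDegree_zero] at hF
    omega
  rw [card_Tr_prime_set F S hS]
  push_cast
  obtain ⟨x, hx⟩ : ∃ x : ℕ → ℝ, x = fun p =>
      if p ∣ F.leadingCoeff.natAbs then 2 else 1 + 4 * (F.natDegree : ℝ) / (p : ℝ) ^ 2 := ⟨_, rfl⟩
  have h1 : ∀ p ∈ S, (Nat.card {t : ZMod p × ZMod p × ZMod p // Tr F (ZMod p) t} : ℝ) ≤
      (p : ℝ) ^ 3 * ((1 - 1 / (p : ℝ)) ^ 2 * x p) := by
    intro p hp
    haveI : Fact p.Prime := ⟨hS p hp⟩
    rw [hx]
    beta_reduce
    split_ifs with h
    · exact card_Tr_triv F p
    · exact card_Tr_field F p F.natDegree (fibre_p F hF p (fun h2 => h (by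
        exact Int.natCast_dvd.1 h2)))
  have h2 : ∏ p ∈ S, x p ≤ CF F := by
    have h3 := prod_filter_mul_prod_filter_not S (fun p => p ∣ F.leadingCoeff.natAbs) x
    rw [← h3]
    unfold CF
    have h4 : ∏ p ∈ S.filter (fun p => p ∣ F.leadingCoeff.natAbs), x p ≤
        2 ^ F.leadingCoeff.natAbs.primeFactors.card := by
      have h5 : ∏ p ∈ S.filter (fun p => p ∣ F.leadingCoeff.natAbs), x p =
          2 ^ (S.filter (fun p => p ∣ F.leadingCoeff.natAbs)).card := by
        rw [← prod_const]
        apply prod_congr rfl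
        intro p hp
        rw [mem_filter] at hp
        rw [hx]
        beta_reduce
        rw [if_pos hp.2]
      rw [h5]
      apply pow_le_pow_right₀ (by norm_num)
      apply card_le_card
      intro p hp
      rw [mem_filter] at hp
      rw [Nat.mem_primeFactors]
      exact ⟨hS p hp.1, hp.2, Int.natAbs_ne_zero.2 hlc0⟩
    have h6 : ∏ p ∈ S.filter (fun p => ¬ p ∣ F.leadingCoeff.natAbs), x p ≤
        Real.exp (4 * F.natDegree) := by
      calc ∏ p ∈ S.filter (fun p => ¬ p ∣ F.leadingCoeff.natAbs), x p ≤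
            ∏ p ∈ S.filter (fun p => ¬ p ∣ F.leadingCoeff.natAbs),
              Real.exp (4 * (F.natDegree : ℝ) / (p : ℝ) ^ 2) := by
            apply prod_le_prod
            · intro p hp
              rw [mem_filter] at hp
              rw [hx]
              beta_reduce
              rw [if_neg hp.2]
              positivity
            · intro p hp
              rw [mem_filter] at hp
              rw [hx]
              beta_reduce
              rw [if_neg hp.2, add_comm]
              exact Real.add_one_le_exp _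
        _ = Real.exp (∑ p ∈ S.filter (fun p => ¬ p ∣ F.leadingCoeff.natAbs),
              4 * (F.natDegree : ℝ) / (p : ℝ) ^ 2) := (Real.exp_sum _ _).symm
        _ ≤ _ := by
            apply Real.exp_le_exp.2
            calc ∑ p ∈ S.filter (fun p => ¬ p ∣ F.leadingCoeff.natAbs),
                  4 * (F.natDegree : ℝ) / (p : ℝ) ^ 2 ≤
                ∑ p ∈ Ico 2 (S.sup id + 2), 4 * (F.natDegree : ℝ) / (p : ℝ) ^ 2 := by
                  apply sum_le_sum_of_subset_of_nonneg
                  · intro p hp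
                    rw [mem_filter] at hp
                    rw [mem_Ico]
                    refine ⟨(hS p hp.1).two_le, ?_⟩
                    have := Finset.le_sup (f := id) hp.1
                    simp only [id] at this
                    omega
                  · intro p _ _
                    positivity
              _ = 4 * (F.natDegree : ℝ) * ∑ p ∈ Ico 2 (S.sup id + 2), 1 / (p : ℝ) ^ 2 := by
                  rw [mul_sum]
                  apply sum_congr rfl
                  intro p _
                  ring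
              _ ≤ 4 * (F.natDegree : ℝ) * 1 := by
                  apply mul_le_mul_of_nonneg_left _ (by positivity)
                  refine (sum_inv_sq (S.sup id)).trans ?_
                  have : (0 : ℝ) ≤ 1 / (((S.sup id : ℕ) : ℝ) + 1) := by positivity
                  linarith
              _ = _ := mul_one _
    have h7 : 0 ≤ ∏ p ∈ S.filter (fun p => ¬ p ∣ F.leadingCoeff.natAbs), x p := by
      apply prod_nonneg
      intro p _
      rw [hx]
      beta_reduce
      split_ifs <;> positivity
    exact mul_le_mul h4 h6 h7 (by positivity)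
  calc ∏ p ∈ S, (Nat.card {t : ZMod p × ZMod p × ZMod p // Tr F (ZMod p) t} : ℝ) ≤
        ∏ p ∈ S, ((p : ℝ) ^ 3 * ((1 - 1 / (p : ℝ)) ^ 2 * x p)) :=
        prod_le_prod (fun p _ => Nat.cast_nonneg _) h1
    _ = (∏ p ∈ S, (p : ℝ)) ^ 3 * ((∏ p ∈ S, (1 - 1 / (p : ℝ))) ^ 2 * ∏ p ∈ S, x p) := by
        rw [prod_mul_distrib, prod_mul_distrib, prod_pow, prod_pow]
    _ ≤ _ := by
        apply mul_le_mul_of_nonneg_left _ (by positivity)
        exact mul_le_mul_of_nonneg_left h2 (by positivity)

end Pool.Agent.H533.QA
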