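import Pool.Agent.H533.QA.Pol

/-!
Polynomial sets of positions: classes with the right local density, number of positions.
-/

set_option autoImplicit false

open Finset Polynomial

namespace Pool.Agent.H533.QA

open Pool.Agent.H361R2.PP
open Pool.Agent.H533.QM

/-- the values of the polynomial, as natural numbers -/
def gF (F : ℤ[X]) (j : ℕ) : ℕ := (F.eval (j : ℤ)).toNat

/-- the number of admissible `u` modulo `W` -/
noncomputable def UF (F : ℤ[X]) (W b : ℕ) : ℕ :=
  ((range W).filter (fun u => (b + gF F u).Coprime W)).card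

theorem gF_cast {F : ℤ[X]} (h0 : ∀ j : ℕ, 0 ≤ F.eval (j : ℤ)) (j : ℕ) :
    ((gF F j : ℕ) : ℤ) = F.eval (j : ℤ) := by
  unfold gF
  exact Int.toNat_of_nonneg (h0 j)

theorem ev_cast {F : ℤ[X]} (h0 : ∀ j : ℕ, 0 ≤ F.eval (j : ℤ)) (W j : ℕ) :
    ((gF F j : ℕ) : ZMod W) = ev F ((j : ℕ) : ZMod W) := by
  have h1 : ((gF F j : ℕ) : ZMod W) = ((F.eval (j : ℤ) : ℤ) : ZMod W) := by
    rw [← gF_cast h0 j]
    push_cast
    rfl
  rw [h1]
  have h2 := ev_hom F (Int.castRingHom (ZMod W)) (j : ℤ)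
  rw [eq_intCast, eq_intCast] at h2
  have h3 : ev F (j : ℤ) = F.eval (j : ℤ) := by
    unfold ev eval
    congr 1
  rw [h3] at h2
  rw [h2]
  push_cast
  rfl

theorem unit_iff {F : ℤ[X]} (h0 : ∀ j : ℕ, 0 ≤ F.eval (j : ℤ)) (W b u : ℕ) :
    IsUnit ((b : ZMod W) + ev F (u : ZMod W)) ↔ (b + gF F u).Coprime W := by
  rw [← ev_cast h0, ← Nat.cast_add, ZMod.isUnit_iff_coprime]

theorem sum_UF {F : ℤ[X]} (W : ℕ) :
    ∑ b ∈ range W, UF F W b = W * Nat.totient W := by
  unfold UF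
  simp only [card_filter]
  rw [sum_comm]
  have h : ∀ u ∈ range W, ∑ b ∈ range W, (if (b + gF F u).Coprime W then 1 else 0) =
      Nat.totient W := by
    intro u _
    rw [← card_filter, card_cop]
  rw [sum_congr rfl h, sum_const, smul_eq_mul, card_range]

theorem sum_UF_sq {F : ℤ[X]} (h0 : ∀ j : ℕ, 0 ≤ F.eval (j : ℤ)) (W : ℕ) (hW : 0 < W) :
    ∑ b ∈ range W, UF F W b ^ 2 =
      Nat.card {t : ZMod W × ZMod W × ZMod W // Tr F (ZMod W) t} := by
  classical
  haveI : NeZero W := ⟨hW.ne'⟩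
  have h1 : ∑ b ∈ range W, UF F W b ^ 2 = ((range W ×ˢ (range W ×ˢ range W)).filter
      (fun t => (t.1 + gF F t.2.1).Coprime W ∧ (t.1 + gF F t.2.2).Coprime W)).card := by
    rw [card_filter, sum_product]
    apply sum_congr rfl
    intro b _
    unfold UF
    rw [← card_filter, sq, ← card_product]
    congr 1
    ext s
    simp only [mem_product, mem_filter]
    tauto
  rw [h1, Nat.card_eq_fintype_card, Fintype.card_subtype]
  apply Finset.card_bij (fun t _ => ((t.1 : ZMod W), (t.2.1 : ZMod W), (t.2.2 : ZMod W)))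
  · intro t ht
    rw [mem_filter] at ht
    rw [mem_filter]
    exact ⟨mem_univ _, (unit_iff h0 W _ _).2 ht.2.1, (unit_iff h0 W _ _).2 ht.2.2⟩
  · intro t ht t' ht' h
    rw [mem_filter, mem_product, mem_product, mem_range, mem_range, mem_range] at ht ht'
    have hc : ∀ a b : ℕ, a < W → b < W → (a : ZMod W) = (b : ZMod W) → a = b := by
      intro a b ha hb hab
      have := (ZMod.natCast_eq_natCast_iff' a b W).1 hab
      rwa [Nat.mod_eq_of_lt ha, Nat.mod_eq_of_lt hb] at this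
    rw [Prod.mk.injEq, Prod.mk.injEq] at h
    exact Prod.ext (hc _ _ ht.1.1 ht'.1.1 h.1) (Prod.ext (hc _ _ ht.1.2.1 ht'.1.2.1 h.2.1)
      (hc _ _ ht.1.2.2 ht'.1.2.2 h.2.2))
  · intro s hs
    rw [mem_filter] at hs
    refine ⟨(s.1.val, s.2.1.val, s.2.2.val), ?_, ?_⟩
    · rw [mem_filter, mem_product, mem_product, mem_range, mem_range, mem_range]
      refine ⟨⟨ZMod.val_lt _, ZMod.val_lt _, ZMod.val_lt _⟩, ?_, ?_⟩
      · have h2 := hs.2.1
        rw [← ZMod.natCast_zmod_val s.1, ← ZMod.natCast_zmod_val s.2.1] at h2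
        exact (unit_iff h0 W _ _).1 h2
      · have h2 := hs.2.2
        rw [← ZMod.natCast_zmod_val s.1, ← ZMod.natCast_zmod_val s.2.2] at h2
        exact (unit_iff h0 W _ _).1 h2
    · simp

/-- many classes have about the right number of admissible `u` -/
theorem good_b {F : ℤ[X]} (hF : 1 ≤ F.natDegree) (h0 : ∀ j : ℕ, 0 ≤ F.eval (j : ℤ)) (X : ℕ) :
    (Wq X 1 : ℝ) / (8 * CF F) ≤ (((range (Wq X 1)).filter (fun b =>
      (Nat.totient (Wq X 1) : ℝ) / 2 ≤ UF F (Wq X 1) b ∧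
      (UF F (Wq X 1) b : ℝ) ≤ 8 * CF F * Nat.totient (Wq X 1))).card : ℝ) := by
  obtain ⟨C, hC⟩ : ∃ C, C = CF F := ⟨_, rfl⟩
  have hC1 : 1 ≤ C := by rw [hC]; exact CF_ge F
  obtain ⟨W, hWd⟩ : ∃ W, W = Wq X 1 := ⟨_, rfl⟩
  have hW0 : 0 < W := by rw [hWd]; exact Wq_pos X 1
  have hWr : (0 : ℝ) < W := by exact_mod_cast hW0
  have hφ : (0 : ℝ) < Nat.totient W := by exact_mod_cast Nat.totient_pos.2 hW0
  have h2 : ∑ b ∈ range W, (UF F W b : ℝ) ^ 2 ≤ W * (Nat.totient W : ℝ) ^ 2 * C := by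
    have h3 := card_Tr_le F hF (Sm X 1) (fun p hp => (mem_Sm.1 hp).2.1)
    have h4 := sum_UF_sq h0 W hW0
    have h5 : ∑ b ∈ range W, (UF F W b : ℝ) ^ 2 =
        (Nat.card {t : ZMod W × ZMod W × ZMod W // Tr F (ZMod W) t} : ℝ) := by
      rw [← h4]
      push_cast
      rfl
    rw [h5, hWd]
    refine h3.trans (le_of_eq ?_)
    have h6 : (Nat.totient (Wq X 1) : ℝ) / Wq X 1 = ∏ p ∈ Sm X 1, (1 - 1 / (p : ℝ)) := frW X 1
    have h7 : (∏ p ∈ Sm X 1, (p : ℝ)) = (Wq X 1 : ℝ) := by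
      unfold Wq
      push_cast
      rfl
    rw [← h6, h7, hC]
    have : (Wq X 1 : ℝ) ≠ 0 := by rw [← hWd]; exact hWr.ne'
    field_simp
  have h1 : ∑ b ∈ range W, (UF F W b : ℝ) = W * Nat.totient W := by
    exact_mod_cast sum_UF (F := F) W
  rw [← hWd, ← hC]
  obtain ⟨P, hP⟩ : ∃ P, P = (range W).filter (fun b => (Nat.totient W : ℝ) / 2 ≤ UF F W b) :=
    ⟨_, rfl⟩
  obtain ⟨Q, hQ⟩ : ∃ Q, Q = (range W).filter (fun b =>
      ¬ (UF F W b : ℝ) ≤ 8 * C * Nat.totient W) := ⟨_, rfl⟩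
  -- lower bound for `P`
  have hPc : (W : ℝ) / (4 * C) ≤ P.card := by
    have hsplit := sum_filter_add_sum_filter_not (range W)
      (fun b => (Nat.totient W : ℝ) / 2 ≤ UF F W b) (fun b => (UF F W b : ℝ))
    rw [h1, ← hP] at hsplit
    have hb : ∑ b ∈ (range W).filter (fun b => ¬ (Nat.totient W : ℝ) / 2 ≤ UF F W b),
        (UF F W b : ℝ) ≤ W * ((Nat.totient W : ℝ) / 2) := by
      calc _ ≤ ∑ b ∈ (range W).filter (fun b => ¬ (Nat.totient W : ℝ) / 2 ≤ UF F W b),
            (Nat.totient W : ℝ) / 2 := by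
            apply sum_le_sum
            intro b hb
            rw [mem_filter, not_le] at hb
            exact hb.2.le
        _ ≤ ∑ b ∈ range W, (Nat.totient W : ℝ) / 2 := by
            apply sum_le_sum_of_subset_of_nonneg (filter_subset _ _)
            intro b _ _
            positivity
        _ = _ := by rw [sum_const, card_range, nsmul_eq_mul]
    have hPs : (W : ℝ) * (Nat.totient W / 2) ≤ ∑ b ∈ P, (UF F W b : ℝ) := by linarith
    have hcs : (∑ b ∈ P, (UF F W b : ℝ)) ^ 2 ≤ P.card * ∑ b ∈ P, (UF F W b : ℝ) ^ 2 :=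
      sq_sum_le_card_mul_sum_sq
    have hsub : ∑ b ∈ P, (UF F W b : ℝ) ^ 2 ≤ ∑ b ∈ range W, (UF F W b : ℝ) ^ 2 := by
      apply sum_le_sum_of_subset_of_nonneg
      · rw [hP]; exact filter_subset _ _
      · intro b _ _
        positivity
    have h8 : ((W : ℝ) * (Nat.totient W / 2)) ^ 2 ≤ P.card * (W * (Nat.totient W : ℝ) ^ 2 * C) :=
      calc ((W : ℝ) * (Nat.totient W / 2)) ^ 2 ≤ (∑ b ∈ P, (UF F W b : ℝ)) ^ 2 :=
            pow_le_pow_left₀ (by positivity) hPs 2
        _ ≤ P.card * ∑ b ∈ P, (UF F W b : ℝ) ^ 2 := hcs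
        _ ≤ _ := mul_le_mul_of_nonneg_left (hsub.trans h2) (Nat.cast_nonneg _)
    have h9 : (W * (Nat.totient W : ℝ) ^ 2) * W ≤
        (W * (Nat.totient W : ℝ) ^ 2) * (4 * C * P.card) := by nlinarith
    have h10 := le_of_mul_le_mul_left h9 (by positivity)
    rw [div_le_iff₀ (by linarith)]
    linarith
  -- upper bound for `Q`
  have hQc : (Q.card : ℝ) ≤ (W : ℝ) / (8 * C) := by
    have h3 : (Q.card : ℝ) * (8 * C * Nat.totient W) ≤ W * Nat.totient W := by
      calc (Q.card : ℝ) * (8 * C * Nat.totient W) = ∑ b ∈ Q, 8 * C * (Nat.totient W : ℝ) := by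
            rw [sum_const, nsmul_eq_mul]
        _ ≤ ∑ b ∈ Q, (UF F W b : ℝ) := by
            apply sum_le_sum
            intro b hb
            rw [hQ, mem_filter, not_le] at hb
            exact hb.2.le
        _ ≤ ∑ b ∈ range W, (UF F W b : ℝ) := by
            apply sum_le_sum_of_subset_of_nonneg
            · rw [hQ]; exact filter_subset _ _
            · intro b _ _
              positivity
        _ = _ := h1
    have h4 : (Nat.totient W : ℝ) * (Q.card * (8 * C)) ≤ Nat.totient W * W := by nlinarith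
    have h5 := le_of_mul_le_mul_left h4 hφ
    rw [le_div_iff₀ (by linarith)]
    exact h5
  have hsub : P ⊆ ((range W).filter (fun b => (Nat.totient W : ℝ) / 2 ≤ UF F W b ∧
      (UF F W b : ℝ) ≤ 8 * C * Nat.totient W)) ∪ Q := by
    intro b hb
    rw [hP, mem_filter] at hb
    rw [mem_union, mem_filter, hQ, mem_filter]
    by_cases h : (UF F W b : ℝ) ≤ 8 * C * Nat.totient W
    · exact Or.inl ⟨hb.1, hb.2, h⟩
    · exact Or.inr ⟨hb.1, h⟩
  have h3 := (card_le_card hsub).trans (card_union_le _ _)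
  have h4 : (P.card : ℝ) ≤ (((range W).filter (fun b => (Nat.totient W : ℝ) / 2 ≤ UF F W b ∧
      (UF F W b : ℝ) ≤ 8 * C * Nat.totient W)).card : ℝ) + Q.card := by exact_mod_cast h3
  have h5 : (W : ℝ) / (4 * C) = W / (8 * C) + W / (8 * C) := by
    field_simp
    ring
  linarith

/-- the values are periodic modulo `W` -/
theorem gF_mod {F : ℤ[X]} (h0 : ∀ j : ℕ, 0 ≤ F.eval (j : ℤ)) (W b j : ℕ) :
    (b + gF F (j + W)).Coprime W ↔ (b + gF F j).Coprime W := by
  rw [← unit_iff h0, ← unit_iff h0]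
  push_cast
  rw [ZMod.natCast_self, add_zero]

/-- complete periods -/
theorem per_blocks {F : ℤ[X]} (h0 : ∀ j : ℕ, 0 ≤ F.eval (j : ℤ)) (W b s r : ℕ) :
    ((Ico s (s + r * W)).filter (fun j => (b + gF F j).Coprime W)).card = r * UF F W b := by
  induction r with
  | zero => simp
  | succ r ih =>
    have h1 : (Ico s (s + (r + 1) * W)) = Ico s (s + r * W) ∪ Ico (s + r * W) (s + r * W + W) := by
      rw [Ico_union_Ico_eq_Ico (by omega) (by omega)]
      congr 1
      ring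
    rw [h1, filter_union, card_union_of_disjoint, ih]
    · have h2 := Nat.filter_Ico_card_eq_of_periodic (s + r * W) W
        (fun j => (b + gF F j).Coprime W) (fun j => propext (gF_mod h0 W b j))
      rw [h2, Nat.count_eq_card_filter_range]
      unfold UF
      ring
    · apply disjoint_filter_filter
      rw [disjoint_left]
      intro x hx hy
      rw [mem_Ico] at hx hy
      omega

theorem per_lower {F : ℤ[X]} (h0 : ∀ j : ℕ, 0 ≤ F.eval (j : ℤ)) (W b s t : ℕ) (hW : 0 < W)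
    (hst : s ≤ t) : (((t : ℝ) - s) / W - 1) * UF F W b ≤
    (((Ico s t).filter (fun j => (b + gF F j).Coprime W)).card : ℝ) := by
  have h1 := per_blocks h0 W b s ((t - s) / W)
  have h2 : Ico s (s + (t - s) / W * W) ⊆ Ico s t := by
    apply Ico_subset_Ico_right
    have := Nat.div_mul_le_self (t - s) W
    omega
  have h3 := card_le_card (filter_subset_filter (fun j => (b + gF F j).Coprime W) h2)
  rw [h1] at h3
  have h4 : (((t - s) / W * UF F W b : ℕ) : ℝ) ≤
      (((Ico s t).filter (fun j => (b + gF F j).Coprime W)).card : ℝ) := by exact_mod_cast h3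
  refine le_trans ?_ h4
  push_cast
  apply mul_le_mul_of_nonneg_right _ (Nat.cast_nonneg _)
  have hWr : (0 : ℝ) < W := by exact_mod_cast hW
  rw [sub_le_iff_le_add, div_le_iff₀ hWr]
  have h5 : t - s < ((t - s) / W + 1) * W := by
    have := Nat.lt_div_mul_add (a := t - s) hW
    nlinarith
  have h6 : ((t - s : ℕ) : ℝ) < (((t - s) / W + 1) * W : ℕ) := by exact_mod_cast h5
  rw [Nat.cast_sub hst] at h6
  push_cast at h6
  exact h6.le

theorem per_upper {F : ℤ[X]} (h0 : ∀ j : ℕ, 0 ≤ F.eval (j : ℤ)) (W b s t : ℕ) (hW : 0 < W)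
    (hst : s ≤ t) : (((Ico s t).filter (fun j => (b + gF F j).Coprime W)).card : ℝ) ≤
    (((t : ℝ) - s) / W + 1) * UF F W b := by
  have h1 := per_blocks h0 W b s ((t - s) / W + 1)
  have h5 : t - s < ((t - s) / W + 1) * W := by
    have := Nat.lt_div_mul_add (a := t - s) hW
    nlinarith
  have h2 : Ico s t ⊆ Ico s (s + ((t - s) / W + 1) * W) := by
    apply Ico_subset_Ico_right
    omega
  have h3 := card_le_card (filter_subset_filter (fun j => (b + gF F j).Coprime W) h2)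
  rw [h1] at h3
  have h4 : (((Ico s t).filter (fun j => (b + gF F j).Coprime W)).card : ℝ) ≤
    ((((t - s) / W + 1) * UF F W b : ℕ) : ℝ) := by exact_mod_cast h3
  refine le_trans h4 ?_
  push_cast
  apply mul_le_mul_of_nonneg_right _ (Nat.cast_nonneg _)
  have hWr : (0 : ℝ) < W := by exact_mod_cast hW
  have h6 : ((((t - s) / W : ℕ) : ℕ) : ℝ) ≤ ((t : ℝ) - s) / W := by
    rw [← Nat.cast_sub hst]
    exact Nat.cast_div_le
  push_cast at h6
  linarith

end Pool.Agent.H533.QA
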