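import Pool.Agent.H533.QA.Pol2

/-!
Polynomial sets of positions: the master theorem.
-/

set_option autoImplicit false

open Finset Polynomial Filter Topology

namespace Pool.Agent.H533.QA

open Pool.Agent.H361R2.PP
open Pool.Agent.H533.QM

/-- size of the values -/
theorem gF_le (F : ℤ[X]) (Λ : ℝ) (hΛ : 0 < Λ) : ∃ X₀ : ℕ, ∀ X : ℕ, X₀ ≤ X → ∀ j : ℕ,
    (j : ℝ) ≤ Λ * Real.log X → (gF F j : ℝ) ≤ Real.log X ^ (F.natDegree + 1) := by
  obtain ⟨S, hS⟩ : ∃ S : ℝ, S = ∑ i ∈ range (F.natDegree + 1), |(F.coeff i : ℝ)| := ⟨_, rfl⟩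
  have hS0 : 0 ≤ S := by rw [hS]; exact sum_nonneg fun _ _ => abs_nonneg _
  have t1 : Tendsto (fun X : ℕ => Real.log (X : ℝ)) atTop atTop :=
    Real.tendsto_log_atTop.comp tendsto_natCast_atTop_atTop
  obtain ⟨X₀, h⟩ := eventually_atTop.1 (t1.eventually_ge_atTop
    (1 + S * (Λ + 1) ^ F.natDegree))
  refine ⟨X₀, fun X hX j hj => ?_⟩
  have hL := h X hX
  obtain ⟨L, hLd⟩ : ∃ L : ℝ, L = Real.log X := ⟨_, rfl⟩
  rw [← hLd] at hL hj ⊢
  have hL1 : 1 ≤ L := by
    have : 0 ≤ S * (Λ + 1) ^ F.natDegree := by positivity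
    linarith
  have h1 : (gF F j : ℝ) ≤ |((F.eval (j : ℤ) : ℤ) : ℝ)| := by
    have h2 : ((gF F j : ℕ) : ℤ) ≤ |F.eval (j : ℤ)| := by
      unfold gF
      rcases le_or_gt 0 (F.eval (j : ℤ)) with h | h
      · rw [Int.toNat_of_nonneg h]
        exact le_abs_self _
      · rw [Int.toNat_of_nonpos h.le]
        exact abs_nonneg _
    exact_mod_cast h2
  refine h1.trans ?_
  rw [eval_eq_sum_range]
  push_cast
  calc |∑ i ∈ range (F.natDegree + 1), (F.coeff i : ℝ) * (j : ℝ) ^ i| ≤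
        ∑ i ∈ range (F.natDegree + 1), |(F.coeff i : ℝ) * (j : ℝ) ^ i| := abs_sum_le_sum_abs _ _
    _ ≤ ∑ i ∈ range (F.natDegree + 1), |(F.coeff i : ℝ)| * ((Λ + 1) * L) ^ F.natDegree := by
        apply sum_le_sum
        intro i hi
        rw [mem_range] at hi
        rw [abs_mul, abs_of_nonneg (show (0 : ℝ) ≤ (j : ℝ) ^ i by positivity)]
        apply mul_le_mul_of_nonneg_left _ (abs_nonneg _)
        have h3 : (j : ℝ) ≤ (Λ + 1) * L := by nlinarith
        have h4 : 1 ≤ (Λ + 1) * L := by nlinarith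
        calc (j : ℝ) ^ i ≤ ((Λ + 1) * L) ^ i := pow_le_pow_left₀ (Nat.cast_nonneg _) h3 i
          _ ≤ _ := pow_le_pow_right₀ h4 (by omega)
    _ = (S * (Λ + 1) ^ F.natDegree) * L ^ F.natDegree := by
        rw [← sum_mul, ← hS, mul_pow]
        ring
    _ ≤ L * L ^ F.natDegree := mul_le_mul_of_nonneg_right (by linarith) (by positivity)
    _ = _ := by ring

open Classical in
/-- **Master theorem for polynomial positions** -/
theorem polyM (F : ℤ[X]) (hF : 1 ≤ F.natDegree) (h0 : ∀ j : ℕ, 0 ≤ F.eval (j : ℤ)) (j₀ : ℕ)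
    (hmono : ∀ i j : ℕ, j₀ < i → i < j → F.eval (i : ℤ) < F.eval (j : ℤ))
    (h1 : ∀ j : ℕ, j₀ < j → 1 ≤ F.eval (j : ℤ))
    (k m : ℕ) (α : Fin k → ℝ) (ε Λ : ℝ) (hε : 0 < ε) (hΛ : 0 < Λ)
    (hα : ∀ i, 0 ≤ α i ∧ α i + ε ≤ Λ) :
    ∃ c : ℝ, 0 < c ∧ ∃ X₀ : ℕ, ∀ X : ℕ, X₀ ≤ X →
    c * X ≤ (((Ico X (2 * X)).filter (fun n =>
      k ≤ 4 * ((univ : Finset (Fin k)).filter (fun i => m ≤
        ((Ioc j₀ ⌊Λ * Real.log X⌋₊).filter (fun j => CL (α i) ε (Real.log X) j ∧
          (n + gF F j).Prime)).card)).card ∧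
      ∀ j ∈ Ioc j₀ ⌊Λ * Real.log X⌋₊, (n + gF F j).Prime →
        ∃ i, CL (α i) ε (Real.log X) j)).card : ℝ) := by
  have hC1 := CF_ge F
  obtain ⟨C, hC⟩ : ∃ C, C = CF F := ⟨_, rfl⟩
  rw [← hC] at hC1
  obtain ⟨c, hc, H⟩ := instA k m (ε / 4) (16 * C * Λ + ε) (by positivity)
    (by nlinarith [mul_nonneg (by linarith : (0 : ℝ) ≤ C) hΛ.le])
  obtain ⟨X1, H1⟩ := H (F.natDegree + 1)
  obtain ⟨X2, H2⟩ := gF_le F Λ hΛ
  obtain ⟨X3, H3⟩ := L_big (4 / Λ + 2 * ((j₀ : ℝ) + 3) / ε)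
  refine ⟨c / (8 * C), by positivity, X1 + X2 + X3 + 2, fun X hX => ?_⟩
  have hX0 : (0 : ℝ) < X := by exact_mod_cast (by omega : 0 < X)
  obtain ⟨W, hWd⟩ : ∃ W, W = Wq X 1 := ⟨_, rfl⟩
  have hW0 : 0 < W := by rw [hWd]; exact Wq_pos X 1
  have hWr : (0 : ℝ) < W := by exact_mod_cast hW0
  have hW1 : (1 : ℝ) ≤ W := by exact_mod_cast hW0
  have hφ : (0 : ℝ) < Nat.totient W := by exact_mod_cast Nat.totient_pos.2 hW0
  have hfr : fr 1 = 1 := by unfold fr; simp
  obtain ⟨L, hL⟩ : ∃ L : ℝ, L = Real.log X := ⟨_, rfl⟩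
  have hLs : Ls X 1 = L := by unfold Ls; rw [hfr, one_mul, hL]
  have hlq : lq X 1 = L * ((Nat.totient W : ℝ) / W) := by unfold lq; rw [hLs, hWd]
  have hbig := H3 X (by omega) 1 le_rfl (by omega)
  rw [hfr, one_mul, ← hL, ← hWd] at hbig
  have hWW : (W : ℝ) ≤ (W : ℝ) ^ 2 := by nlinarith
  have hW2 : (1 : ℝ) ≤ (W : ℝ) ^ 2 := by nlinarith
  have hjp : (0 : ℝ) ≤ 2 * ((j₀ : ℝ) + 3) / ε := by positivity
  have hΛp : (0 : ℝ) ≤ 4 / Λ := by positivity
  have hb1 : 4 / Λ * (W : ℝ) ^ 2 ≤ L := by nlinarith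
  have hb2 : 2 * ((j₀ : ℝ) + 3) / ε * (W : ℝ) ^ 2 ≤ L := by nlinarith
  have hb1' : 4 * (W : ℝ) ≤ Λ * L := by
    rw [div_mul_eq_mul_div, div_le_iff₀ hΛ] at hb1
    nlinarith
  have hb2' : (j₀ : ℝ) + 2 + W ≤ ε * L / 2 := by
    rw [div_mul_eq_mul_div, div_le_iff₀ hε] at hb2
    have hj0 : (0 : ℝ) ≤ j₀ := Nat.cast_nonneg _
    nlinarith
  have hL0 : 0 < L := by
    have : 0 < Λ * L := by linarith
    exact (pos_iff_pos_of_mul_pos this).1 hΛ
  -- the positions
  obtain ⟨N, hN⟩ : ∃ N, N = ⌊Λ * L⌋₊ := ⟨_, rfl⟩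
  rw [← hL, ← hN]
  have hNle : (N : ℝ) ≤ Λ * L := by rw [hN]; exact Nat.floor_le (by positivity)
  have hNlt : Λ * L < N + 1 := by rw [hN]; exact Nat.lt_floor_add_one _
  have hinj : ∀ i ∈ Ioc j₀ N, ∀ j ∈ Ioc j₀ N, gF F i = gF F j → i = j := by
    intro i hi j hj h
    rw [mem_Ioc] at hi hj
    have h2 : F.eval (i : ℤ) = F.eval (j : ℤ) := by
      rw [← gF_cast h0, ← gF_cast h0, h]
    rcases Nat.lt_trichotomy i j with h3 | h3 | h3
    · exact absurd h2 (hmono i j hi.1 h3).ne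
    · exact h3
    · exact absurd h2 (hmono j i hj.1 h3).ne'
  have hinjP : ∀ (P : ℕ → Prop) [DecidablePred P],
      Set.InjOn (gF F) (((Ioc j₀ N).filter P : Finset ℕ) : Set ℕ) := by
    intro P _ i hi j hj h
    rw [mem_coe, mem_filter] at hi hj
    exact hinj i hi.1 j hj.1 h
  obtain ⟨J, hJ⟩ : ∃ J, J = (Ioc j₀ N).image (gF F) := ⟨_, rfl⟩
  obtain ⟨AA, hAA⟩ : ∃ AA : Fin k → Finset ℕ, AA = fun i =>
      ((Ioc j₀ N).filter (fun j => CL (α i) ε L j)).image (gF F) := ⟨_, rfl⟩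
  have hJ1 : ∀ a ∈ J, 1 ≤ a ∧ (a : ℝ) ≤ Real.log X ^ (F.natDegree + 1) := by
    intro a ha
    rw [hJ, mem_image] at ha
    obtain ⟨j, hj, rfl⟩ := ha
    rw [mem_Ioc] at hj
    refine ⟨?_, ?_⟩
    · have h2 := h1 j hj.1
      rw [← gF_cast h0] at h2
      exact_mod_cast h2
    · apply H2 X (by omega)
      rw [← hL]
      exact le_trans (by exact_mod_cast hj.2) hNle
  have hAJ : ∀ i, AA i ⊆ J := by
    intro i
    rw [hAA, hJ]
    exact image_subset_image (filter_subset _ _)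
  -- admissible positions
  have hadm : ∀ (b : ℕ) (P : ℕ → Prop) [DecidablePred P],
      (adm X 1 b (((Ioc j₀ N).filter P).image (gF F))).card =
      (((Ioc j₀ N).filter P).filter (fun j => (b + gF F j).Coprime W)).card := by
    intro b P _
    unfold adm
    rw [filter_image, card_image_of_injOn]
    · simp only [mul_one, hWd]
    · intro i hi j hj h
      rw [mem_coe, mem_filter] at hi hj
      exact hinjP P (by exact_mod_cast hi.1) (by exact_mod_cast hj.1) h
  have hG := good_b hF h0 X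
  rw [← hWd, ← hC] at hG
  have hsub : (range W).filter (fun b => (Nat.totient W : ℝ) / 2 ≤ UF F W b ∧
      (UF F W b : ℝ) ≤ 8 * C * Nat.totient W) ⊆ (range (Wq X 1)).filter (fun b =>
      ((adm X 1 b J).card : ℝ) ≤ (16 * C * Λ + ε) * lq X 1 ∧
      ∀ i, ε / 4 * lq X 1 ≤ ((adm X 1 b (AA i)).card : ℝ)) := by
    intro b hb
    rw [mem_filter] at hb
    rw [mem_filter, ← hWd]
    obtain ⟨hb0, hb1, hb2⟩ := hb
    refine ⟨hb0, ?_, ?_⟩
    · have h3 := hadm b (fun _ => True)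
      rw [filter_true] at h3
      rw [hJ, h3]
      have h4 : (Ioc j₀ N).filter (fun j => (b + gF F j).Coprime W) ⊆
          (Ico 0 (N + 1)).filter (fun j => (b + gF F j).Coprime W) := by
        apply filter_subset_filter
        intro j hj
        rw [mem_Ioc] at hj
        rw [mem_Ico]
        omega
      have h5 := per_upper h0 W b 0 (N + 1) hW0 (by omega)
      have h6 : (((Ioc j₀ N).filter (fun j => (b + gF F j).Coprime W)).card : ℝ) ≤
          (((Ico 0 (N + 1)).filter (fun j => (b + gF F j).Coprime W)).card : ℝ) := by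
        exact_mod_cast card_le_card h4
      refine (h6.trans h5).trans ?_
      push_cast
      have h7 : ((N : ℝ) + 1 - 0) / W + 1 ≤ 2 * (Λ * L) / W := by
        rw [div_add_one hWr.ne']
        apply div_le_div_of_nonneg_right _ hWr.le
        linarith
      calc (((N : ℝ) + 1 - 0) / W + 1) * UF F W b ≤
            (2 * (Λ * L) / W) * (8 * C * Nat.totient W) :=
            mul_le_mul h7 hb2 (Nat.cast_nonneg _) (by positivity)
        _ = 16 * C * Λ * lq X 1 := by rw [hlq]; ring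
        _ ≤ _ := by
            apply mul_le_mul_of_nonneg_right (by linarith)
            rw [hlq]
            positivity
    · intro i
      rw [hAA]
      beta_reduce
      rw [hadm b (fun j => CL (α i) ε L j)]
      obtain ⟨s, hs⟩ : ∃ s, s = ⌊α i * L⌋₊ + 1 + j₀ := ⟨_, rfl⟩
      obtain ⟨t, ht⟩ : ∃ t, t = ⌊(α i + ε) * L⌋₊ + 1 := ⟨_, rfl⟩
      have hα0 := (hα i).1
      have hs1 : (s : ℝ) ≤ α i * L + 1 + j₀ := by
        rw [hs]
        push_cast
        have := Nat.floor_le (show 0 ≤ α i * L by positivity)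
        linarith
      have ht1 : (α i + ε) * L < t := by
        rw [ht]
        push_cast
        exact Nat.lt_floor_add_one _
      have hst : s ≤ t := by
        have : (s : ℝ) ≤ t := by nlinarith
        exact_mod_cast this
      have h4 : (Ico s t).filter (fun j => (b + gF F j).Coprime W) ⊆
          ((Ioc j₀ N).filter (fun j => CL (α i) ε L j)).filter
            (fun j => (b + gF F j).Coprime W) := by
        apply filter_subset_filter
        intro j hj
        rw [mem_Ico] at hj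
        rw [mem_filter, mem_Ioc]
        have hj1 : (j : ℝ) ≤ (α i + ε) * L := by
          apply (Nat.le_floor_iff (by positivity)).1
          omega
        refine ⟨⟨by omega, ?_⟩, ?_, hj1⟩
        · rw [hN]
          apply Nat.le_floor
          exact hj1.trans (mul_le_mul_of_nonneg_right (hα i).2 hL0.le)
        · exact Nat.lt_of_floor_lt (by omega)
      have h5 := per_lower h0 W b s t hW0 hst
      have h6 : (((Ico s t).filter (fun j => (b + gF F j).Coprime W)).card : ℝ) ≤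
          ((((Ioc j₀ N).filter (fun j => CL (α i) ε L j)).filter
            (fun j => (b + gF F j).Coprime W)).card : ℝ) := by
        exact_mod_cast card_le_card h4
      refine le_trans ?_ (h5.trans h6)
      have h7 : ε * L / 2 / W ≤ ((t : ℝ) - s) / W - 1 := by
        rw [div_sub_one hWr.ne']
        apply div_le_div_of_nonneg_right _ hWr.le
        nlinarith
      calc ε / 4 * lq X 1 = (ε * L / 2 / W) * (Nat.totient W / 2) := by rw [hlq]; ring
        _ ≤ _ := mul_le_mul h7 hb1 (by positivity) (by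
            refine le_trans ?_ h7
            positivity)
  have hG2 := hG.trans (Nat.cast_le.2 (card_le_card hsub))
  have hres := H1 X (by omega) 1 le_rfl (by omega) J hJ1 AA hAJ
  have hlow : c / (8 * C) * X ≤ c * (fr 1 * (X : ℝ) / Wq X 1) *
      (((range (Wq X 1)).filter (fun b =>
      ((adm X 1 b J).card : ℝ) ≤ (16 * C * Λ + ε) * lq X 1 ∧
      ∀ i, ε / 4 * lq X 1 ≤ ((adm X 1 b (AA i)).card : ℝ))).card : ℝ) := by
    refine le_trans (le_of_eq ?_) (mul_le_mul_of_nonneg_left hG2 (by rw [hfr]; positivity))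
    rw [hfr, ← hWd]
    field_simp
  refine (hlow.trans hres).trans (Nat.cast_le.2 (card_le_card ?_))
  intro n hn
  rw [mem_filter] at hn ⊢
  obtain ⟨hn1, -, hn2, hn3⟩ := hn
  refine ⟨hn1, ?_, ?_⟩
  · refine hn2.trans ?_
    apply Nat.mul_le_mul_left
    apply card_le_card
    intro i hi
    rw [mem_filter] at hi ⊢
    refine ⟨hi.1, hi.2.trans ?_⟩
    rw [hAA]
    beta_reduce
    rw [filter_image]
    refine card_image_le.trans (card_le_card ?_)
    intro j hj
    rw [mem_filter, mem_filter, mul_one] at hj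
    rw [mem_filter]
    exact ⟨hj.1.1, hj.1.2, hj.2⟩
  · intro j hj hp
    obtain ⟨i, hi⟩ := hn3 (gF F j) (by rw [hJ]; exact mem_image_of_mem _ hj)
      (by rw [mul_one]; exact hp)
    rw [hAA, mem_image] at hi
    obtain ⟨j', hj', h5⟩ := hi
    rw [mem_filter] at hj'
    have h6 := hinj j' hj'.1 j hj h5
    rw [← h6]
    exact ⟨i, hj'.2⟩

end Pool.Agent.H533.QA
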