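import Pool.Agent.H533.QA.Pol3

/-!
Polynomial sets of positions: the master theorem for `n - f(j)`.
-/

set_option autoImplicit false

open Finset Polynomial Filter Topology

namespace Pool.Agent.H533.QA

open Pool.Agent.H361R2.PP
open Pool.Agent.H533.QM

/-- the opposite class -/
theorem opp_cop {W b M g b' : ℕ} (hg : g ≤ M) (hb' : (b + M) + b' ≡ 0 [MOD W]) :
    (b + (M - g)).Coprime W ↔ (b' + g).Coprime W := by
  have h1 : (b + (M - g)) + (b' + g) ≡ 0 [MOD W] := by
    have : (b + (M - g)) + (b' + g) = (b + M) + b' := by omega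
    rw [this]
    exact hb'
  have h2 : W ∣ (b + (M - g)) + (b' + g) := (Nat.modEq_zero_iff_dvd).1 h1
  constructor
  · intro h
    have h3 : Nat.gcd (b' + g) W ∣ b + (M - g) :=
      (Nat.dvd_add_left (Nat.gcd_dvd_left _ _)).1 ((Nat.gcd_dvd_right _ _).trans h2)
    have h4 := Nat.dvd_gcd h3 (Nat.gcd_dvd_right (b' + g) W)
    rw [h] at h4
    exact Nat.dvd_one.1 h4
  · intro h
    have h3 : Nat.gcd (b + (M - g)) W ∣ b' + g :=
      (Nat.dvd_add_right (Nat.gcd_dvd_left _ _)).1 ((Nat.gcd_dvd_right _ _).trans h2)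
    have h4 := Nat.dvd_gcd h3 (Nat.gcd_dvd_right (b + (M - g)) W)
    rw [h] at h4
    exact Nat.dvd_one.1 h4

/-- the opposite class, as a number -/
def opp (W M b : ℕ) : ℕ := (W - (b + M) % W) % W

theorem opp_spec (W M b : ℕ) (hW : 0 < W) : (b + M) + opp W M b ≡ 0 [MOD W] := by
  unfold opp
  have h1 : (b + M) % W < W := Nat.mod_lt _ hW
  have h2 : (b + M) + (W - (b + M) % W) % W ≡ (b + M) % W + (W - (b + M) % W) [MOD W] :=
    Nat.ModEq.add (Nat.mod_modEq _ _).symm (Nat.mod_modEq _ _)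
  have h3 : (b + M) % W + (W - (b + M) % W) = W := by omega
  rw [h3] at h2
  exact h2.trans (Nat.modEq_zero_iff_dvd.2 dvd_rfl)

theorem opp_opp (W M b : ℕ) (hW : 0 < W) (hb : b < W) : opp W M (opp W M b) = b := by
  have h1 := opp_spec W M b hW
  have h2 := opp_spec W M (opp W M b) hW
  have h3 : (opp W M b + M) + opp W M (opp W M b) ≡ (opp W M b + M) + b [MOD W] := by
    refine h2.trans (h1.symm.trans ?_)
    have : (b + M) + opp W M b = (opp W M b + M) + b := by ring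
    rw [this]
  have h4 := Nat.ModEq.add_left_cancel' _ h3
  have h5 : opp W M (opp W M b) < W := Nat.mod_lt _ hW
  rwa [Nat.ModEq, Nat.mod_eq_of_lt h5, Nat.mod_eq_of_lt hb] at h4

theorem opp_card (W M : ℕ) (hW : 0 < W) (P : ℕ → Prop) [DecidablePred P] :
    ((range W).filter P).card ≤ ((range W).filter (fun b => P (opp W M b))).card := by
  apply card_le_card_of_injOn (opp W M)
  · intro c hc
    rw [mem_coe, mem_filter, mem_range] at hc
    rw [mem_coe, mem_filter, mem_range, opp_opp W M c hW hc.1]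
    exact ⟨Nat.mod_lt _ hW, hc.2⟩
  · intro a ha b hb h
    rw [mem_coe, mem_filter, mem_range] at ha hb
    rw [← opp_opp W M a hW ha.1, ← opp_opp W M b hW hb.1, h]

open Classical in
/-- **Master theorem for polynomial positions**, with the opposite sign -/
theorem polyN (F : ℤ[X]) (hF : 1 ≤ F.natDegree) (h0 : ∀ j : ℕ, 0 ≤ F.eval (j : ℤ)) (j₀ : ℕ)
    (hmono : ∀ i j : ℕ, j₀ < i → i < j → F.eval (i : ℤ) < F.eval (j : ℤ))
    (h1 : ∀ j : ℕ, j₀ < j → 1 ≤ F.eval (j : ℤ))
    (k m : ℕ) (α : Fin k → ℝ) (ε Λ : ℝ) (hε : 0 < ε) (hΛ : 0 < Λ)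
    (hα : ∀ i, 0 ≤ α i ∧ α i + ε ≤ Λ) :
    ∃ c : ℝ, 0 < c ∧ ∃ X₀ : ℕ, ∀ X : ℕ, X₀ ≤ X → ∀ M : ℕ,
    (M : ℝ) ≤ Real.log X ^ (F.natDegree + 1) →
    (∀ j ∈ Ioc j₀ ⌊Λ * Real.log X⌋₊, gF F j < M) →
    c * X ≤ (((Ico X (2 * X)).filter (fun n =>
      k ≤ 4 * ((univ : Finset (Fin k)).filter (fun i => m ≤
        ((Ioc j₀ ⌊Λ * Real.log X⌋₊).filter (fun j => CL (α i) ε (Real.log X) j ∧
          (n + (M - gF F j)).Prime)).card)).card ∧
      ∀ j ∈ Ioc j₀ ⌊Λ * Real.log X⌋₊, (n + (M - gF F j)).Prime →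
        ∃ i, CL (α i) ε (Real.log X) j)).card : ℝ) := by
  have hC1 := CF_ge F
  obtain ⟨C, hC⟩ : ∃ C, C = CF F := ⟨_, rfl⟩
  rw [← hC] at hC1
  obtain ⟨c, hc, H⟩ := instA k m (ε / 4) (16 * C * Λ + ε) (by positivity)
    (by nlinarith [mul_nonneg (by linarith : (0 : ℝ) ≤ C) hΛ.le])
  obtain ⟨X1, H1⟩ := H (F.natDegree + 1)
  obtain ⟨X2, H2⟩ := gF_le F Λ hΛ
  obtain ⟨X3, H3⟩ := L_big (4 / Λ + 2 * ((j₀ : ℝ) + 3) / ε)
  refine ⟨c / (8 * C), by positivity, X1 + X2 + X3 + 2, fun X hX M hM1 hM2 => ?_⟩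
  have hX0 : (0 : ℝ) < X := by exact_mod_cast (by omega : 0 < X)
  obtain ⟨W, hWd⟩ : ∃ W, W = Wq X 1 := ⟨_, rfl⟩
  have hW0 : 0 < W := by rw [hWd]; exact Wq_pos X 1
  have hWr : (0 : ℝ) < W := by exact_mod_cast hW0
  have hW1 : (1 : ℝ) ≤ W := by exact_mod_cast hW0
  have hφ : (0 : ℝ) < Nat.totient W := by exact_mod_cast Nat.totient_pos.2 hW0
  have hfr : fr 1 = 1 := by unfold fr; simp
  obtain ⟨L, hL⟩ : ∃ L : ℝ, L = Real.log X := ⟨_, rfl⟩
  have hLs : Ls X 1 = L := by unfold Ls; rw [hfr, one_mul, hL]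
  have hlq : lq X 1 = L * ((Nat.totient W : ℝ) / W) := by unfold lq; rw [hLs, hWd]
  have hbig := H3 X (by omega) 1 le_rfl (by omega)
  rw [hfr, one_mul, ← hL, ← hWd] at hbig
  have hWW : (W : ℝ) ≤ (W : ℝ) ^ 2 := by nlinarith
  have hW2 : (1 : ℝ) ≤ (W : ℝ) ^ 2 := by nlinarith
  have hjp : (0 : ℝ) ≤ 2 * ((j₀ : ℝ) + 3) / ε := by positivity
  have hΛp : (0 : ℝ) ≤ 4 / Λ := by positivity
  have hb1 : 4 / Λ * (W : ℝ) ^ 2 ≤ L := by nlinarith
  have hb2 : 2 * ((j₀ : ℝ) + 3) / ε * (W : ℝ) ^ 2 ≤ L := by nlinarith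
  have hb1' : 4 * (W : ℝ) ≤ Λ * L := by
    rw [div_mul_eq_mul_div, div_le_iff₀ hΛ] at hb1
    nlinarith
  have hb2' : (j₀ : ℝ) + 2 + W ≤ ε * L / 2 := by
    rw [div_mul_eq_mul_div, div_le_iff₀ hε] at hb2
    have hj0 : (0 : ℝ) ≤ j₀ := Nat.cast_nonneg _
    nlinarith
  have hL0 : 0 < L := by
    have : 0 < Λ * L := by linarith
    exact (pos_iff_pos_of_mul_pos this).1 hΛ
  -- the positions
  obtain ⟨N, hN⟩ : ∃ N, N = ⌊Λ * L⌋₊ := ⟨_, rfl⟩
  rw [← hL] at hM2 ⊢
  rw [← hN] at hM2 ⊢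
  have hNle : (N : ℝ) ≤ Λ * L := by rw [hN]; exact Nat.floor_le (by positivity)
  have hNlt : Λ * L < N + 1 := by rw [hN]; exact Nat.lt_floor_add_one _
  have hinj : ∀ i ∈ Ioc j₀ N, ∀ j ∈ Ioc j₀ N, gF F i = gF F j → i = j := by
    intro i hi j hj h
    rw [mem_Ioc] at hi hj
    have h2 : F.eval (i : ℤ) = F.eval (j : ℤ) := by
      rw [← gF_cast h0, ← gF_cast h0, h]
    rcases Nat.lt_trichotomy i j with h3 | h3 | h3
    · exact absurd h2 (hmono i j hi.1 h3).ne
    · exact h3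
    · exact absurd h2 (hmono j i hj.1 h3).ne'
  have hinj' : ∀ i ∈ Ioc j₀ N, ∀ j ∈ Ioc j₀ N, M - gF F i = M - gF F j → i = j := by
    intro i hi j hj h
    have h3 := hM2 i hi
    have h4 := hM2 j hj
    exact hinj i hi j hj (by omega)
  have hinjP : ∀ (P : ℕ → Prop) [DecidablePred P],
      Set.InjOn (fun j => M - gF F j) (((Ioc j₀ N).filter P : Finset ℕ) : Set ℕ) := by
    intro P _ i hi j hj h
    rw [mem_coe, mem_filter] at hi hj
    exact hinj' i hi.1 j hj.1 h
  obtain ⟨J, hJ⟩ : ∃ J, J = (Ioc j₀ N).image (fun j => M - gF F j) := ⟨_, rfl⟩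
  obtain ⟨AA, hAA⟩ : ∃ AA : Fin k → Finset ℕ, AA = fun i =>
      ((Ioc j₀ N).filter (fun j => CL (α i) ε L j)).image (fun j => M - gF F j) := ⟨_, rfl⟩
  have hJ1 : ∀ a ∈ J, 1 ≤ a ∧ (a : ℝ) ≤ Real.log X ^ (F.natDegree + 1) := by
    intro a ha
    rw [hJ, mem_image] at ha
    obtain ⟨j, hj, rfl⟩ := ha
    rw [mem_Ioc] at hj
    have h2 := hM2 j (mem_Ioc.2 hj)
    refine ⟨by omega, ?_⟩
    refine le_trans ?_ hM1
    exact_mod_cast Nat.sub_le _ _
  have hAJ : ∀ i, AA i ⊆ J := by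
    intro i
    rw [hAA, hJ]
    exact image_subset_image (filter_subset _ _)
  -- admissible positions
  have hadm : ∀ (b : ℕ) (P : ℕ → Prop) [DecidablePred P],
      (adm X 1 b (((Ioc j₀ N).filter P).image (fun j => M - gF F j))).card =
      (((Ioc j₀ N).filter P).filter (fun j => (opp W M b + gF F j).Coprime W)).card := by
    intro b P _
    unfold adm
    rw [filter_image, card_image_of_injOn]
    · congr 1
      apply filter_congr
      intro j hj
      rw [mem_filter] at hj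
      rw [mul_one, ← hWd]
      exact opp_cop (hM2 j hj.1).le (opp_spec W M b hW0)
    · intro i hi j hj h
      rw [mem_coe, mem_filter] at hi hj
      exact hinjP P (by exact_mod_cast hi.1) (by exact_mod_cast hj.1) h
  have hG0 := good_b hF h0 X
  rw [← hWd, ← hC] at hG0
  have hG := hG0.trans (Nat.cast_le.2 (opp_card W M hW0 (fun b =>
    (Nat.totient W : ℝ) / 2 ≤ UF F W b ∧ (UF F W b : ℝ) ≤ 8 * C * Nat.totient W)))
  have hsub : (range W).filter (fun b => (Nat.totient W : ℝ) / 2 ≤ UF F W (opp W M b) ∧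
      (UF F W (opp W M b) : ℝ) ≤ 8 * C * Nat.totient W) ⊆ (range (Wq X 1)).filter (fun b =>
      ((adm X 1 b J).card : ℝ) ≤ (16 * C * Λ + ε) * lq X 1 ∧
      ∀ i, ε / 4 * lq X 1 ≤ ((adm X 1 b (AA i)).card : ℝ)) := by
    intro b hb
    rw [mem_filter] at hb
    rw [mem_filter, ← hWd]
    obtain ⟨hb0, hb1, hb2⟩ := hb
    refine ⟨hb0, ?_, ?_⟩
    · have h3 := hadm b (fun _ => True)
      rw [filter_true] at h3
      rw [hJ, h3]
      have h4 : (Ioc j₀ N).filter (fun j => (opp W M b + gF F j).Coprime W) ⊆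
          (Ico 0 (N + 1)).filter (fun j => (opp W M b + gF F j).Coprime W) := by
        apply filter_subset_filter
        intro j hj
        rw [mem_Ioc] at hj
        rw [mem_Ico]
        omega
      have h5 := per_upper h0 W (opp W M b) 0 (N + 1) hW0 (by omega)
      have h6 : (((Ioc j₀ N).filter (fun j => (opp W M b + gF F j).Coprime W)).card : ℝ) ≤
          (((Ico 0 (N + 1)).filter (fun j => (opp W M b + gF F j).Coprime W)).card : ℝ) := by
        exact_mod_cast card_le_card h4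
      refine (h6.trans h5).trans ?_
      push_cast
      have h7 : ((N : ℝ) + 1 - 0) / W + 1 ≤ 2 * (Λ * L) / W := by
        rw [div_add_one hWr.ne']
        apply div_le_div_of_nonneg_right _ hWr.le
        linarith
      calc (((N : ℝ) + 1 - 0) / W + 1) * UF F W (opp W M b) ≤
            (2 * (Λ * L) / W) * (8 * C * Nat.totient W) :=
            mul_le_mul h7 hb2 (Nat.cast_nonneg _) (by positivity)
        _ = 16 * C * Λ * lq X 1 := by rw [hlq]; ring
        _ ≤ _ := by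
            apply mul_le_mul_of_nonneg_right (by linarith)
            rw [hlq]
            positivity
    · intro i
      rw [hAA]
      beta_reduce
      rw [hadm b (fun j => CL (α i) ε L j)]
      obtain ⟨s, hs⟩ : ∃ s, s = ⌊α i * L⌋₊ + 1 + j₀ := ⟨_, rfl⟩
      obtain ⟨t, ht⟩ : ∃ t, t = ⌊(α i + ε) * L⌋₊ + 1 := ⟨_, rfl⟩
      have hα0 := (hα i).1
      have hs1 : (s : ℝ) ≤ α i * L + 1 + j₀ := by
        rw [hs]
        push_cast
        have := Nat.floor_le (show 0 ≤ α i * L by positivity)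
        linarith
      have ht1 : (α i + ε) * L < t := by
        rw [ht]
        push_cast
        exact Nat.lt_floor_add_one _
      have hst : s ≤ t := by
        have : (s : ℝ) ≤ t := by nlinarith
        exact_mod_cast this
      have h4 : (Ico s t).filter (fun j => (opp W M b + gF F j).Coprime W) ⊆
          ((Ioc j₀ N).filter (fun j => CL (α i) ε L j)).filter
            (fun j => (opp W M b + gF F j).Coprime W) := by
        apply filter_subset_filter
        intro j hj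
        rw [mem_Ico] at hj
        rw [mem_filter, mem_Ioc]
        have hj1 : (j : ℝ) ≤ (α i + ε) * L := by
          apply (Nat.le_floor_iff (by positivity)).1
          omega
        refine ⟨⟨by omega, ?_⟩, ?_, hj1⟩
        · rw [hN]
          apply Nat.le_floor
          exact hj1.trans (mul_le_mul_of_nonneg_right (hα i).2 hL0.le)
        · exact Nat.lt_of_floor_lt (by omega)
      have h5 := per_lower h0 W (opp W M b) s t hW0 hst
      have h6 : (((Ico s t).filter (fun j => (opp W M b + gF F j).Coprime W)).card : ℝ) ≤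
          ((((Ioc j₀ N).filter (fun j => CL (α i) ε L j)).filter
            (fun j => (opp W M b + gF F j).Coprime W)).card : ℝ) := by
        exact_mod_cast card_le_card h4
      refine le_trans ?_ (h5.trans h6)
      have h7 : ε * L / 2 / W ≤ ((t : ℝ) - s) / W - 1 := by
        rw [div_sub_one hWr.ne']
        apply div_le_div_of_nonneg_right _ hWr.le
        nlinarith
      calc ε / 4 * lq X 1 = (ε * L / 2 / W) * (Nat.totient W / 2) := by rw [hlq]; ring
        _ ≤ _ := mul_le_mul h7 hb1 (by positivity) (by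
            refine le_trans ?_ h7
            positivity)
  have hG2 := hG.trans (Nat.cast_le.2 (card_le_card hsub))
  have hres := H1 X (by omega) 1 le_rfl (by omega) J hJ1 AA hAJ
  have hlow : c / (8 * C) * X ≤ c * (fr 1 * (X : ℝ) / Wq X 1) *
      (((range (Wq X 1)).filter (fun b =>
      ((adm X 1 b J).card : ℝ) ≤ (16 * C * Λ + ε) * lq X 1 ∧
      ∀ i, ε / 4 * lq X 1 ≤ ((adm X 1 b (AA i)).card : ℝ))).card : ℝ) := by
    refine le_trans (le_of_eq ?_) (mul_le_mul_of_nonneg_left hG2 (by rw [hfr]; positivity))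
    rw [hfr, ← hWd]
    field_simp
  refine (hlow.trans hres).trans (Nat.cast_le.2 (card_le_card ?_))
  intro n hn
  rw [mem_filter] at hn ⊢
  obtain ⟨hn1, -, hn2, hn3⟩ := hn
  refine ⟨hn1, ?_, ?_⟩
  · refine hn2.trans ?_
    apply Nat.mul_le_mul_left
    apply card_le_card
    intro i hi
    rw [mem_filter] at hi ⊢
    refine ⟨hi.1, hi.2.trans ?_⟩
    rw [hAA]
    beta_reduce
    rw [filter_image]
    refine card_image_le.trans (card_le_card ?_)
    intro j hj
    rw [mem_filter, mem_filter, mul_one] at hj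
    rw [mem_filter]
    exact ⟨hj.1.1, hj.1.2, hj.2⟩
  · intro j hj hp
    obtain ⟨i, hi⟩ := hn3 (M - gF F j) (by rw [hJ]; exact mem_image_of_mem _ hj)
      (by rw [mul_one]; exact hp)
    rw [hAA, mem_image] at hi
    obtain ⟨j', hj', h5⟩ := hi
    rw [mem_filter] at hj'
    have h6 := hinj' j' hj'.1 j hj h5
    rw [← h6]
    exact ⟨i, hj'.2⟩

end Pool.Agent.H533.QA
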