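import Mathlib

/-!
The second moment of the local densities of a polynomial.
-/

set_option autoImplicit false

open Finset Polynomial

namespace Pool.Agent.H533.QA

/-- the value of an integer polynomial in a commutative ring -/
noncomputable def ev (F : ℤ[X]) {R : Type} [CommRing R] (y : R) : R :=
  eval₂ (Int.castRingHom R) y F

theorem ev_hom (F : ℤ[X]) {R R' : Type} [CommRing R] [CommRing R'] (φ : R →+* R') (y : R) :
    φ (ev F y) = ev F (φ y) := by
  unfold ev
  rw [Polynomial.hom_eval₂]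
  congr 1
  exact Subsingleton.elim _ _

/-- the admissible triples -/
def Tr (F : ℤ[X]) (R : Type) [CommRing R] (t : R × R × R) : Prop :=
  IsUnit (t.1 + ev F t.2.1) ∧ IsUnit (t.1 + ev F t.2.2)

theorem unit_prod {R R' : Type} [CommRing R] [CommRing R'] (F : ℤ[X]) (x y : R × R') :
    IsUnit (x + ev F y) ↔ IsUnit (x.1 + ev F y.1) ∧ IsUnit (x.2 + ev F y.2) := by
  have h1 : (ev F y).1 = ev F y.1 := ev_hom F (RingHom.fst R R') y
  have h2 : (ev F y).2 = ev F y.2 := ev_hom F (RingHom.snd R R') y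
  rw [Prod.isUnit_iff, Prod.fst_add, Prod.snd_add, h1, h2]

theorem card_Tr_prod (F : ℤ[X]) (R R' : Type) [CommRing R] [CommRing R'] :
    Nat.card {t : (R × R') × (R × R') × (R × R') // Tr F (R × R') t} =
      Nat.card {t : R × R × R // Tr F R t} * Nat.card {t : R' × R' × R' // Tr F R' t} := by
  rw [← Nat.card_prod]
  apply Nat.card_congr
  refine ⟨fun t => (⟨(t.1.1.1, t.1.2.1.1, t.1.2.2.1), ?_⟩, ⟨(t.1.1.2, t.1.2.1.2, t.1.2.2.2), ?_⟩),
    fun s => ⟨((s.1.1.1, s.2.1.1), (s.1.1.2.1, s.2.1.2.1), (s.1.1.2.2, s.2.1.2.2)), ?_⟩, ?_, ?_⟩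
  · obtain ⟨h1, h2⟩ := t.2
    rw [unit_prod] at h1 h2
    exact ⟨h1.1, h2.1⟩
  · obtain ⟨h1, h2⟩ := t.2
    rw [unit_prod] at h1 h2
    exact ⟨h1.2, h2.2⟩
  · obtain ⟨h1, h2⟩ := s.1.2
    obtain ⟨h3, h4⟩ := s.2.2
    exact ⟨(unit_prod F _ _).2 ⟨h1, h3⟩, (unit_prod F _ _).2 ⟨h2, h4⟩⟩
  · intro t
    rfl
  · intro s
    rfl

theorem Tr_iso (F : ℤ[X]) {R R' : Type} [CommRing R] [CommRing R'] (e : R ≃+* R') (t : R × R × R) :
    Tr F R t ↔ Tr F R' (e t.1, e t.2.1, e t.2.2) := by
  have h : ∀ x y : R, IsUnit (x + ev F y) ↔ IsUnit (e x + ev F (e y)) := by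
    intro x y
    have h1 : ev F (e y) = e (ev F y) := (ev_hom F (e : R →+* R') y).symm
    rw [h1, ← map_add]
    exact (MulEquiv.isUnit_map e).symm
  unfold Tr
  rw [h, h]

theorem card_Tr_iso (F : ℤ[X]) {R R' : Type} [CommRing R] [CommRing R'] (e : R ≃+* R') :
    Nat.card {t : R × R × R // Tr F R t} = Nat.card {t : R' × R' × R' // Tr F R' t} := by
  apply Nat.card_congr
  exact Equiv.subtypeEquiv (e.toEquiv.prodCongr (e.toEquiv.prodCongr e.toEquiv))
    (fun t => Tr_iso F e t)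

theorem card_Tr_mul (F : ℤ[X]) {m n : ℕ} (h : m.Coprime n) :
    Nat.card {t : ZMod (m * n) × ZMod (m * n) × ZMod (m * n) // Tr F (ZMod (m * n)) t} =
      Nat.card {t : ZMod m × ZMod m × ZMod m // Tr F (ZMod m) t} *
      Nat.card {t : ZMod n × ZMod n × ZMod n // Tr F (ZMod n) t} := by
  rw [card_Tr_iso F (ZMod.chineseRemainder h), card_Tr_prod]

theorem card_Tr_prime_set (F : ℤ[X]) (S : Finset ℕ) (hS : ∀ p ∈ S, p.Prime) :
    Nat.card {t : ZMod (∏ p ∈ S, p) × ZMod (∏ p ∈ S, p) × ZMod (∏ p ∈ S, p) //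
      Tr F (ZMod (∏ p ∈ S, p)) t} =
      ∏ p ∈ S, Nat.card {t : ZMod p × ZMod p × ZMod p // Tr F (ZMod p) t} := by
  induction S using Finset.induction_on with
  | empty =>
    rw [prod_empty, prod_empty, Nat.card_eq_one_iff_unique]
    refine ⟨⟨fun a b => Subtype.ext (Subsingleton.elim _ _)⟩, ⟨⟨(0, 0, 0), ?_⟩⟩⟩
    exact ⟨isUnit_of_subsingleton _, isUnit_of_subsingleton _⟩
  | insert p S hp ih =>
    rw [prod_insert hp, prod_insert hp]
    rw [card_Tr_mul, ih (fun q hq => hS q (mem_insert_of_mem hq))]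
    apply Nat.Coprime.prod_right
    intro q hq
    rw [Nat.coprime_primes (hS p (mem_insert_self _ _)) (hS q (mem_insert_of_mem hq))]
    rintro rfl
    exact hp hq

/-- the number of `u` with `x + F u ≠ 0`, over a finite field -/
theorem card_Tr_field (F : ℤ[X]) (p : ℕ) [Fact p.Prime] (d : ℕ)
    (hd : ∀ x : ZMod p, ((univ : Finset (ZMod p)).filter (fun u => ev F u = x)).card ≤ d) :
    (Nat.card {t : ZMod p × ZMod p × ZMod p // Tr F (ZMod p) t} : ℝ) ≤
      (p : ℝ) ^ 3 * ((1 - 1 / (p : ℝ)) ^ 2 * (1 + 4 * d / (p : ℝ) ^ 2)) := by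
  classical
  have hp2 : (2 : ℝ) ≤ p := by exact_mod_cast (Fact.out : p.Prime).two_le
  -- the fibres
  obtain ⟨r, hr⟩ : ∃ r : ZMod p → ℕ, r = fun x =>
      ((univ : Finset (ZMod p)).filter (fun u => ev F u = x)).card := ⟨_, rfl⟩
  have hsum : ∑ x, (r x : ℝ) = p := by
    have h1 := card_eq_sum_card_fiberwise (f := fun u : ZMod p => ev F u)
      (s := (univ : Finset (ZMod p))) (t := univ) (fun _ _ => mem_univ _)
    rw [card_univ, ZMod.card] at h1
    rw [hr]
    exact_mod_cast h1.symm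
  have hU : ∀ b : ZMod p, (((univ : Finset (ZMod p)).filter
      (fun u => IsUnit (b + ev F u))).card : ℝ) = p - r (-b) := by
    intro b
    have h1 := card_filter_add_card_filter_not (s := (univ : Finset (ZMod p)))
      (fun u => ev F u = -b)
    have h2 : (univ : Finset (ZMod p)).filter (fun u => ¬ ev F u = -b) =
        (univ : Finset (ZMod p)).filter (fun u => IsUnit (b + ev F u)) := by
      apply filter_congr
      intro u _
      rw [isUnit_iff_ne_zero, ne_eq, not_iff_not]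
      constructor
      · intro h
        rw [h, add_neg_cancel]
      · intro h
        exact eq_neg_of_add_eq_zero_right h
    rw [h2, card_univ, ZMod.card] at h1
    have h3 : (r (-b) : ℝ) + (((univ : Finset (ZMod p)).filter
      (fun u => IsUnit (b + ev F u))).card : ℝ) = p := by
      rw [hr]
      exact_mod_cast h1
    linarith
  have hcard : (Nat.card {t : ZMod p × ZMod p × ZMod p // Tr F (ZMod p) t} : ℝ) =
      ∑ b : ZMod p, ((p : ℝ) - r (-b)) ^ 2 := by
    have h1 : Nat.card {t : ZMod p × ZMod p × ZMod p // Tr F (ZMod p) t} =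
        ∑ b : ZMod p, ((univ : Finset (ZMod p)).filter
      (fun u => IsUnit (b + ev F u))).card ^ 2 := by
      rw [Nat.card_eq_fintype_card, Fintype.card_subtype]
      rw [card_eq_sum_card_fiberwise (f := fun t : ZMod p × ZMod p × ZMod p => t.1)
        (t := univ) (fun _ _ => mem_univ _)]
      apply sum_congr rfl
      intro b _
      rw [sq, ← card_product]
      apply Finset.card_bij (fun t _ => t.2)
      · intro t ht
        rw [mem_filter, mem_filter] at ht
        rw [mem_product, mem_filter, mem_filter]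
        obtain ⟨⟨-, h2, h3⟩, h4⟩ := ht
        rw [h4] at h2 h3
        exact ⟨⟨mem_univ _, h2⟩, ⟨mem_univ _, h3⟩⟩
      · intro t ht t' ht' h
        rw [mem_filter, mem_filter] at ht ht'
        exact Prod.ext (ht.2.trans ht'.2.symm) h
      · intro s hs
        rw [mem_product, mem_filter, mem_filter] at hs
        refine ⟨(b, s), ?_, rfl⟩
        rw [mem_filter, mem_filter]
        exact ⟨⟨mem_univ _, hs.1.2, hs.2.2⟩, rfl⟩
    rw [h1]
    push_cast
    apply sum_congr rfl
    intro b _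
    rw [hU]
  have hre : ∑ b : ZMod p, ((p : ℝ) - r (-b)) ^ 2 = ∑ b : ZMod p, ((p : ℝ) - r b) ^ 2 :=
    Fintype.sum_equiv (Equiv.neg (ZMod p)) _ _ (fun b => rfl)
  have hsq : ∑ x, (r x : ℝ) ^ 2 ≤ d * p := by
    calc ∑ x, (r x : ℝ) ^ 2 ≤ ∑ x, (d : ℝ) * r x := by
          apply sum_le_sum
          intro x _
          rw [sq]
          apply mul_le_mul_of_nonneg_right _ (Nat.cast_nonneg _)
          rw [hr]
          exact_mod_cast hd x
      _ = d * p := by rw [← mul_sum, hsum]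
  have hexp : ∑ b : ZMod p, ((p : ℝ) - r b) ^ 2 = (p : ℝ) ^ 3 - 2 * p ^ 2 + ∑ x, (r x : ℝ) ^ 2 := by
    have h1 : ∀ b : ZMod p, ((p : ℝ) - r b) ^ 2 = (p : ℝ) ^ 2 - 2 * p * r b + (r b : ℝ) ^ 2 :=
      fun b => by ring
    rw [sum_congr rfl (fun b _ => h1 b), sum_add_distrib, sum_sub_distrib, ← mul_sum, hsum,
      sum_const, card_univ, ZMod.card, nsmul_eq_mul]
    ring
  rw [hcard, hre, hexp]
  have hp0 : (0 : ℝ) < p := by linarith
  have hd0 : (0 : ℝ) ≤ d := Nat.cast_nonneg d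
  have e : (p : ℝ) ^ 3 * ((1 - 1 / (p : ℝ)) ^ 2 * (1 + 4 * d / (p : ℝ) ^ 2)) =
      p * (p - 1) ^ 2 + 4 * d * ((p - 1) ^ 2 / p) := by
    field_simp
  rw [e]
  have h2 : (p : ℝ) / 4 ≤ (p - 1) ^ 2 / p := by
    rw [div_le_div_iff₀ (by norm_num) hp0]
    nlinarith
  have h3 : 4 * (d : ℝ) * (p / 4) ≤ 4 * d * ((p - 1) ^ 2 / p) :=
    mul_le_mul_of_nonneg_left h2 (by positivity)
  nlinarith

/-- the trivial bound -/
theorem card_Tr_triv (F : ℤ[X]) (p : ℕ) [Fact p.Prime] :
    (Nat.card {t : ZMod p × ZMod p × ZMod p // Tr F (ZMod p) t} : ℝ) ≤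
      (p : ℝ) ^ 3 * ((1 - 1 / (p : ℝ)) ^ 2 * 2) := by
  classical
  have hp2 : (2 : ℝ) ≤ p := by exact_mod_cast (Fact.out : p.Prime).two_le
  have h1 : Nat.card {t : ZMod p × ZMod p × ZMod p // Tr F (ZMod p) t} ≤ (p - 1) * p ^ 2 := by
    rw [Nat.card_eq_fintype_card, Fintype.card_subtype]
    rw [card_eq_sum_card_fiberwise (f := fun t : ZMod p × ZMod p × ZMod p => t.2)
        (t := univ) (fun _ _ => mem_univ _)]
    have h2 : ∀ s ∈ (univ : Finset (ZMod p × ZMod p)),
        (((univ : Finset (ZMod p × ZMod p × ZMod p)).filter (fun t => Tr F (ZMod p) t)).filter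
        (fun t => t.2 = s)).card ≤ p - 1 := by
      intro s _
      have h3 : (((univ : Finset (ZMod p × ZMod p × ZMod p)).filter
          (fun t => Tr F (ZMod p) t)).filter (fun t => t.2 = s)).card ≤
          ((univ : Finset (ZMod p)).erase (- ev F s.1)).card := by
        apply card_le_card_of_injOn (fun t => t.1)
        · intro t ht
          simp only [coe_filter, mem_filter, mem_univ, true_and, Set.mem_setOf_eq] at ht
          simp only [coe_erase, coe_univ, Set.mem_diff, Set.mem_univ, Set.mem_singleton_iff,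
            true_and]
          intro h
          have h4 := ht.1.1
          rw [h, ht.2, neg_add_cancel, isUnit_iff_ne_zero] at h4
          exact h4 rfl
        · intro t ht t' ht' h
          simp only [coe_filter, mem_filter, mem_univ, true_and, Set.mem_setOf_eq] at ht ht'
          exact Prod.ext h (ht.2.trans ht'.2.symm)
      rw [card_erase_of_mem (mem_univ _), card_univ, ZMod.card] at h3
      exact h3
    refine (sum_le_sum h2).trans ?_
    rw [sum_const, card_univ, Fintype.card_prod, ZMod.card, smul_eq_mul]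
    rw [sq, mul_comm]
  have h4 : (Nat.card {t : ZMod p × ZMod p × ZMod p // Tr F (ZMod p) t} : ℝ) ≤
      ((p : ℝ) - 1) * p ^ 2 := by
    have h5 : 1 ≤ p := (Fact.out : p.Prime).one_le
    have h6 : (((p - 1) * p ^ 2 : ℕ) : ℝ) = ((p : ℝ) - 1) * p ^ 2 := by
      push_cast [Nat.cast_sub h5]
      ring
    rw [← h6]
    exact_mod_cast h1
  refine h4.trans ?_
  have hp0 : (0 : ℝ) < p := by linarith
  have e : (p : ℝ) ^ 3 * ((1 - 1 / (p : ℝ)) ^ 2 * 2) = 2 * (p * (p - 1) ^ 2) := by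
    field_simp
  rw [e]
  nlinarith [mul_nonneg hp0.le (by linarith : (0 : ℝ) ≤ p - 2),
    mul_nonneg (mul_nonneg hp0.le (by linarith : (0 : ℝ) ≤ p - 2)) (by linarith : (0 : ℝ) ≤ p - 1)]

end Pool.Agent.H533.QA
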